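import Mathlib

set_option autoImplicit false

/-!
Nuclear dimension (Winter-Zacharias), the full group C*-algebra, and the groups of the
lower bound theorem.
-/

namespace Pool.Agent.LibND

open scoped CStarAlgebra ComplexOrder

universe u v w

/-- The finite-dimensional C*-algebra `M_{d 0}(ℂ) ⊕ ... ⊕ M_{d (κ-1)}(ℂ)`. -/
abbrev FD {κ : ℕ} (d : Fin κ → ℕ) : Type :=
  (j : Fin κ) → CStarMatrix (Fin (d j)) (Fin (d j)) ℂ

/-- A map between C*-algebras has order zero if it sends orthogonal positive elements to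
orthogonal elements. -/
def OrderZero {F : Type v} {A : Type w} [CStarAlgebra F] [PartialOrder F] [CStarAlgebra A]
    (φ : F → A) : Prop :=
  ∀ a b : F, 0 ≤ a → 0 ≤ b → a * b = 0 → φ a * φ b = 0

/-- A completely positive contractive map between C*-algebras. -/
structure CPC (A : Type v) (B : Type w) [CStarAlgebra A] [PartialOrder A] [StarOrderedRing A]
    [CStarAlgebra B] [PartialOrder B] [StarOrderedRing B] where
  /-- the completely positive map -/
  map : A →CP B
  contractive : ∀ a, ‖map a‖ ≤ ‖a‖

/-- A pair of completely positive contractive maps `ψ : A → F`, `φ : F → A`, where `φ` has order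
zero. -/
structure OZPair (A : Type w) [CStarAlgebra A] [PartialOrder A] [StarOrderedRing A]
    (F : Type v) [CStarAlgebra F] [PartialOrder F] [StarOrderedRing F] where
  /-- the map `A → F` -/
  ψ : CPC A F
  /-- the map `F → A` -/
  φ : CPC F A
  orderZero : OrderZero φ.map

/-- The composition `φ ∘ ψ : A → A`. -/
noncomputable def OZPair.comp {A : Type w} [CStarAlgebra A] [PartialOrder A] [StarOrderedRing A]
    {F : Type v} [CStarAlgebra F] [PartialOrder F] [StarOrderedRing F] (x : OZPair A F) (a : A) :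
    A :=
  x.φ.map (x.ψ.map a)

/-- `dim_nuc A ≤ n` (Winter-Zacharias): for every finite `S ⊆ A` and `ε > 0` there are
finite-dimensional C*-algebras `F₀, ..., Fₙ` and completely positive contractive maps
`ψᵢ : A → Fᵢ`, `φᵢ : Fᵢ → A`, with `φᵢ` of order zero, such that `‖∑ᵢ φᵢ (ψᵢ a) - a‖ < ε` for all
`a ∈ S`. (The `ψᵢ` are the components of a completely positive contractive map
`A → F₀ ⊕ ... ⊕ Fₙ`.) -/
def NucDimLE (A : Type w) [CStarAlgebra A] [PartialOrder A] [StarOrderedRing A] (n : ℕ) : Prop :=
  ∀ (S : Finset A) (ε : ℝ), 0 < ε →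
    ∃ (κ : Fin (n + 1) → ℕ) (d : (i : Fin (n + 1)) → Fin (κ i) → ℕ)
      (x : (i : Fin (n + 1)) → OZPair A (FD (d i))), ∀ a ∈ S, ‖∑ i, (x i).comp a - a‖ < ε

/-- The Hilbert space `ℓ²(X)`. -/
abbrev L2 (X : Type u) : Type u := lp (fun _ : X => ℂ) 2

open Classical in
/-- The standard basis vector `δ_x` of `ℓ²(X)`. -/
noncomputable def bas {X : Type u} (x : X) : L2 X := lp.single 2 x (1 : ℂ)

/-- The operator `η ↦ ⟪ξ, η⟫ ξ`. -/
noncomputable def rk {H : Type v} [NormedAddCommGroup H] [InnerProductSpace ℂ H] (ξ : H) :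
    H →L[ℂ] H :=
  (innerSL ℂ ξ).smulRight ξ

/-- `e(r) = exp (2 π i r)`, on the circle. -/
noncomputable def ex (r : ℝ) : Circle := Circle.exp (2 * Real.pi * r)

/-- The unit cube `[0,1]^k`. -/
abbrev Cub (k : ℕ) : Set (Fin k → ℝ) := {x | ∀ i, x i ∈ Set.Icc (0 : ℝ) 1}

/-- The homomorphisms from a group `G` to the unitary group of a C*-algebra `B`. -/
def Reps (G : Type u) [Group G] (B : Type w) [CStarAlgebra B] : Type (max u w) :=
  G →* unitary B

/-- The element of `B` which corresponds to `g`. -/
def Reps.op {G : Type u} [Group G] {B : Type w} [CStarAlgebra B] (ρ : Reps G B) (g : G) : B :=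
  DFunLike.coe (F := G →* unitary B) ρ g

/-- `ρ` is the composition of `U` with a unital star homomorphism `A → B`. -/
def Factors {G : Type u} {A : Type w} [CStarAlgebra A] {B : Type v} [CStarAlgebra B]
    (U : G → A) (ρ : G → B) : Prop :=
  ∃ π : A →⋆ₐ[ℂ] B, ∀ g, π (U g) = ρ g

/-- `(A, U)` is the full group C*-algebra of the discrete group `G`: `A` is a unital C*-algebra,
`U` is a homomorphism from `G` to the unitary group of `A`, the linear span of the `U g` is dense
in `A`, and every unitary representation of `G` on a Hilbert space `H` extends to a representation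
of `A` on `H`. -/
structure IsGroupCStar (G : Type u) [Group G] (A : Type w) [CStarAlgebra A]
    (U : G →* unitary A) : Prop where
  dense : Dense (Submodule.span ℂ (Set.range (Reps.op U)) : Set A)
  exists_rep : ∀ (H : Type u) [NormedAddCommGroup H] [InnerProductSpace ℂ H] [CompleteSpace H]
    (ρ : Reps G (H →L[ℂ] H)), Factors (Reps.op U) (Reps.op ρ)

theorem IsGroupCStar.rep {G : Type u} [Group G] {A : Type w} [CStarAlgebra A]
    {U : G →* unitary A} (h : IsGroupCStar G A U) (H : Type u) [NormedAddCommGroup H]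
    [InnerProductSpace ℂ H] [CompleteSpace H] (ρ : G →* unitary (H →L[ℂ] H)) :
    ∃ π : A →⋆ₐ[ℂ] (H →L[ℂ] H), ∀ g, π (U g) = ρ g :=
  h.exists_rep H ρ

theorem IsGroupCStar.dense' {G : Type u} [Group G] {A : Type w} [CStarAlgebra A]
    {U : G →* unitary A} (h : IsGroupCStar G A U) :
    Dense (Submodule.span ℂ (Set.range fun g => (U g : A)) : Set A) :=
  h.dense

/-- The semidirect product `A ⋊ Γ` of an abelian group `A` (written additively) by a group `Γ`
acting on `A` through `α`: the pairs `(a, g)` with `(a, g) (b, h) = (a + α g b, g h)`. -/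
@[ext] structure SD {A : Type u} [AddCommGroup A] {Γ : Type v} [Group Γ]
    (α : Γ →* AddMonoid.End A) : Type (max u v) where
  /-- the coordinate in `A` -/
  fst : A
  /-- the coordinate in `Γ` -/
  snd : Γ

namespace SD

variable {A : Type u} [AddCommGroup A] {Γ : Type v} [Group Γ] (α : Γ →* AddMonoid.End A)

instance : Mul (SD α) := ⟨fun x y => ⟨x.fst + α x.snd y.fst, x.snd * y.snd⟩⟩
instance : One (SD α) := ⟨⟨0, 1⟩⟩
instance : Inv (SD α) := ⟨fun x => ⟨-α x.snd⁻¹ x.fst, x.snd⁻¹⟩⟩

@[simp] theorem mul_fst (x y : SD α) : (x * y).fst = x.fst + α x.snd y.fst := rfl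
@[simp] theorem mul_snd (x y : SD α) : (x * y).snd = x.snd * y.snd := rfl
@[simp] theorem one_fst : (1 : SD α).fst = 0 := rfl
@[simp] theorem one_snd : (1 : SD α).snd = 1 := rfl
@[simp] theorem inv_fst (x : SD α) : (x⁻¹).fst = -α x.snd⁻¹ x.fst := rfl
@[simp] theorem inv_snd (x : SD α) : (x⁻¹).snd = x.snd⁻¹ := rfl

instance : Group (SD α) :=
  Group.ofLeftAxioms
    (fun x y z => by
      ext
      · simp [map_add, add_assoc, map_mul]
      · simp [mul_assoc])
    (fun x => by
      ext
      · simp
      · simp)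
    (fun x => by
      ext
      · simp
      · simp)

end SD

/-- `G₀` is an extension of the group `Γ` by the abelian group `A` (written additively):
`j : A → G₀` is injective, `π : G₀ → Γ` is surjective, the image of `j` is the kernel of `π`, and
conjugation by `g` acts on `A` as `α (π g)`. -/
structure IsExt {A : Type u} [AddCommGroup A] {Γ : Type v} [Group Γ] {G₀ : Type w} [Group G₀]
    (α : Γ →* AddMonoid.End A) (j : Multiplicative A →* G₀) (π : G₀ →* Γ) : Prop where
  inj : Function.Injective j
  surj : Function.Surjective π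
  exact : j.range = π.ker
  conj : ∀ (g : G₀) (a : A),
    g * j (Multiplicative.ofAdd a) * g⁻¹ = j (Multiplicative.ofAdd (α (π g) a))

/-- The action of the integral group ring `ℤ[Γ]` on a `Γ`-module `A`. -/
noncomputable def ringAct {A : Type u} [AddCommGroup A] {Γ : Type v} [Group Γ]
    (α : Γ →* AddMonoid.End A) : MonoidAlgebra ℤ Γ →ₐ[ℤ] AddMonoid.End A :=
  MonoidAlgebra.lift ℤ (AddMonoid.End A) Γ α

/-- The free abelian group `ℤ^d`, written multiplicatively. -/
abbrev Zd (d : ℕ) : Type := Multiplicative (Fin d → ℤ)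

/-- The Laurent polynomials in `d` variables with integer coefficients: the group ring of
`ℤ^d`. -/
abbrev Lau (d : ℕ) : Type := MonoidAlgebra ℤ (Zd d)

/-- The value of a Laurent polynomial at the point `(e(t₁), ..., e(t_d))` of the torus. -/
noncomputable def evT {d : ℕ} (f : Lau d) (t : UnitAddTorus (Fin d)) : ℂ :=
  f.coeff.sum fun n c => (c : ℂ) * UnitAddTorus.mFourier n.toAdd t

/-- The reciprocal `f* = f(x₁⁻¹, ..., x_d⁻¹)` of a Laurent polynomial. -/
noncomputable def recip {d : ℕ} (f : Lau d) : Lau d :=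
  MonoidAlgebra.ofCoeff (f.coeff.mapDomain fun n => n⁻¹)

/-- The derivative `x_i ∂f/∂x_i` of a Laurent polynomial. -/
noncomputable def theta {d : ℕ} (i : Fin d) (f : Lau d) : Lau d :=
  MonoidAlgebra.ofCoeff (f.coeff.sum fun n c => Finsupp.single n (n.toAdd i * c))

/-- The action of a group `H` on the finitely supported functions `X → ℤ` on an `H`-set `X`:
`(α h f) (h • x) = f x`. -/
noncomputable def permAct (H : Type u) (X : Type v) [Group H] [MulAction H X] :
    H →* AddMonoid.End (X →₀ ℤ) where
  toFun h := Finsupp.mapDomain.addMonoidHom (h • ·)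
  map_one' := by
    refine AddMonoidHom.ext fun x => ?_
    simp only [one_smul]
    exact Finsupp.mapDomain_id
  map_mul' g h := by
    refine AddMonoidHom.ext fun x => ?_
    simp only [mul_smul]
    exact Finsupp.mapDomain_comp (f := fun y => h • y) (g := fun y => g • y)

/-- The restricted permutational wreath product `ℤ ≀_X H`. -/
abbrev Wr (H : Type u) (X : Type v) [Group H] [MulAction H X] : Type (max u v) :=
  SD (permAct H X)

open LaurentPolynomial in
/-- The ring `ℤ[x, x⁻¹, 1/q]`, for a Laurent polynomial `q` with integer coefficients. -/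
abbrev RingQ (q : ℤ[T;T⁻¹]) : Type := Localization.Away q

open LaurentPolynomial in
/-- The unit `x ^ a * q ^ b` of `ℤ[x, x⁻¹, 1/q]`. -/
noncomputable def unitQ (q : ℤ[T;T⁻¹]) : Zd 2 →* (RingQ q)ˣ where
  toFun z := (Units.map (algebraMap ℤ[T;T⁻¹] (RingQ q)).toMonoidHom
      ⟨T 1, T (-1), by rw [← T_add]; simp, by rw [← T_add]; simp⟩) ^ z.toAdd 0 *
    (IsLocalization.Away.algebraMap_isUnit (S := RingQ q) q).unit ^ z.toAdd 1
  map_one' := by simp
  map_mul' a b := by
    simp only [toAdd_mul, Pi.add_apply, zpow_add]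
    exact mul_mul_mul_comm _ _ _ _

/-- The action of `ℤ²` on `ℤ[x, x⁻¹, 1/q]`: `(a, b)` acts as the multiplication by
`x ^ a * q ^ b`. -/
noncomputable def actQ (q : LaurentPolynomial ℤ) :
    Zd 2 →* AddMonoid.End (RingQ q) where
  toFun z := AddMonoidHom.mulLeft ((unitQ q z : (RingQ q)ˣ) : RingQ q)
  map_one' := by
    refine AddMonoidHom.ext fun x => ?_
    rw [map_one]
    exact one_mul x
  map_mul' a b := by
    refine AddMonoidHom.ext fun x => ?_
    rw [map_mul]
    exact mul_assoc _ _ x

/-- The Laurent polynomial `y - q(x)` in two variables. -/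
noncomputable def polQ (q : LaurentPolynomial ℤ) : Lau 2 :=
  MonoidAlgebra.single (Multiplicative.ofAdd ![0, 1]) 1 -
    MonoidAlgebra.ofCoeff (q.coeff.mapDomain fun a => Multiplicative.ofAdd ![a, 0])

/-- The group `G_q = ℤ[x, x⁻¹, 1/q] ⋊ ℤ²`; for `q = 1 + x` it is Baumslag's finitely presented
metabelian group. -/
abbrev GrpQ (q : LaurentPolynomial ℤ) : Type := SD (actQ q)

end Pool.Agent.LibND
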