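import Mathlib
import Pool.Agent.LibND.Defs

set_option autoImplicit false

/-! [ND N01] ONLY MATHLIB. A positive operator below a rank one projection plus `δ` is close to a
multiple of this projection.

PLAN. `e := rk ξ` (so `e η = ⟪ξ, η⟫ • ξ`), `Q := 1 - e`; `e` and `Q` are self-adjoint idempotents.
(1) `e * T * e = ⟪ξ, T ξ⟫ • e` (apply to a vector).
(2) `‖T‖ ≤ 1 + δ ≤ 2` (`0 ≤ T ≤ e + δ`, `‖e‖ ≤ 1`; `CStarAlgebra.norm_le_norm_of_nonneg_of_le`).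
(3) `‖T (Q η)‖ ^ 2 ≤ ‖T‖ * re ⟪T Q η, Q η⟫ ≤ 2 * re ⟪(e + δ) Q η, Q η⟫ = 2 * δ * ‖Q η‖ ^ 2`
    (first step: Cauchy-Schwarz for the positive form of `T`, i.e. `T * T ≤ ‖T‖ • T`).
    So `‖T * Q‖ ≤ √(2 δ)` and `‖Q * T‖ = ‖star (T * Q)‖ ≤ √(2 δ)`.
(4) `T - e T e = T Q + Q T e`, norm `≤ 2 √(2 δ) ≤ 3 √δ`. -/

namespace Pool.Agent.LibND

open scoped ComplexOrder

private lemma rk_apply {H : Type*} [NormedAddCommGroup H] [InnerProductSpace ℂ H]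
    (ξ η : H) : rk ξ η = inner ℂ ξ η • ξ := by
  simp [rk]

private lemma sqrt_facts {H : Type*} [NormedAddCommGroup H] [InnerProductSpace ℂ H]
    [CompleteSpace H] (T : H →L[ℂ] H) (hT : 0 ≤ T) :
    ∃ S : H →L[ℂ] H, (∀ x, S (S x) = T x) ∧ ∀ x, ‖S x‖ ^ 2 = (inner ℂ (T x) x).re := by
  refine ⟨CFC.sqrt T, ?_, ?_⟩
  · intro x
    have h := CFC.sqrt_mul_sqrt_self T hT
    have := congrArg (fun A : H →L[ℂ] H => A x) h
    simpa using this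
  · intro x
    have h := CFC.sqrt_mul_sqrt_self T hT
    have hx := congrArg (fun A : H →L[ℂ] H => A x) h
    have hx' : (CFC.sqrt T) ((CFC.sqrt T) x) = T x := by simpa using hx
    have hsa : IsSelfAdjoint (CFC.sqrt T) := (CFC.sqrt_nonneg T).isSelfAdjoint
    have hsym := (ContinuousLinearMap.isSelfAdjoint_iff_isSymmetric.mp hsa) (CFC.sqrt T x) x
    have e1 : inner ℂ (T x) x = inner ℂ (CFC.sqrt T x) (CFC.sqrt T x) := by
      rw [← hx']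
      exact hsym
    rw [e1, inner_self_eq_norm_sq_to_K]
    norm_cast

theorem N01 {H : Type*} [NormedAddCommGroup H] [InnerProductSpace ℂ H] [CompleteSpace H]
    (ξ : H) (hξ : ‖ξ‖ = 1) (T : H →L[ℂ] H) (hT : 0 ≤ T) (δ : ℝ) (hδ : 0 ≤ δ) (hδ1 : δ ≤ 1)
    (hle : T ≤ rk ξ + (δ : ℂ) • (1 : H →L[ℂ] H)) :
    ‖T - (inner ℂ ξ (T ξ)) • rk ξ‖ ≤ 3 * √δ := by
  obtain ⟨S, hSS, hS⟩ := sqrt_facts T hT
  have hTpos : T.IsPositive := (ContinuousLinearMap.nonneg_iff_isPositive T).mp hT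
  have hTsym : ∀ x y, inner ℂ (T x) y = inner ℂ x (T y) := hTpos.isSelfAdjoint.isSymmetric
  -- the quadratic form
  have hq : ∀ x, ‖S x‖ ^ 2 ≤ ‖inner ℂ ξ x‖ ^ 2 + δ * ‖x‖ ^ 2 := by
    intro x
    rw [hS x]
    have h1 : (rk ξ + (δ : ℂ) • (1 : H →L[ℂ] H) - T).IsPositive := by
      rw [← ContinuousLinearMap.nonneg_iff_isPositive]
      exact sub_nonneg.mpr hle
    have h2 := h1.re_inner_nonneg_left x
    have h3 : (inner ℂ ((rk ξ + (δ : ℂ) • (1 : H →L[ℂ] H) - T) x) x) =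
        (starRingEnd ℂ (inner ℂ ξ x)) * inner ℂ ξ x + δ * (inner ℂ x x) - inner ℂ (T x) x := by
      simp only [_root_.sub_apply, _root_.add_apply,
        _root_.smul_apply, one_apply_eq_self, rk_apply,
        inner_sub_left, inner_add_left, inner_smul_left, Complex.conj_ofReal]
    rw [h3] at h2
    have h4 : (starRingEnd ℂ (inner ℂ ξ x)) * inner ℂ ξ x = ((‖inner ℂ ξ x‖ ^ 2 : ℝ) : ℂ) := by
      rw [mul_comm, Complex.mul_conj, Complex.normSq_eq_norm_sq]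
    have h5 : inner ℂ x x = ((‖x‖ ^ 2 : ℝ) : ℂ) := by
      rw [inner_self_eq_norm_sq_to_K]; norm_cast
    rw [h4, h5] at h2
    have h6 : (((‖inner ℂ ξ x‖ ^ 2 : ℝ) : ℂ) + (δ : ℂ) * ((‖x‖ ^ 2 : ℝ) : ℂ) - inner ℂ (T x) x).re
        = ‖inner ℂ ξ x‖ ^ 2 + δ * ‖x‖ ^ 2 - (inner ℂ (T x) x).re := by
      simp [← Complex.ofReal_mul, ← Complex.ofReal_pow]
    have h7 : RCLike.re (((‖inner ℂ ξ x‖ ^ 2 : ℝ) : ℂ) + (δ : ℂ) * ((‖x‖ ^ 2 : ℝ) : ℂ)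
        - inner ℂ (T x) x) = ‖inner ℂ ξ x‖ ^ 2 + δ * ‖x‖ ^ 2 - (inner ℂ (T x) x).re := h6
    rw [h7] at h2
    linarith
  -- `‖S x‖ ≤ √2 ‖x‖`
  have hS2 : ∀ x, ‖S x‖ ≤ √2 * ‖x‖ := by
    intro x
    have h1 : ‖inner ℂ ξ x‖ ≤ ‖x‖ := by
      have := norm_inner_le_norm (𝕜 := ℂ) ξ x
      rwa [hξ, one_mul] at this
    have h2 : ‖inner ℂ ξ x‖ ^ 2 ≤ ‖x‖ ^ 2 := by gcongr
    have h3 : δ * ‖x‖ ^ 2 ≤ ‖x‖ ^ 2 := by nlinarith [sq_nonneg ‖x‖]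
    have h4 := hq x
    have h5 : ‖S x‖ ^ 2 ≤ (√2 * ‖x‖) ^ 2 := by
      rw [mul_pow, Real.sq_sqrt (by norm_num)]
      linarith
    exact (sq_le_sq₀ (norm_nonneg _) (by positivity)).mp h5
  -- vectors orthogonal to `ξ`
  have hperp : ∀ x, inner ℂ ξ x = 0 → ‖T x‖ ≤ √2 * √δ * ‖x‖ := by
    intro x hx
    have h1 := hq x
    rw [hx, norm_zero] at h1
    have h2 : ‖S x‖ ^ 2 ≤ (√δ * ‖x‖) ^ 2 := by
      rw [mul_pow, Real.sq_sqrt hδ]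
      linarith
    have h3 : ‖S x‖ ≤ √δ * ‖x‖ := (sq_le_sq₀ (norm_nonneg _) (by positivity)).mp h2
    calc ‖T x‖ = ‖S (S x)‖ := by rw [hSS]
      _ ≤ √2 * ‖S x‖ := hS2 _
      _ ≤ √2 * (√δ * ‖x‖) := by gcongr
      _ = √2 * √δ * ‖x‖ := by ring
  have hξξ : inner ℂ ξ ξ = (1 : ℂ) := by
    rw [inner_self_eq_norm_sq_to_K, hξ]; norm_num
  -- `Q T ξ`
  set w : H := T ξ - (inner ℂ ξ (T ξ)) • ξ with hw
  have hwξ : inner ℂ ξ w = 0 := by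
    rw [hw, inner_sub_right, inner_smul_right, hξξ, mul_one, sub_self]
  have hwn : ‖w‖ ≤ √2 * √δ := by
    have h1 : inner ℂ w w = inner ℂ (T w) ξ := by
      rw [hTsym w ξ]
      conv_lhs => rw [hw]
      rw [← hw]
      have h2 : inner ℂ w (T ξ) = inner ℂ w (T ξ - (inner ℂ ξ (T ξ)) • ξ) := by
        rw [inner_sub_right, inner_smul_right]
        have h3 : inner ℂ w ξ = (0 : ℂ) := by
          rw [← inner_conj_symm, hwξ, map_zero]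
        rw [h3, mul_zero, sub_zero]
      rw [h2]
    have h4 : ‖w‖ ^ 2 ≤ √2 * √δ * ‖w‖ := by
      have h5 : ‖w‖ ^ 2 = ‖(inner ℂ w w : ℂ)‖ := by
        rw [inner_self_eq_norm_sq_to_K]
        simp
      rw [h5, h1]
      calc ‖inner ℂ (T w) ξ‖ ≤ ‖T w‖ * ‖ξ‖ := norm_inner_le_norm _ _
        _ = ‖T w‖ := by rw [hξ, mul_one]
        _ ≤ √2 * √δ * ‖w‖ := hperp w hwξ
    rcases (norm_nonneg w).eq_or_lt with h | h
    · rw [← h]; positivity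
    · have : ‖w‖ * ‖w‖ ≤ √2 * √δ * ‖w‖ := by rw [← sq]; exact h4
      exact le_of_mul_le_mul_right this h
  refine ContinuousLinearMap.opNorm_le_bound _ (by positivity) fun η => ?_
  set c : ℂ := inner ℂ ξ η with hc
  set η' : H := η - c • ξ with hη'
  have hη'ξ : inner ℂ ξ η' = 0 := by
    rw [hη', inner_sub_right, inner_smul_right, hξξ, mul_one, sub_self]
  have hηdec : η = c • ξ + η' := by rw [hη']; abel
  have hnorm : ‖η‖ ^ 2 = ‖c‖ ^ 2 + ‖η'‖ ^ 2 := by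
    have h1 : inner ℂ (c • ξ) η' = (0 : ℂ) := by
      rw [inner_smul_left, hη'ξ, mul_zero]
    have h2 := norm_add_sq_eq_norm_sq_add_norm_sq_of_inner_eq_zero (𝕜 := ℂ) (c • ξ) η' h1
    rw [← hηdec] at h2
    rw [sq, h2, norm_smul, hξ, mul_one]
    ring
  have hval : (T - (inner ℂ ξ (T ξ)) • rk ξ) η = c • w + T η' := by
    have h1 : T η = c • T ξ + T η' := by
      conv_lhs => rw [hηdec]
      rw [map_add, map_smul]
    have h2 : (T - (inner ℂ ξ (T ξ)) • rk ξ) η = T η - (inner ℂ ξ (T ξ)) • (inner ℂ ξ η • ξ) := by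
      simp [rk_apply]
    rw [h2, h1, hw, ← hc]
    module
  rw [hval]
  have hsum : ‖c‖ + ‖η'‖ ≤ √2 * ‖η‖ := by
    have h1 : (‖c‖ + ‖η'‖) ^ 2 ≤ (√2 * ‖η‖) ^ 2 := by
      rw [mul_pow, Real.sq_sqrt (by norm_num), hnorm]
      nlinarith [sq_nonneg (‖c‖ - ‖η'‖)]
    exact (sq_le_sq₀ (by positivity) (by positivity)).mp h1
  have h22 : √2 * √2 = 2 := Real.mul_self_sqrt (by norm_num)
  calc ‖c • w + T η'‖ ≤ ‖c • w‖ + ‖T η'‖ := norm_add_le _ _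
    _ ≤ ‖c‖ * (√2 * √δ) + √2 * √δ * ‖η'‖ := by
        rw [norm_smul]
        exact add_le_add (mul_le_mul_of_nonneg_left hwn (norm_nonneg _)) (hperp η' hη'ξ)
    _ = √2 * √δ * (‖c‖ + ‖η'‖) := by ring
    _ ≤ √2 * √δ * (√2 * ‖η‖) := by gcongr
    _ = 2 * √δ * ‖η‖ := by linear_combination √δ * ‖η‖ * h22
    _ ≤ 3 * √δ * ‖η‖ := by
        have : 0 ≤ √δ * ‖η‖ := by positivity
        nlinarith

end Pool.Agent.LibND
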