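import Mathlib
import Pool.Agent.LibND.N01

set_option autoImplicit false

/-! [ND N02] Two orthogonal positive operators whose sum is below a rank one projection plus `δ`:
one of the two diagonal coefficients is small.

PLAN. `e := rk ξ`, `gᵢ := ⟪ξ, Tᵢ ξ⟫` (real, `0 ≤ gᵢ ≤ 1 + δ ≤ 2`). `Tᵢ ≤ T₁ + T₂ ≤ e + δ`, so N01
gives `‖Tᵢ - gᵢ • e‖ ≤ 3 √δ`; `‖Tᵢ‖ ≤ 1 + δ ≤ 2`, `‖gᵢ • e‖ ≤ 2`. As `T₁ * T₂ = 0`,
`g₁ g₂ • e = (g₁ • e) * (g₂ • e) - T₁ * T₂ = (g₁ • e - T₁) * (g₂ • e) + T₁ * (g₂ • e - T₂)`,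
so `g₁ g₂ = ‖g₁ g₂ • e‖ ≤ 3 √δ * 2 + 2 * 3 √δ = 12 √δ` (`‖e‖ = 1` as `e ξ = ξ`). -/

namespace Pool.Agent.LibND

open scoped ComplexOrder

private theorem n02_rk_apply {H : Type*} [NormedAddCommGroup H] [InnerProductSpace ℂ H]
    (ξ η : H) : rk ξ η = (inner ℂ ξ η) • ξ := by
  simp [rk, ContinuousLinearMap.smulRight_apply, innerSL_apply_apply]

private theorem n02_rk_self {H : Type*} [NormedAddCommGroup H] [InnerProductSpace ℂ H]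
    (ξ : H) (hξ : ‖ξ‖ = 1) : rk ξ ξ = ξ := by
  rw [n02_rk_apply, inner_self_eq_norm_sq_to_K, hξ]
  simp

private theorem n02_rk_mul {H : Type*} [NormedAddCommGroup H] [InnerProductSpace ℂ H]
    (ξ : H) (hξ : ‖ξ‖ = 1) : rk ξ * rk ξ = rk ξ := by
  ext η
  change rk ξ (rk ξ η) = rk ξ η
  rw [n02_rk_apply ξ η, map_smul, n02_rk_self ξ hξ]

private theorem n02_rk_norm {H : Type*} [NormedAddCommGroup H] [InnerProductSpace ℂ H]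
    (ξ : H) (hξ : ‖ξ‖ = 1) : ‖rk ξ‖ ≤ 1 := by
  refine ContinuousLinearMap.opNorm_le_bound _ zero_le_one fun η => ?_
  rw [n02_rk_apply, norm_smul, hξ, mul_one, one_mul]
  calc ‖inner ℂ ξ η‖ ≤ ‖ξ‖ * ‖η‖ := norm_inner_le_norm ξ η
    _ = ‖η‖ := by rw [hξ, one_mul]

private theorem n02_le_norm {H : Type*} [NormedAddCommGroup H] [InnerProductSpace ℂ H]
    [CompleteSpace H]
    (ξ : H) (hξ : ‖ξ‖ = 1) (T : H →L[ℂ] H) (hT : 0 ≤ T) (δ : ℝ) (hδ : 0 ≤ δ) (hδ1 : δ ≤ 1)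
    (hle : T ≤ rk ξ + (δ : ℂ) • (1 : H →L[ℂ] H)) : ‖T‖ ≤ 2 := by
  have h := CStarAlgebra.norm_le_norm_of_nonneg_of_le hT hle
  refine h.trans ((norm_add_le _ _).trans ?_)
  have h1 : ‖(δ : ℂ) • (1 : H →L[ℂ] H)‖ ≤ 1 := by
    rw [norm_smul, Complex.norm_real, Real.norm_eq_abs, abs_of_nonneg hδ]
    have : ‖(1 : H →L[ℂ] H)‖ ≤ 1 := ContinuousLinearMap.norm_id_le
    nlinarith [norm_nonneg (1 : H →L[ℂ] H)]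
  linarith [n02_rk_norm ξ hξ]

private theorem n02_pos {H : Type*} [NormedAddCommGroup H] [InnerProductSpace ℂ H]
    [CompleteSpace H] (ξ : H) (T : H →L[ℂ] H) (hT : 0 ≤ T) :
    inner ℂ ξ (T ξ) = (((inner ℂ ξ (T ξ)).re : ℝ) : ℂ) ∧ 0 ≤ (inner ℂ ξ (T ξ)).re := by
  have hp := (ContinuousLinearMap.nonneg_iff_isPositive T).1 hT
  have h0 : 0 ≤ inner ℂ ξ (T ξ) := hp.inner_nonneg_right ξ
  rw [Complex.le_def] at h0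
  refine ⟨?_, h0.1⟩
  apply Complex.ext
  · simp
  · simpa using h0.2.symm

theorem N02 {H : Type*} [NormedAddCommGroup H] [InnerProductSpace ℂ H] [CompleteSpace H]
    (ξ : H) (hξ : ‖ξ‖ = 1) (T₁ T₂ : H →L[ℂ] H) (h1 : 0 ≤ T₁) (h2 : 0 ≤ T₂) (h12 : T₁ * T₂ = 0)
    (δ : ℝ) (hδ : 0 ≤ δ) (hδ1 : δ ≤ 1)
    (hle : T₁ + T₂ ≤ rk ξ + (δ : ℂ) • (1 : H →L[ℂ] H)) :
    (inner ℂ ξ (T₁ ξ)).re * (inner ℂ ξ (T₂ ξ)).re ≤ 12 * √δ := by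
  have hle1 : T₁ ≤ rk ξ + (δ : ℂ) • (1 : H →L[ℂ] H) := (le_add_of_nonneg_right h2).trans hle
  have hle2 : T₂ ≤ rk ξ + (δ : ℂ) • (1 : H →L[ℂ] H) := (le_add_of_nonneg_left h1).trans hle
  obtain ⟨e1, p1⟩ := n02_pos ξ T₁ h1
  obtain ⟨e2, p2⟩ := n02_pos ξ T₂ h2
  have n1 := N01 ξ hξ T₁ h1 δ hδ hδ1 hle1
  have n2 := N01 ξ hξ T₂ h2 δ hδ hδ1 hle2
  rw [e1] at n1
  rw [e2] at n2
  have t1 := n02_le_norm ξ hξ T₁ h1 δ hδ hδ1 hle1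
  have t2 := n02_le_norm ξ hξ T₂ h2 δ hδ hδ1 hle2
  set g1 : ℝ := (inner ℂ ξ (T₁ ξ)).re with hg1
  set g2 : ℝ := (inner ℂ ξ (T₂ ξ)).re with hg2
  have hg2le : g2 ≤ 2 := by
    have h3 : |g2| ≤ ‖inner ℂ ξ (T₂ ξ)‖ := Complex.abs_re_le_norm _
    have h4 : ‖inner ℂ ξ (T₂ ξ)‖ ≤ ‖ξ‖ * ‖T₂ ξ‖ := norm_inner_le_norm _ _
    have h5 : ‖T₂ ξ‖ ≤ ‖T₂‖ * ‖ξ‖ := T₂.le_opNorm ξ
    rw [hξ] at h4 h5
    linarith [le_abs_self g2]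
  have key : (((g1 * g2 : ℝ) : ℂ)) • rk ξ
      = ((g1 : ℂ) • rk ξ - T₁) * ((g2 : ℂ) • rk ξ) + T₁ * ((g2 : ℂ) • rk ξ - T₂) := by
    rw [sub_mul, mul_sub, h12, smul_mul_smul_comm, n02_rk_mul ξ hξ]
    push_cast
    abel
  have hval : (((g1 * g2 : ℝ) : ℂ) • rk ξ) ξ = ((g1 * g2 : ℝ) : ℂ) • ξ := by
    change ((g1 * g2 : ℝ) : ℂ) • (rk ξ ξ) = _
    rw [n02_rk_self ξ hξ]
  have hn : g1 * g2 = ‖(((g1 * g2 : ℝ) : ℂ) • rk ξ) ξ‖ := by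
    rw [hval, norm_smul, hξ, mul_one, Complex.norm_real, Real.norm_eq_abs,
      abs_of_nonneg (mul_nonneg p1 p2)]
  have hop : ‖(((g1 * g2 : ℝ) : ℂ) • rk ξ) ξ‖ ≤ ‖((g1 * g2 : ℝ) : ℂ) • rk ξ‖ := by
    have := (((g1 * g2 : ℝ) : ℂ) • rk ξ).le_opNorm ξ
    rwa [hξ, mul_one] at this
  rw [key] at hop
  have hb1 : ‖((g1 : ℂ) • rk ξ - T₁) * ((g2 : ℂ) • rk ξ)‖ ≤ 3 * √δ * 2 := by
    refine (norm_mul_le _ _).trans ?_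
    have ha : ‖(g1 : ℂ) • rk ξ - T₁‖ ≤ 3 * √δ := by rw [norm_sub_rev]; exact n1
    have hb : ‖(g2 : ℂ) • rk ξ‖ ≤ 2 := by
      rw [norm_smul, Complex.norm_real, Real.norm_eq_abs, abs_of_nonneg p2]
      nlinarith [n02_rk_norm ξ hξ, norm_nonneg (rk ξ)]
    exact mul_le_mul ha hb (norm_nonneg _) (by positivity)
  have hb2 : ‖T₁ * ((g2 : ℂ) • rk ξ - T₂)‖ ≤ 2 * (3 * √δ) := by
    refine (norm_mul_le _ _).trans ?_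
    have ha : ‖(g2 : ℂ) • rk ξ - T₂‖ ≤ 3 * √δ := by rw [norm_sub_rev]; exact n2
    exact mul_le_mul t1 ha (norm_nonneg _) (by positivity)
  have hfin := (norm_add_le (((g1 : ℂ) • rk ξ - T₁) * ((g2 : ℂ) • rk ξ))
    (T₁ * ((g2 : ℂ) • rk ξ - T₂))).trans (add_le_add hb1 hb2)
  rw [← key] at hfin hop
  linarith [hn, hop, hfin]

end Pool.Agent.LibND
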