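import Mathlib

set_option autoImplicit false

/-! A finite family of nonnegative reals which cannot be cut into two large parts has a large
member. -/

namespace Pool.Agent.LibND

theorem N03 {ι : Type*} [Fintype ι] [DecidableEq ι] (g : ι → ℝ) (hg : ∀ i, 0 ≤ g i) (G δ : ℝ)
    (hG : ∑ i, g i = G) (hG0 : 0 < G)
    (hJ : ∀ J : Finset ι, (∑ i ∈ J, g i) * (∑ i ∈ Jᶜ, g i) ≤ δ) (hδ : 16 * δ < 3 * G ^ 2) :
    ∃ i, G / 2 ≤ g i := by
  by_contra hcon
  push Not at hcon
  have key : ∀ s : Finset ι, ∑ i ∈ s, g i < G / 4 ∨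
      ∃ J : Finset ι, G / 4 ≤ ∑ i ∈ J, g i ∧ ∑ i ∈ J, g i < 3 * G / 4 := by
    intro s
    induction s using Finset.induction_on with
    | empty => left; simpa using by positivity
    | insert i s hi ih =>
      rcases ih with h | h
      · rcases lt_or_ge (∑ i ∈ insert i s, g i) (G / 4) with h' | h'
        · exact Or.inl h'
        · refine Or.inr ⟨insert i s, h', ?_⟩
          rw [Finset.sum_insert hi]
          linarith [hcon i]
      · exact Or.inr h
  rcases key Finset.univ with h | ⟨J, h1, h2⟩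
  · rw [hG] at h
    linarith
  · have h3 : ∑ i ∈ Jᶜ, g i = G - ∑ i ∈ J, g i := by
      rw [← hG, ← Finset.sum_add_sum_compl J g]
      ring
    have h4 := hJ J
    rw [h3] at h4
    nlinarith [mul_nonneg (sub_nonneg.2 h1) (sub_nonneg.2 h2.le)]

end Pool.Agent.LibND
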