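import Mathlib
import Pool.Agent.LibND.Defs

set_option autoImplicit false

/-! [ND N04] ONLY MATHLIB. Rotation trick: an order zero map on `M_r(ℂ)` has the same norm on all
rank one projections (here: on two orthogonal ones).

PLAN. For unit vectors put `q v := v v*` (`Matrix.vecMulVec v (star v)`, seen in `CStarMatrix`).
`q v` is positive (`= star x * x` with `x = q v`), `q v * q v' = 0` if `star v ⬝ v' = 0`.
Let `a := φ (q v)`, `c := φ (q w)`, `u := v w* + w v*`, `d := φ u`. `a, c, d` are self-adjoint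
(`φ` is positive, so it commutes with `star`; or: `u` is a real combination of positive elements:
`u = q (v + w) - q v - q w`, so `d = φ (q (v+w)) - a - c` is self-adjoint).
For real `C, S` with `C² + S² = 1` the vectors `C v + S w` and `-S v + C w` are orthonormal, and
`q (C v + S w) = C² q v + S² q w + C S u`, `q (-S v + C w) = S² q v + C² q w - C S u`.
Order zero: the product of their images is `0`; also `a * c = 0 = c * a`. Expanding:
`C²S² (a² + c² - d²) + C S (-C² a d + S² d a - S² c d + C² d c) = 0`.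
With `(C, S)` and `(C, -S)`: both brackets vanish when `C S ≠ 0`: `d² = a² + c²` and
`C² (d c - a d) + S² (d a - c d) = 0` for all such `C, S`, so (two choices, e.g. `(C,S) = (3/5,4/5)`
and `(4/5,3/5)`) `a d = d c` and `d a = c d`.
Then `a ^ 4 = a d² a` (as `a c = 0`) `= (a d) (d a) = d c² d`, so
`‖a‖ ^ 4 = ‖a ^ 4‖ = ‖star (c d) * (c d)‖ = ‖c d * star (c d)‖ = ‖c d² c‖ = ‖c ^ 4‖ = ‖c‖ ^ 4`. -/

namespace Pool.Agent.LibND

open scoped ComplexOrder

private noncomputable def N04_q {r : ℕ} (v : Fin r → ℂ) : CStarMatrix (Fin r) (Fin r) ℂ :=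
  CStarMatrix.ofMatrix (Matrix.vecMulVec v (star v))

private theorem N04_q_apply {r : ℕ} (v : Fin r → ℂ) (i j : Fin r) :
    N04_q v i j = v i * star (v j) := rfl

private theorem N04_q_mul {r : ℕ} (v w : Fin r → ℂ) (i j : Fin r) :
    (N04_q v * N04_q w) i j = v i * (∑ k, star (v k) * w k) * star (w j) := by
  rw [CStarMatrix.mul_apply, Finset.mul_sum, Finset.sum_mul]
  refine Finset.sum_congr rfl fun k _ => ?_
  rw [N04_q_apply, N04_q_apply]
  ring

private theorem N04_q_mul_zero {r : ℕ} (v w : Fin r → ℂ) (h : ∑ k, star (v k) * w k = 0) :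
    N04_q v * N04_q w = 0 := by
  ext i j
  rw [N04_q_mul, h]
  simp

private theorem N04_star_q {r : ℕ} (v : Fin r → ℂ) : star (N04_q v) = N04_q v := by
  ext i j
  rw [CStarMatrix.star_apply, N04_q_apply, N04_q_apply, star_mul, star_star]

private theorem N04_q_nonneg {r : ℕ} (v : Fin r → ℂ) (s : ℝ) (hs : 0 < s)
    (h : ∑ k, star (v k) * v k = (s : ℂ)) : 0 ≤ N04_q v := by
  have hss : Real.sqrt s * Real.sqrt s = s := Real.mul_self_sqrt hs.le
  have hs0 : Real.sqrt s ≠ 0 := (Real.sqrt_pos.2 hs).ne'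
  have key : N04_q v = star ((((Real.sqrt s)⁻¹ : ℝ) : ℂ) • N04_q v) *
      ((((Real.sqrt s)⁻¹ : ℝ) : ℂ) • N04_q v) := by
    rw [star_smul, N04_star_q, smul_mul_smul_comm]
    ext i j
    rw [CStarMatrix.smul_apply, N04_q_mul, h, N04_q_apply]
    have h1 : star (((Real.sqrt s)⁻¹ : ℝ) : ℂ) = (((Real.sqrt s)⁻¹ : ℝ) : ℂ) := by
      exact Complex.conj_ofReal _
    rw [h1, smul_eq_mul]
    have h2 : (((Real.sqrt s)⁻¹ : ℝ) : ℂ) * (((Real.sqrt s)⁻¹ : ℝ) : ℂ) * (s : ℂ) = 1 := by
      rw [← Complex.ofReal_mul, ← Complex.ofReal_mul, ← Complex.ofReal_one]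
      congr 1
      field_simp
      nlinarith [hss]
    linear_combination (-(v i * star (v j))) * h2
  rw [key]
  exact star_mul_self_nonneg _

theorem N04 {r : ℕ} {B : Type*} [CStarAlgebra B] [PartialOrder B] [StarOrderedRing B]
    (φ : CStarMatrix (Fin r) (Fin r) ℂ →ₗ[ℂ] B) (hpos : ∀ x, 0 ≤ x → 0 ≤ φ x)
    (hoz : ∀ a b, 0 ≤ a → 0 ≤ b → a * b = 0 → φ a * φ b = 0)
    (v w : Fin r → ℂ) (hv : ∑ i, star (v i) * v i = 1) (hw : ∑ i, star (w i) * w i = 1)
    (hvw : ∑ i, star (v i) * w i = 0) :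
    ‖φ (CStarMatrix.ofMatrix (Matrix.vecMulVec v (star v)))‖ =
      ‖φ (CStarMatrix.ofMatrix (Matrix.vecMulVec w (star w)))‖ := by
  change ‖φ (N04_q v)‖ = ‖φ (N04_q w)‖
  have hwv : ∑ i, star (w i) * v i = 0 := by
    have h : star (∑ i, star (v i) * w i) = 0 := by rw [hvw, star_zero]
    rw [star_sum] at h
    rw [← h]
    refine Finset.sum_congr rfl fun i _ => ?_
    rw [star_mul, star_star]
  -- the inner product of two real combinations
  have hin : ∀ x y z t : ℝ, ∑ i, star ((x : ℂ) * v i + (y : ℂ) * w i) *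
      ((z : ℂ) * v i + (t : ℂ) * w i) = ((x * z + y * t : ℝ) : ℂ) := by
    intro x y z t
    have hx : ∀ x : ℝ, star (x : ℂ) = (x : ℂ) := fun x => Complex.conj_ofReal x
    have : ∀ i, star ((x : ℂ) * v i + (y : ℂ) * w i) * ((z : ℂ) * v i + (t : ℂ) * w i) =
        (x * z : ℂ) * (star (v i) * v i) + (x * t : ℂ) * (star (v i) * w i) +
          (y * z : ℂ) * (star (w i) * v i) + (y * t : ℂ) * (star (w i) * w i) := by
      intro i
      rw [star_add, star_mul, star_mul, hx, hx]
      ring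
    simp_rw [this]
    rw [Finset.sum_add_distrib, Finset.sum_add_distrib, Finset.sum_add_distrib,
      ← Finset.mul_sum, ← Finset.mul_sum, ← Finset.mul_sum, ← Finset.mul_sum, hv, hw, hvw, hwv]
    push_cast
    ring
  set u : CStarMatrix (Fin r) (Fin r) ℂ := N04_q (fun i => v i + w i) - N04_q v - N04_q w with hu
  have hq : ∀ x y : ℝ, N04_q (fun i => (x : ℂ) * v i + (y : ℂ) * w i) =
      ((x * x : ℝ) : ℂ) • N04_q v + ((y * y : ℝ) : ℂ) • N04_q w + ((x * y : ℝ) : ℂ) • u := by
    intro x y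
    have hx : ∀ x : ℝ, star (x : ℂ) = (x : ℂ) := fun x => Complex.conj_ofReal x
    ext i j
    simp only [hu, CStarMatrix.add_apply, CStarMatrix.smul_apply, CStarMatrix.sub_apply,
      N04_q_apply, smul_eq_mul]
    rw [star_add, star_mul, star_mul, hx, hx, star_add]
    push_cast
    ring
  have hqv : 0 ≤ N04_q v := N04_q_nonneg v 1 one_pos (by rw [hv]; simp)
  have hqw : 0 ≤ N04_q w := N04_q_nonneg w 1 one_pos (by rw [hw]; simp)
  have hqvw : 0 ≤ N04_q (fun i => v i + w i) := by
    refine N04_q_nonneg _ 2 two_pos ?_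
    have := hin 1 1 1 1
    simp only [Complex.ofReal_one, one_mul] at this
    rw [this]
    norm_num
  set a := φ (N04_q v) with ha
  set c := φ (N04_q w) with hc
  set d := φ u with hd
  have hasa : star a = a := (IsSelfAdjoint.of_nonneg (hpos _ hqv)).star_eq
  have hcsa : star c = c := (IsSelfAdjoint.of_nonneg (hpos _ hqw)).star_eq
  have hdsa : star d = d := by
    have h1 : d = φ (N04_q (fun i => v i + w i)) - a - c := by
      rw [hd, hu, map_sub, map_sub]
    rw [h1, star_sub, star_sub, hasa, hcsa,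
      (IsSelfAdjoint.of_nonneg (hpos _ hqvw)).star_eq]
  have hac : a * c = 0 := hoz _ _ hqv hqw (N04_q_mul_zero _ _ hvw)
  have hca : c * a = 0 := hoz _ _ hqw hqv (N04_q_mul_zero _ _ hwv)
  -- the rotation relation
  have hrot : ∀ x y : ℝ, 0 < x * x + y * y →
      (((x * x : ℝ) : ℂ) • a + ((y * y : ℝ) : ℂ) • c + ((x * y : ℝ) : ℂ) • d) *
      (((y * y : ℝ) : ℂ) • a + ((x * x : ℝ) : ℂ) • c - ((x * y : ℝ) : ℂ) • d) = 0 := by
    intro x y hxy
    have h1 := hoz (N04_q (fun i => (x : ℂ) * v i + (y : ℂ) * w i))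
      (N04_q (fun i => ((-y : ℝ) : ℂ) * v i + (x : ℂ) * w i))
      (N04_q_nonneg _ (x * x + y * y) hxy (hin x y x y))
      (N04_q_nonneg _ (x * x + y * y) hxy (by
        rw [hin (-y) x (-y) x]
        congr 1
        ring))
      (N04_q_mul_zero _ _ (by
        rw [hin x y (-y) x]
        rw [show x * -y + y * x = 0 by ring]
        simp))
    rw [hq x y, hq (-y) x, map_add, map_add, map_add, map_add, map_smul, map_smul, map_smul,
      map_smul, map_smul, map_smul, ← ha, ← hc, ← hd] at h1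
    rw [← h1]
    congr 1
    rw [show -y * -y = y * y by ring, show -y * x = -(x * y) by ring, Complex.ofReal_neg,
      neg_smul, sub_eq_add_neg]
  have e1 := hrot 3 4 (by norm_num)
  have e2 := hrot 3 (-4) (by norm_num)
  have e3 := hrot 4 3 (by norm_num)
  simp only [add_mul, mul_add, mul_sub, smul_mul_assoc, mul_smul_comm,
    hac, hca, smul_zero, add_zero, zero_add] at e1 e2 e3
  push_cast at e1 e2 e3
  have hdd : d * d = a * a + c * c := by
    linear_combination (norm := module) (-1 / 288 : ℂ) • e1 + (-1 / 288 : ℂ) • e2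
  have f1 : (9 : ℂ) • (d * c - a * d) + (16 : ℂ) • (d * a - c * d) = 0 := by
    linear_combination (norm := module) (1 / 24 : ℂ) • e1 - (1 / 24 : ℂ) • e2
  have f2 : (16 : ℂ) • (d * c - a * d) + (9 : ℂ) • (d * a - c * d) = 0 := by
    linear_combination (norm := module) (1 / 12 : ℂ) • e3 + (12 : ℂ) • hdd
  have hdc : a * d = d * c := by
    linear_combination (norm := module) (9 / 175 : ℂ) • f1 - (16 / 175 : ℂ) • f2
  have hda : d * a = c * d := by
    linear_combination (norm := module) (16 / 175 : ℂ) • f1 - (9 / 175 : ℂ) • f2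
  have hA : ‖(a * a) * (a * a)‖ = ‖a‖ ^ 4 := by
    have haa : IsSelfAdjoint (a * a) := by
      rw [isSelfAdjoint_iff, star_mul, hasa]
    rw [haa.norm_mul_self, (isSelfAdjoint_iff.2 hasa).norm_mul_self]
    ring
  have hC : ‖(c * c) * (c * c)‖ = ‖c‖ ^ 4 := by
    have hcc : IsSelfAdjoint (c * c) := by
      rw [isSelfAdjoint_iff, star_mul, hcsa]
    rw [hcc.norm_mul_self, (isSelfAdjoint_iff.2 hcsa).norm_mul_self]
    ring
  have hs : star (c * d) = d * c := by rw [star_mul, hdsa, hcsa]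
  have h1 : (a * a) * (a * a) = star (c * d) * (c * d) := by
    calc (a * a) * (a * a) = a * (d * d) * a - (a * c) * (c * a) := by
          rw [hdd]; noncomm_ring
      _ = (a * d) * (d * a) := by rw [hac, zero_mul, sub_zero]; noncomm_ring
      _ = star (c * d) * (c * d) := by rw [hdc, hda, hs]
  have h2 : (c * c) * (c * c) = (c * d) * star (c * d) := by
    calc (c * c) * (c * c) = c * (d * d) * c - (c * a) * (a * c) := by
          rw [hdd]; noncomm_ring
      _ = (c * d) * star (c * d) := by rw [hac, mul_zero, sub_zero, hs]; noncomm_ring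
  have h3 : ‖a‖ ^ 4 = ‖c‖ ^ 4 := by
    rw [← hA, ← hC, h1, h2, CStarRing.norm_star_mul_self, CStarRing.norm_self_mul_star]
  exact (pow_left_inj₀ (norm_nonneg _) (norm_nonneg _) (by norm_num)).1 h3

end Pool.Agent.LibND
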