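import Mathlib
import Pool.Agent.LibND.N04

set_option autoImplicit false

/-! [ND N05] An order zero map `φ` on `M_r(ℂ)` satisfies `‖φ c‖ = ‖c‖ * ‖φ 1‖` for `c ≥ 0`.

PLAN. `≤`: `0 ≤ c ≤ ‖c‖ • 1`, apply `φ` (positive linear), `CStarAlgebra.norm_le_norm_of_nonneg_of_le`.
`≥`: (`r = 0`: everything is `0`.) Let `v₁, ..., v_r` be an orthonormal basis of eigenvectors of `c`
(`Matrix.IsHermitian.eigenvectorBasis`), with eigenvalues `λᵢ ≥ 0`, `qᵢ = vᵢ vᵢ*`, so
`c = ∑ λᵢ qᵢ`, `1 = ∑ qᵢ`, and some `λ_m = ‖c‖` (or: `‖c‖ ≤ max λᵢ`, as `c ≤ (max λᵢ) • 1`).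
By N04 all `‖φ qᵢ‖` are equal, say to `t`. The `φ qᵢ` are positive and pairwise orthogonal
(order zero), so `‖φ 1‖ = ‖∑ φ qᵢ‖ ≤ t`: indeed for pairwise orthogonal self-adjoint `xᵢ` one has
`(∑ xᵢ) ^ (2 ^ n) = ∑ xᵢ ^ (2 ^ n)`, so `‖∑ xᵢ‖ ^ (2 ^ n) ≤ r * t ^ (2 ^ n)` for all `n`, hence
`‖∑ xᵢ‖ ≤ t`. Finally `c ≥ λ_m • q_m`, so `‖φ c‖ ≥ λ_m * ‖φ q_m‖ = λ_m * t ≥ ‖c‖ * ‖φ 1‖`. -/

namespace Pool.Agent.LibND

open scoped ComplexOrder

private lemma N05_sum_pow {B : Type*} [Ring B] {ι : Type*} [Fintype ι] [DecidableEq ι] (y : ι → B)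
    (h : ∀ i j, i ≠ j → y i * y j = 0) (k : ℕ) : (∑ i, y i) ^ (k + 1) = ∑ i, y i ^ (k + 1) := by
  induction k with
  | zero => simp
  | succ k ih =>
    rw [pow_succ, ih, Finset.sum_mul]
    refine Finset.sum_congr rfl fun i _ => ?_
    rw [Finset.mul_sum, Finset.sum_eq_single i]
    · rw [pow_succ (y i) (k + 1)]
    · intro j _ hj
      rw [pow_succ, mul_assoc, h i j hj.symm, mul_zero]
    · simp

private lemma N05_real {s t C : ℝ} (hs : 0 ≤ s) (ht : 0 ≤ t)
    (h : ∀ n : ℕ, s ^ (2 ^ n) ≤ C * t ^ (2 ^ n)) : s ≤ t := by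
  by_contra hlt
  push Not at hlt
  rcases ht.eq_or_lt with h0 | h0
  · have h1 := h 0
    subst h0
    simp at h1
    linarith
  · have h1 : 1 < s / t := (one_lt_div h0).2 hlt
    have h2 : Filter.Tendsto (fun n : ℕ => (s / t) ^ (2 ^ n)) Filter.atTop Filter.atTop :=
      (tendsto_pow_atTop_atTop_of_one_lt h1).comp
        (tendsto_pow_atTop_atTop_of_one_lt (one_lt_two (α := ℕ)))
    obtain ⟨n, hn⟩ := (h2.eventually (Filter.eventually_gt_atTop C)).exists
    have h3 := h n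
    rw [div_pow, lt_div_iff₀ (by positivity)] at hn
    linarith

private lemma N05_norm_sum {B : Type*} [CStarAlgebra B] {ι : Type*} [Fintype ι] [DecidableEq ι]
    (y : ι → B) (hsa : ∀ i, IsSelfAdjoint (y i)) (h : ∀ i j, i ≠ j → y i * y j = 0) {t : ℝ}
    (ht0 : 0 ≤ t) (ht : ∀ i, ‖y i‖ ≤ t) : ‖∑ i, y i‖ ≤ t := by
  refine N05_real (C := Fintype.card ι) (norm_nonneg _) ht0 fun n => ?_
  have hs : IsSelfAdjoint (∑ i, y i) := by
    rw [IsSelfAdjoint, star_sum]
    exact Finset.sum_congr rfl fun i _ => hsa i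
  rw [← hs.norm_pow_two_pow n]
  obtain ⟨k, hk⟩ : ∃ k, 2 ^ n = k + 1 :=
    ⟨2 ^ n - 1, by have := Nat.one_le_two_pow (n := n); omega⟩
  rw [hk, N05_sum_pow y h k]
  calc ‖∑ i, y i ^ (k + 1)‖ ≤ ∑ i, ‖y i ^ (k + 1)‖ := norm_sum_le _ _
    _ ≤ ∑ _i : ι, t ^ (k + 1) := Finset.sum_le_sum fun i _ =>
        (norm_pow_le' (y i) (Nat.succ_pos k)).trans (pow_le_pow_left₀ (norm_nonneg _) (ht i) _)
    _ = _ := by simp

private lemma N05_gen_star {A : Type*} [CStarAlgebra A] [PartialOrder A] [StarOrderedRing A] {a : A}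
    (ha : 0 ≤ a) : ∃ b : A, a = star b * b := CStarAlgebra.nonneg_iff_eq_star_mul_self.1 ha

private lemma N05_gen_mono {A : Type*} [CStarAlgebra A] [PartialOrder A] [StarOrderedRing A]
    {a b : A} (ha : 0 ≤ a) (hab : a ≤ b) : ‖a‖ ≤ ‖b‖ :=
  CStarAlgebra.norm_le_norm_of_nonneg_of_le ha hab

private lemma N05_gen_le {A : Type*} [CStarAlgebra A] [PartialOrder A] [StarOrderedRing A]
    {a : A} (ha : 0 ≤ a) : a ≤ ((‖a‖ : ℝ) : ℂ) • (1 : A) := by
  have h := (IsSelfAdjoint.of_nonneg ha).le_algebraMap_norm_self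
  rw [Algebra.algebraMap_eq_smul_one] at h
  rwa [Complex.coe_smul]

private lemma N05_gen_smul {A : Type*} [CStarAlgebra A] [PartialOrder A] [StarOrderedRing A]
    {a : A} (ha : 0 ≤ a) {s : ℝ} (hs : 0 ≤ s) : 0 ≤ ((s : ℝ) : ℂ) • a := by
  rw [Complex.coe_smul]
  exact smul_nonneg hs ha

private lemma N05_gen_one {A : Type*} [CStarAlgebra A] : ‖(1 : A)‖ ≤ 1 := by
  rcases subsingleton_or_nontrivial A with hS | hN
  · rw [Subsingleton.elim (1 : A) 0, norm_zero]
    exact zero_le_one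
  · exact (CStarRing.norm_one).le

private lemma N05_gen_zero_le_one {A : Type*} [CStarAlgebra A] [PartialOrder A]
    [StarOrderedRing A] : (0 : A) ≤ 1 := zero_le_one

private lemma N05_gen_star_mul_self {A : Type*} [CStarAlgebra A] [PartialOrder A]
    [StarOrderedRing A] (a : A) : (0 : A) ≤ star a * a := star_mul_self_nonneg a

private lemma N05_spectral {r : ℕ} (c : CStarMatrix (Fin r) (Fin r) ℂ) (hc : 0 ≤ c) :
    ∃ (v : Fin r → Fin r → ℂ) (l : Fin r → ℝ), (∀ i, 0 ≤ l i) ∧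
      (∀ i j, ∑ k, star (v i k) * v j k = if i = j then 1 else 0) ∧
      c = ∑ i, ((l i : ℝ) : ℂ) •
        CStarMatrix.ofMatrix (Matrix.vecMulVec (v i) (star (v i))) ∧
      (1 : CStarMatrix (Fin r) (Fin r) ℂ) =
        ∑ i, CStarMatrix.ofMatrix (Matrix.vecMulVec (v i) (star (v i))) := by
  obtain ⟨b, hb⟩ := N05_gen_star hc
  set B : Matrix (Fin r) (Fin r) ℂ := CStarMatrix.ofMatrix.symm b with hB
  have hpsd : (Matrix.conjTranspose B * B).PosSemidef := Matrix.posSemidef_conjTranspose_mul_self B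
  set A : Matrix (Fin r) (Fin r) ℂ := Matrix.conjTranspose B * B with hA
  have hcA : c = CStarMatrix.ofMatrix A := by rw [hb]; rfl
  have hH : A.IsHermitian := hpsd.isHermitian
  set U : Matrix (Fin r) (Fin r) ℂ := (hH.eigenvectorUnitary : Matrix (Fin r) (Fin r) ℂ) with hU
  have hU1 : star U * U = 1 := Unitary.coe_star_mul_self hH.eigenvectorUnitary
  have hU2 : U * star U = 1 := Unitary.coe_mul_star_self hH.eigenvectorUnitary
  have hspec : A = U * Matrix.diagonal (RCLike.ofReal ∘ hH.eigenvalues) * star U := by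
    conv_lhs => rw [hH.spectral_theorem]
    rfl
  refine ⟨fun i k => U k i, hH.eigenvalues, fun i => hpsd.eigenvalues_nonneg i, ?_, ?_, ?_⟩
  · intro i j
    have h1 := congrFun (congrFun hU1 i) j
    rw [Matrix.mul_apply, Matrix.one_apply] at h1
    rw [← h1]
    rfl
  · rw [hcA]
    refine CStarMatrix.ext fun i j => ?_
    have h1 := congrFun (congrFun hspec i) j
    rw [Matrix.mul_apply] at h1
    simp only [Matrix.mul_diagonal] at h1
    have h2 : (∑ k, ((hH.eigenvalues k : ℝ) : ℂ) •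
        CStarMatrix.ofMatrix (Matrix.vecMulVec (fun a => U a k) (star (fun a => U a k)))) =
        CStarMatrix.ofMatrix (∑ k, ((hH.eigenvalues k : ℝ) : ℂ) •
        (Matrix.vecMulVec (fun a => U a k) (star (fun a => U a k)))) := by
      exact (map_sum (CStarMatrix.ofMatrixₗ (m := Fin r) (n := Fin r) (A := ℂ) (R := ℂ))
        (fun k => ((hH.eigenvalues k : ℝ) : ℂ) •
          (Matrix.vecMulVec (fun a => U a k) (star (fun a => U a k)))) Finset.univ).symm
    rw [h2]
    change A i j = (∑ k, ((hH.eigenvalues k : ℝ) : ℂ) •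
        (Matrix.vecMulVec (fun a => U a k) (star (fun a => U a k)))) i j
    rw [h1, Matrix.sum_apply]
    refine Finset.sum_congr rfl fun k _ => ?_
    simp only [Matrix.smul_apply, Matrix.vecMulVec_apply, Pi.star_apply, smul_eq_mul,
      Function.comp_apply, Matrix.star_apply]
    change U i k * ((hH.eigenvalues k : ℝ) : ℂ) * star (U j k) = _
    ring
  · refine CStarMatrix.ext fun i j => ?_
    have h2 : (∑ k, 
        CStarMatrix.ofMatrix (Matrix.vecMulVec (fun a => U a k) (star (fun a => U a k)))) =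
        CStarMatrix.ofMatrix (∑ k, 
        (Matrix.vecMulVec (fun a => U a k) (star (fun a => U a k)))) := by
      exact (map_sum (CStarMatrix.ofMatrixₗ (m := Fin r) (n := Fin r) (A := ℂ) (R := ℂ))
        (fun k => (Matrix.vecMulVec (fun a => U a k) (star (fun a => U a k)))) Finset.univ).symm
    rw [h2]
    change (1 : Matrix (Fin r) (Fin r) ℂ) i j = (∑ k,
        (Matrix.vecMulVec (fun a => U a k) (star (fun a => U a k)))) i j
    rw [← hU2, Matrix.mul_apply, Matrix.sum_apply]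
    rfl

theorem N05 {r : ℕ} {B : Type*} [CStarAlgebra B] [PartialOrder B] [StarOrderedRing B]
    (φ : CStarMatrix (Fin r) (Fin r) ℂ →ₗ[ℂ] B) (hpos : ∀ x, 0 ≤ x → 0 ≤ φ x)
    (hoz : ∀ a b, 0 ≤ a → 0 ≤ b → a * b = 0 → φ a * φ b = 0)
    (c : CStarMatrix (Fin r) (Fin r) ℂ) (hc : 0 ≤ c) :
    ‖φ c‖ = ‖c‖ * ‖φ 1‖ := by
  have hmono : ∀ x y : CStarMatrix (Fin r) (Fin r) ℂ, x ≤ y → φ x ≤ φ y := by
    intro x y hxy
    have h1 := hpos (y - x) (sub_nonneg.2 hxy)
    rw [map_sub] at h1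
    exact sub_nonneg.1 h1
  have hreal : ∀ (s : ℝ), 0 ≤ s →
      ‖φ (((s : ℝ) : ℂ) • (1 : CStarMatrix (Fin r) (Fin r) ℂ))‖ = s * ‖φ 1‖ := by
    intro s hs
    rw [map_smul, norm_smul]
    simp [abs_of_nonneg hs]
  refine le_antisymm ?_ ?_
  · rw [← hreal ‖c‖ (norm_nonneg c)]
    exact N05_gen_mono (hpos c hc) (hmono _ _ (N05_gen_le hc))
  · obtain ⟨v, l, hl, horth, hcs, hones⟩ := N05_spectral c hc
    set q : Fin r → CStarMatrix (Fin r) (Fin r) ℂ := fun i =>
      CStarMatrix.ofMatrix (Matrix.vecMulVec (v i) (star (v i))) with hq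
    have hqs : ∀ i, star (q i) = q i := by
      intro i
      refine CStarMatrix.ext fun a b => ?_
      rw [CStarMatrix.star_apply]
      change star (v i b * star (v i a)) = v i a * star (v i b)
      rw [star_mul, star_star]
    have hqmul : ∀ i j, q i * q j = (∑ k, star (v i k) * v j k) •
        CStarMatrix.ofMatrix (Matrix.vecMulVec (v i) (star (v j))) := by
      intro i j
      refine CStarMatrix.ext fun a b => ?_
      rw [CStarMatrix.mul_apply, CStarMatrix.smul_apply]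
      change ∑ k, (v i a * star (v i k)) * (v j k * star (v j b)) =
        (∑ k, star (v i k) * v j k) • (v i a * star (v j b))
      rw [smul_eq_mul, Finset.sum_mul]
      exact Finset.sum_congr rfl fun k _ => by ring
    have hqq : ∀ i, q i * q i = q i := by
      intro i
      rw [hqmul, horth, if_pos rfl, one_smul]
    have hq0 : ∀ i, 0 ≤ q i := by
      intro i
      have h1 : 0 ≤ star (q i) * q i := N05_gen_star_mul_self (q i)
      rwa [hqs, hqq] at h1
    have hqij : ∀ i j, i ≠ j → q i * q j = 0 := by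
      intro i j hij
      rw [hqmul, horth, if_neg hij, zero_smul]
    rcases Nat.eq_zero_or_pos r with hr | hr
    · subst hr
      have h1 : (1 : CStarMatrix (Fin 0) (Fin 0) ℂ) = 0 := by
        rw [hones]; simp
      rw [h1, map_zero, norm_zero, mul_zero]
      exact norm_nonneg _
    · have : Nonempty (Fin r) := ⟨⟨0, hr⟩⟩
      obtain ⟨m, hm⟩ := Finite.exists_max l
      have hnorm1 : ‖(1 : CStarMatrix (Fin r) (Fin r) ℂ)‖ ≤ 1 := N05_gen_one
      have hsmul : ∀ (s : ℝ) (x : CStarMatrix (Fin r) (Fin r) ℂ), 0 ≤ s → 0 ≤ x →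
          0 ≤ ((s : ℝ) : ℂ) • x := by
        intro s x hs hx
        exact N05_gen_smul hx hs
      have hcn : ‖c‖ ≤ l m := by
        have h1 : c ≤ ((l m : ℝ) : ℂ) • (1 : CStarMatrix (Fin r) (Fin r) ℂ) := by
          rw [hones, Finset.smul_sum, hcs]
          refine Finset.sum_le_sum fun i _ => ?_
          rw [← sub_nonneg, ← sub_smul, ← Complex.ofReal_sub]
          exact hsmul _ _ (sub_nonneg.2 (hm i)) (hq0 i)
        refine (N05_gen_mono hc h1).trans ?_
        rw [norm_smul]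
        have h2 : ‖((l m : ℝ) : ℂ)‖ = l m := by simp [abs_of_nonneg (hl m)]
        rw [h2]
        exact mul_le_of_le_one_right (hl m) hnorm1
      have hlow : l m * ‖φ (q m)‖ ≤ ‖φ c‖ := by
        have h1 : ((l m : ℝ) : ℂ) • q m ≤ c := by
          rw [hcs]
          exact Finset.single_le_sum (f := fun i => ((l i : ℝ) : ℂ) • q i)
            (fun i _ => hsmul _ _ (hl i) (hq0 i)) (Finset.mem_univ m)
        have h2 := N05_gen_mono
          (hpos _ (hsmul _ _ (hl m) (hq0 m))) (hmono _ _ h1)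
        rw [map_smul, norm_smul] at h2
        simpa [abs_of_nonneg (hl m)] using h2
      have heq : ∀ i, ‖φ (q i)‖ = ‖φ (q m)‖ := by
        intro i
        by_cases him : i = m
        · rw [him]
        · refine N04 φ hpos hoz (v i) (v m) ?_ ?_ ?_
          · rw [horth, if_pos rfl]
          · rw [horth, if_pos rfl]
          · rw [horth, if_neg him]
      have hone : ‖φ 1‖ ≤ ‖φ (q m)‖ := by
        rw [hones, map_sum]
        refine N05_norm_sum (fun i => φ (q i))
          (fun i => IsSelfAdjoint.of_nonneg (hpos _ (hq0 i))) ?_ (norm_nonneg _)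
          (fun i => (heq i).le)
        intro i j hij
        exact hoz _ _ (hq0 i) (hq0 j) (hqij i j hij)
      calc ‖c‖ * ‖φ 1‖ ≤ l m * ‖φ (q m)‖ :=
            mul_le_mul hcn hone (norm_nonneg _) (hl m)
        _ ≤ ‖φ c‖ := hlow

end Pool.Agent.LibND
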