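import Mathlib
import Pool.Agent.LibND.N05

set_option autoImplicit false

/-! [ND N06] A block with a large value has a label.

PLAN. Put `b := ∑ l, c l`. If `‖φ x b‖ < η` for all `x`: the left alternative. Otherwise `b ≠ 0`.
Suppose that for every `l` there is `x_l` with `η ≤ ‖φ x_l b‖` and `f l x_l = 0`. By N05
(`t_l := ‖φ x_l 1‖`): `‖b‖ * t_l ≥ η > 0` and `‖c l‖ * t_l = ‖φ x_l (c l)‖ ≤ ε`, so
`‖c l‖ ≤ ε / t_l ≤ ε * ‖b‖ / η`. Sum over `l : Fin m`: `‖b‖ ≤ m * ε * ‖b‖ / η < ‖b‖`,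
contradiction (if `m = 0` then `b = 0`). -/

namespace Pool.Agent.LibND

open scoped ComplexOrder

theorem N06 {r m : ℕ} {B : Type*} [CStarAlgebra B] [PartialOrder B] [StarOrderedRing B]
    {X : Type*} (φ : X → CStarMatrix (Fin r) (Fin r) ℂ →ₗ[ℂ] B)
    (hpos : ∀ x y, 0 ≤ y → 0 ≤ φ x y)
    (hoz : ∀ x a b, 0 ≤ a → 0 ≤ b → a * b = 0 → φ x a * φ x b = 0)
    (c : Fin m → CStarMatrix (Fin r) (Fin r) ℂ) (hc : ∀ l, 0 ≤ c l)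
    (f : Fin m → X → ℝ) (η ε : ℝ) (hη : 0 < η) (hε : 0 ≤ ε) (hm : m * ε < η)
    (hf : ∀ l x, f l x = 0 → ‖φ x (c l)‖ ≤ ε) :
    (∀ x, ‖φ x (∑ l, c l)‖ < η) ∨ ∃ l, ∀ x, η ≤ ‖φ x (∑ l, c l)‖ → f l x ≠ 0 := by
  by_contra hcon
  push Not at hcon
  obtain ⟨⟨x0, hx0⟩, h⟩ := hcon
  choose x hx hfx using h
  have hb : 0 ≤ ∑ l, c l := Finset.sum_nonneg fun l _ => hc l
  have key : ∀ y, ‖φ y (∑ l, c l)‖ = ‖∑ l, c l‖ * ‖φ y 1‖ := fun y =>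
    N05 (φ y) (hpos y) (hoz y) _ hb
  have hbpos : 0 < ‖∑ l, c l‖ := by
    rcases (norm_nonneg (∑ l, c l)).eq_or_lt with h0 | h0
    · have := hx0
      rw [key, ← h0, zero_mul] at this
      exact absurd this (not_le.2 hη)
    · exact h0
  have h1 : ∀ l, ‖c l‖ * η ≤ ‖∑ l, c l‖ * ε := by
    intro l
    have h2 : ‖c l‖ * ‖φ (x l) 1‖ ≤ ε := by
      rw [← N05 (φ (x l)) (hpos (x l)) (hoz (x l)) (c l) (hc l)]
      exact hf l (x l) (hfx l)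
    have h3 : η ≤ ‖∑ l, c l‖ * ‖φ (x l) 1‖ := by
      rw [← key]; exact hx l
    calc ‖c l‖ * η ≤ ‖c l‖ * (‖∑ l, c l‖ * ‖φ (x l) 1‖) :=
          mul_le_mul_of_nonneg_left h3 (norm_nonneg _)
      _ = ‖∑ l, c l‖ * (‖c l‖ * ‖φ (x l) 1‖) := by ring
      _ ≤ ‖∑ l, c l‖ * ε := mul_le_mul_of_nonneg_left h2 (norm_nonneg _)
  have h4 : ‖∑ l, c l‖ * η ≤ ‖∑ l, c l‖ * (m * ε) := by
    calc ‖∑ l, c l‖ * η ≤ (∑ l, ‖c l‖) * η :=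
          mul_le_mul_of_nonneg_right (norm_sum_le _ _) hη.le
      _ = ∑ l, ‖c l‖ * η := Finset.sum_mul _ _ _
      _ ≤ ∑ _l : Fin m, ‖∑ l, c l‖ * ε := Finset.sum_le_sum fun l _ => h1 l
      _ = ‖∑ l, c l‖ * (m * ε) := by
        rw [Finset.sum_const, Finset.card_univ, Fintype.card_fin, nsmul_eq_mul]; ring
  have h5 := le_of_mul_le_mul_left h4 hbpos
  exact absurd h5 (not_le.2 hm)

end Pool.Agent.LibND
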