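import Mathlib
import Pool.Agent.LibND.Defs
import Pool.Agent.LibTD67.Leb

set_option autoImplicit false

/-! [ND N07] The cube `[0,1]^k` is not covered by `n + 1 ≤ k` families of disjoint small closed
sets.

PLAN. `Pool.Agent.LibTD67.lebesgue k A B` with, for a coordinate `a : Fin k` with `a.val < n + 1`,
`i := ⟨a.val, _⟩ : Fin (n + 1)`, `face₀ := {x ∈ Cub k | x a = 0}`, `face₁ := {x ∈ Cub k | x a = 1}`:
`A a := face₀ ∪ ⋃ {C i j | C i j meets face₀}`, `B a := face₁ ∪ ⋃ {C i j | C i j misses face₀}`;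
for the other `a`: `A a := face₀`, `B a := face₁`. All are compact (finite unions of closed subsets
of the compact cube). `A a` and `B a` are disjoint: `face₀, face₁` are; if `C i j` meets `face₀` it
misses `face₁` (`dist ≥ 1` between the faces, `hsmall`); distinct `C i j`, `C i j'` are disjoint.
They cover the cube as the `C i j` do (every `i : Fin (n+1)` is of the form `⟨a.val, _⟩`, `n < k`).
`LibTD67.Cube k` and `Cub k` are the same set. -/

namespace Pool.Agent.LibND

theorem N07 (k n : ℕ) (hn : n < k) (κ : Fin (n + 1) → ℕ)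
    (C : (i : Fin (n + 1)) → Fin (κ i) → Set (Fin k → ℝ)) (hsub : ∀ i j, C i j ⊆ Cub k)
    (hclosed : ∀ i j, IsClosed (C i j)) (hdisj : ∀ i j j', j ≠ j' → Disjoint (C i j) (C i j'))
    (hcov : ∀ x ∈ Cub k, ∃ i j, x ∈ C i j)
    (hsmall : ∀ i j, ∀ x ∈ C i j, ∀ y ∈ C i j, dist x y < 1) : False := by
  classical
  let f0 : Fin k → Set (Fin k → ℝ) := fun a => {x | x ∈ Cub k ∧ x a = 0}
  let f1 : Fin k → Set (Fin k → ℝ) := fun a => {x | x ∈ Cub k ∧ x a = 1}
  let A : Fin k → Set (Fin k → ℝ) := fun a => f0 a ∪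
    ⋃ (i : Fin (n + 1)) (_ : i.val = a.val) (j : Fin (κ i)) (_ : (C i j ∩ f0 a).Nonempty), C i j
  let B : Fin k → Set (Fin k → ℝ) := fun a => f1 a ∪
    ⋃ (i : Fin (n + 1)) (_ : i.val = a.val) (j : Fin (κ i)) (_ : ¬ (C i j ∩ f0 a).Nonempty), C i j
  have hK : IsCompact (Cub k) := LibTD67.isCompact_cube k
  have hAm : ∀ a x, x ∈ A a ↔ x ∈ f0 a ∨
      ∃ (i : Fin (n + 1)), i.val = a.val ∧ ∃ j : Fin (κ i), (C i j ∩ f0 a).Nonempty ∧ x ∈ C i j := by
    intro a x
    simp only [A, Set.mem_union, Set.mem_iUnion, exists_prop]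
  have hBm : ∀ a x, x ∈ B a ↔ x ∈ f1 a ∨
      ∃ (i : Fin (n + 1)), i.val = a.val ∧ ∃ j : Fin (κ i), ¬ (C i j ∩ f0 a).Nonempty ∧ x ∈ C i j := by
    intro a x
    simp only [B, Set.mem_union, Set.mem_iUnion, exists_prop]
  have hf0c : ∀ a, IsClosed (f0 a) := fun a =>
    hK.isClosed.inter (isClosed_eq (continuous_apply a) continuous_const)
  have hf1c : ∀ a, IsClosed (f1 a) := fun a =>
    hK.isClosed.inter (isClosed_eq (continuous_apply a) continuous_const)
  have hAc : ∀ a, IsCompact (A a) := by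
    intro a
    refine hK.of_isClosed_subset ?_ ?_
    · refine (hf0c a).union ?_
      refine isClosed_iUnion_of_finite fun i => isClosed_iUnion_of_finite fun _ =>
        isClosed_iUnion_of_finite fun j => isClosed_iUnion_of_finite fun _ => hclosed i j
    · intro x hx
      rcases (hAm a x).1 hx with h | ⟨i, _, j, _, h⟩
      · exact h.1
      · exact hsub i j h
  have hBc : ∀ a, IsCompact (B a) := by
    intro a
    refine hK.of_isClosed_subset ?_ ?_
    · refine (hf1c a).union ?_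
      refine isClosed_iUnion_of_finite fun i => isClosed_iUnion_of_finite fun _ =>
        isClosed_iUnion_of_finite fun j => isClosed_iUnion_of_finite fun _ => hclosed i j
    · intro x hx
      rcases (hBm a x).1 hx with h | ⟨i, _, j, _, h⟩
      · exact h.1
      · exact hsub i j h
  refine LibTD67.lebesgue k A B hAc hBc ?_ ?_ ?_ ?_
  · intro a
    rw [Set.disjoint_left]
    intro x hxA hxB
    rcases (hAm a x).1 hxA with h | ⟨i, hi, j, hj, h⟩
    · rcases (hBm a x).1 hxB with h' | ⟨i', hi', j', hj', h'⟩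
      · have h1 := h.2
        rw [h'.2] at h1
        exact one_ne_zero h1
      · exact hj' ⟨x, h', h⟩
    · rcases (hBm a x).1 hxB with h' | ⟨i', hi', j', hj', h'⟩
      · obtain ⟨y, hy, hy0⟩ := hj
        have h1 := hsmall i j x h y hy
        have h2 : dist (x a) (y a) ≤ dist x y := dist_le_pi_dist x y a
        rw [h'.2, hy0.2] at h2
        simp at h2
        linarith
      · have hii : i = i' := Fin.ext (hi.trans hi'.symm)
        subst hii
        have hjj : j ≠ j' := by
          rintro rfl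
          exact hj' hj
        exact Set.disjoint_left.1 (hdisj i j j' hjj) h h'
  · intro a x hx hx0
    exact (hAm a x).2 (Or.inl ⟨hx, hx0⟩)
  · intro a x hx hx1
    exact (hBm a x).2 (Or.inl ⟨hx, hx1⟩)
  · intro x hx
    obtain ⟨i, j, hij⟩ := hcov x hx
    rw [Set.mem_iUnion]
    refine ⟨⟨i.val, lt_of_lt_of_le i.isLt hn⟩, ?_⟩
    by_cases hne : (C i j ∩ f0 ⟨i.val, lt_of_lt_of_le i.isLt hn⟩).Nonempty
    · exact Or.inl ((hAm _ x).2 (Or.inr ⟨i, rfl, j, hne, hij⟩))
    · exact Or.inr ((hBm _ x).2 (Or.inr ⟨i, rfl, j, hne, hij⟩))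

end Pool.Agent.LibND
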