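import Mathlib
import Pool.Agent.LibND.N02
import Pool.Agent.LibND.N03
import Pool.Agent.LibND.N06
import Pool.Agent.LibND.N07

set_option autoImplicit false

/-! The lower bound for the nuclear dimension from a `k`-parameter family of representations with
a rank one projection. -/

namespace Pool.Agent.LibND

open scoped ComplexOrder CStarAlgebra

private theorem hom_nonneg {A B : Type*} [CStarAlgebra A] [PartialOrder A] [StarOrderedRing A]
    [CStarAlgebra B] [PartialOrder B] [StarOrderedRing B] (π : A →⋆ₐ[ℂ] B) {a : A} (ha : 0 ≤ a) :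
    0 ≤ π a := by
  obtain ⟨s, rfl⟩ := CStarAlgebra.nonneg_iff_eq_star_mul_self.1 ha
  rw [map_mul, map_star]
  exact star_mul_self_nonneg _

private theorem le_add_of_norm {H : Type*} [NormedAddCommGroup H] [InnerProductSpace ℂ H]
    [CompleteSpace H] (T S : H →L[ℂ] H) (hT : IsSelfAdjoint T) (hS : IsSelfAdjoint S) (δ : ℝ)
    (h : ‖T - S‖ ≤ δ) : T ≤ S + (δ : ℂ) • (1 : H →L[ℂ] H) := by
  have h1 := (hT.sub hS).le_algebraMap_norm_self
  have h2 : (algebraMap ℝ (H →L[ℂ] H)) ‖T - S‖ ≤ (algebraMap ℝ (H →L[ℂ] H)) δ :=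
    algebraMap_mono _ h
  have h3 : (algebraMap ℝ (H →L[ℂ] H)) δ = (δ : ℂ) • (1 : H →L[ℂ] H) := by
    rw [Algebra.algebraMap_eq_smul_one]
    rfl
  rw [← h3, add_comm]
  exact sub_le_iff_le_add.1 (h1.trans h2)

private theorem rk_sa {H : Type*} [NormedAddCommGroup H] [InnerProductSpace ℂ H]
    [CompleteSpace H] (ξ : H) : IsSelfAdjoint (rk ξ) := by
  rw [ContinuousLinearMap.isSelfAdjoint_iff_isSymmetric]
  intro x y
  simp [rk, inner_smul_left, inner_smul_right]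
  ring

/-- the block maps -/
private noncomputable def blk {A H : Type*} [CStarAlgebra A] [PartialOrder A]
    [StarOrderedRing A] [NormedAddCommGroup H] [InnerProductSpace ℂ H] [CompleteSpace H]
    {κ : ℕ} {d : Fin κ → ℕ} (π : A →⋆ₐ[ℂ] (H →L[ℂ] H)) (φ : FD d →CP A) (j : Fin κ) :
    CStarMatrix (Fin (d j)) (Fin (d j)) ℂ →ₗ[ℂ] (H →L[ℂ] H) :=
  π.toAlgHom.toLinearMap ∘ₗ φ.toLinearMap ∘ₗ
    LinearMap.single ℂ (fun j => CStarMatrix (Fin (d j)) (Fin (d j)) ℂ) j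

private theorem blk_apply {A H : Type*} [CStarAlgebra A] [PartialOrder A]
    [StarOrderedRing A] [NormedAddCommGroup H] [InnerProductSpace ℂ H] [CompleteSpace H]
    {κ : ℕ} {d : Fin κ → ℕ} (π : A →⋆ₐ[ℂ] (H →L[ℂ] H)) (φ : FD d →CP A) (j : Fin κ)
    (y : CStarMatrix (Fin (d j)) (Fin (d j)) ℂ) :
    blk π φ j y = π (φ (Pi.single j y)) := rfl

private theorem single_nonneg {κ : ℕ} {d : Fin κ → ℕ} (j : Fin κ)
    (y : CStarMatrix (Fin (d j)) (Fin (d j)) ℂ) (hy : 0 ≤ y) : (0 : FD d) ≤ Pi.single j y :=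
  Pi.single_nonneg.2 hy

private theorem cp_nonneg {A B : Type*} [NonUnitalCStarAlgebra A] [NonUnitalCStarAlgebra B]
    [PartialOrder A] [PartialOrder B] [StarOrderedRing A] [StarOrderedRing B]
    (φ : A →CP B) {a : A} (ha : 0 ≤ a) : 0 ≤ φ a := by
  have := OrderHomClass.mono φ ha
  rwa [map_zero] at this

private theorem blk_nonneg {A H : Type*} [CStarAlgebra A] [PartialOrder A]
    [StarOrderedRing A] [NormedAddCommGroup H] [InnerProductSpace ℂ H] [CompleteSpace H]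
    {κ : ℕ} {d : Fin κ → ℕ} (π : A →⋆ₐ[ℂ] (H →L[ℂ] H)) (φ : FD d →CP A) (j : Fin κ)
    (y : CStarMatrix (Fin (d j)) (Fin (d j)) ℂ) (hy : 0 ≤ y) : 0 ≤ blk π φ j y := by
  rw [blk_apply]
  exact hom_nonneg π (cp_nonneg φ (single_nonneg j y hy))

private theorem blk_mul_eq {A H : Type*} [CStarAlgebra A] [PartialOrder A]
    [StarOrderedRing A] [NormedAddCommGroup H] [InnerProductSpace ℂ H] [CompleteSpace H]
    {κ : ℕ} {d : Fin κ → ℕ} (π : A →⋆ₐ[ℂ] (H →L[ℂ] H)) (φ : FD d →CP A) (hφ : OrderZero φ)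
    (j : Fin κ) (y z : CStarMatrix (Fin (d j)) (Fin (d j)) ℂ) (hy : 0 ≤ y) (hz : 0 ≤ z)
    (hyz : y * z = 0) : blk π φ j y * blk π φ j z = 0 := by
  rw [blk_apply, blk_apply, ← map_mul, hφ _ _ (single_nonneg j y hy) (single_nonneg j z hz),
    map_zero]
  rw [← Pi.single_mul, hyz, Pi.single_zero]

private theorem blk_mul_ne {A H : Type*} [CStarAlgebra A] [PartialOrder A]
    [StarOrderedRing A] [NormedAddCommGroup H] [InnerProductSpace ℂ H] [CompleteSpace H]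
    {κ : ℕ} {d : Fin κ → ℕ} (π : A →⋆ₐ[ℂ] (H →L[ℂ] H)) (φ : FD d →CP A) (hφ : OrderZero φ)
    (j j' : Fin κ) (hj : j ≠ j') (y : CStarMatrix (Fin (d j)) (Fin (d j)) ℂ)
    (z : CStarMatrix (Fin (d j')) (Fin (d j')) ℂ) (hy : 0 ≤ y) (hz : 0 ≤ z) :
    blk π φ j y * blk π φ j' z = 0 := by
  rw [blk_apply, blk_apply, ← map_mul, hφ _ _ (single_nonneg j y hy) (single_nonneg j' z hz),
    map_zero]
  ext l : 1
  by_cases h : l = j
  · subst h
    rw [Pi.mul_apply, Pi.single_eq_of_ne hj, mul_zero, Pi.zero_apply]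
  · rw [Pi.mul_apply, Pi.single_eq_of_ne h, zero_mul, Pi.zero_apply]

private theorem sum_blk {A H : Type*} [CStarAlgebra A] [PartialOrder A]
    [StarOrderedRing A] [NormedAddCommGroup H] [InnerProductSpace ℂ H] [CompleteSpace H]
    {κ : ℕ} {d : Fin κ → ℕ} (π : A →⋆ₐ[ℂ] (H →L[ℂ] H)) (φ : FD d →CP A) (y : FD d) :
    ∑ j, blk π φ j (y j) = π (φ y) := by
  simp only [blk_apply]
  rw [← map_sum, ← map_sum, Finset.univ_sum_single]

private theorem re_inner_le {H : Type*} [NormedAddCommGroup H] [InnerProductSpace ℂ H]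
    [CompleteSpace H] (ξ : H) (hξ : ‖ξ‖ = 1) (T : H →L[ℂ] H) : |(inner ℂ ξ (T ξ)).re| ≤ ‖T‖ := by
  refine (Complex.abs_re_le_norm _).trans ((norm_inner_le_norm _ _).trans ?_)
  rw [hξ, one_mul]
  simpa [hξ] using T.le_opNorm ξ

private theorem re_inner_nonneg {H : Type*} [NormedAddCommGroup H] [InnerProductSpace ℂ H]
    [CompleteSpace H] (ξ : H) (T : H →L[ℂ] H) (hT : 0 ≤ T) : 0 ≤ (inner ℂ ξ (T ξ)).re := by
  rw [ContinuousLinearMap.nonneg_iff_isPositive] at hT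
  exact (Complex.nonneg_iff.1 (hT.inner_nonneg_right ξ)).1

private theorem inner_rk {H : Type*} [NormedAddCommGroup H] [InnerProductSpace ℂ H]
    [CompleteSpace H] (ξ : H) (hξ : ‖ξ‖ = 1) : (inner ℂ ξ (rk ξ ξ)).re = 1 := by
  have h : inner ℂ ξ ξ = (1 : ℂ) := by
    rw [inner_self_eq_norm_sq_to_K, hξ]
    simp
  have h2 : rk ξ ξ = (inner ℂ ξ ξ) • ξ := rfl
  rw [h2, inner_smul_right, h]
  simp

private theorem inner_sum_re {H : Type*} [NormedAddCommGroup H] [InnerProductSpace ℂ H]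
    [CompleteSpace H] (ξ : H) {ι : Type*} (s : Finset ι) (T : ι → H →L[ℂ] H) :
    (inner ℂ ξ ((∑ i ∈ s, T i) ξ)).re = ∑ i ∈ s, (inner ℂ ξ (T i ξ)).re := by
  rw [ContinuousLinearMap.sum_apply, inner_sum, Complex.re_sum]

theorem core {A : Type*} [CStarAlgebra A] [PartialOrder A] [StarOrderedRing A]
    {H : Type*} [NormedAddCommGroup H] [InnerProductSpace ℂ H] [CompleteSpace H]
    (k n : ℕ) (hn : n < k) (π : (Fin k → ℝ) → (A →⋆ₐ[ℂ] (H →L[ℂ] H))) (ξ : H) (hξ : ‖ξ‖ = 1)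
    (hcont : ∀ a, ContinuousOn (fun x => inner ℂ ξ (π x a ξ)) (Cub k))
    (hF : ∀ δ : ℝ, 0 < δ → ∃ (m : ℕ) (f : Fin m → (Fin k → ℝ) → ℝ),
      (∀ l, ∀ x ∈ Cub k, 0 ≤ f l x) ∧ (∀ x ∈ Cub k, ∑ l, f l x = 1) ∧
      (∀ l, ∀ x ∈ Cub k, ∀ y ∈ Cub k, f l x ≠ 0 → f l y ≠ 0 → dist x y < δ) ∧
      ∀ ε : ℝ, 0 < ε → ∃ F : Fin m → A, (∀ l, 0 ≤ F l) ∧
        ∀ l, ∀ x ∈ Cub k, ‖π x (F l) - (f l x : ℂ) • rk ξ‖ ≤ ε) :
    ¬ NucDimLE A n := by
  classical
  intro hN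
  obtain ⟨m, f, hf0, hf1, hfs, hfF⟩ := hF 1 one_pos
  obtain ⟨N, hNdef⟩ : ∃ N : ℝ, N = (n : ℝ) + 1 := ⟨_, rfl⟩
  have hN1 : 1 ≤ N := by rw [hNdef]; linarith [(Nat.cast_nonneg n : (0 : ℝ) ≤ n)]
  have hN0 : 0 < N := by linarith
  obtain ⟨r, hrdef⟩ : ∃ r : ℝ, r = 1 / (300 * N ^ 2) := ⟨_, rfl⟩
  have hr0 : 0 < r := by rw [hrdef]; positivity
  have hrN : r * N ^ 2 = 1 / 300 := by rw [hrdef]; field_simp
  have hr1 : r ≤ 1 / 300 := by
    rw [← hrN]
    nlinarith [hr0, one_le_pow₀ hN1 (n := 2)]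
  obtain ⟨δ, hδdef⟩ : ∃ δ : ℝ, δ = r ^ 2 := ⟨_, rfl⟩
  have hδ0 : 0 < δ := by rw [hδdef]; positivity
  have hsq : √δ = r := by rw [hδdef]; exact Real.sqrt_sq hr0.le
  have hδr : δ ≤ r := by rw [hδdef]; nlinarith
  have hδ1 : δ ≤ 1 := by linarith
  obtain ⟨ε, hεdef⟩ : ∃ ε : ℝ, ε = δ / (2 * (m + 1)) := ⟨_, rfl⟩
  have hm0 : (0 : ℝ) ≤ m := Nat.cast_nonneg m
  have hε0 : 0 < ε := by rw [hεdef]; positivity
  have hmε : m * (2 * ε) ≤ δ := by
    have : (m + 1) * (2 * ε) = δ := by rw [hεdef]; field_simp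
    nlinarith
  obtain ⟨F, hFn, hFe⟩ := hfF ε hε0
  obtain ⟨κ, d, x, happ⟩ := hN (Finset.univ.image F) ε hε0
  obtain ⟨ψ, hψ⟩ : ∃ ψ : (i : Fin (n + 1)) → (A →CP FD (d i)), ∀ i, ψ i = (x i).ψ.map :=
    ⟨fun i => (x i).ψ.map, fun _ => rfl⟩
  obtain ⟨φ, hφ⟩ : ∃ φ : (i : Fin (n + 1)) → (FD (d i) →CP A), ∀ i, φ i = (x i).φ.map :=
    ⟨fun i => (x i).φ.map, fun _ => rfl⟩
  have hoz : ∀ i, OrderZero (φ i) := fun i => by rw [hφ]; exact (x i).orderZero
  have hcomp : ∀ i a, (x i).comp a = φ i (ψ i a) := fun i a => by rw [hφ, hψ]; rfl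
  simp only [hcomp] at happ
  have happ' : ∀ l, ‖∑ i, φ i (ψ i (F l)) - F l‖ < ε := fun l =>
    happ _ (Finset.mem_image_of_mem F (Finset.mem_univ l))
  -- the blocks
  let c : ∀ (i : Fin (n + 1)) (j : Fin (κ i)), Fin m → CStarMatrix (Fin (d i j)) (Fin (d i j)) ℂ :=
    fun i j l => ψ i (F l) j
  have hc : ∀ i j l, 0 ≤ c i j l := fun i j l => cp_nonneg (ψ i) (hFn l) j
  let T : (Fin k → ℝ) → ∀ i, Fin (κ i) → H →L[ℂ] H := fun x i j =>
    blk (π x) (φ i) j (∑ l, c i j l)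
  have hT0 : ∀ x i j, 0 ≤ T x i j := fun x i j =>
    blk_nonneg _ _ _ _ (Finset.sum_nonneg fun l _ => hc i j l)
  have hTl : ∀ x l, ∑ i, ∑ j, blk (π x) (φ i) j (c i j l) = π x (∑ i, φ i (ψ i (F l))) := by
    intro x l
    rw [map_sum]
    exact Finset.sum_congr rfl fun i _ => sum_blk (π x) (φ i) (ψ i (F l))
  have hTsum : ∀ x, ∑ i, ∑ j, T x i j = ∑ l, π x (∑ i, φ i (ψ i (F l))) := by
    intro x
    calc ∑ i, ∑ j, T x i j = ∑ i, ∑ j, ∑ l, blk (π x) (φ i) j (c i j l) :=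
          Finset.sum_congr rfl fun i _ => Finset.sum_congr rfl fun j _ => map_sum _ _ _
      _ = ∑ i, ∑ l, ∑ j, blk (π x) (φ i) j (c i j l) :=
          Finset.sum_congr rfl fun i _ => Finset.sum_comm
      _ = ∑ l, ∑ i, ∑ j, blk (π x) (φ i) j (c i j l) := Finset.sum_comm
      _ = _ := Finset.sum_congr rfl fun l _ => hTl x l
  have hnorm : ∀ x ∈ Cub k, ‖(∑ i, ∑ j, T x i j) - rk ξ‖ ≤ δ := by
    intro x hx
    have h1 : (∑ i, ∑ j, T x i j) - rk ξ =
        ∑ l, (π x (∑ i, φ i (ψ i (F l))) - (f l x : ℂ) • rk ξ) := by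
      rw [Finset.sum_sub_distrib, ← Finset.sum_smul, ← Complex.ofReal_sum, hf1 x hx, hTsum]
      simp
    rw [h1]
    refine (norm_sum_le _ _).trans ?_
    have h2 : ∀ l ∈ (Finset.univ : Finset (Fin m)),
        ‖π x (∑ i, φ i (ψ i (F l))) - (f l x : ℂ) • rk ξ‖ ≤ 2 * ε := by
      intro l _
      have h3 : π x (∑ i, φ i (ψ i (F l))) - (f l x : ℂ) • rk ξ =
          π x (∑ i, φ i (ψ i (F l)) - F l) + (π x (F l) - (f l x : ℂ) • rk ξ) := by
        rw [map_sub]; abel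
      rw [h3]
      refine (norm_add_le _ _).trans ?_
      have h4 := (NonUnitalStarAlgHom.norm_apply_le (π x) (∑ i, φ i (ψ i (F l)) - F l)).trans
        (happ' l).le
      linarith [hFe l x hx]
    refine (Finset.sum_le_card_nsmul _ _ _ h2).trans ?_
    simpa using hmε
  have hsumpos : ∀ x, 0 ≤ ∑ i, ∑ j, T x i j := fun x =>
    Finset.sum_nonneg fun i _ => Finset.sum_nonneg fun j _ => hT0 x i j
  have hTle : ∀ x ∈ Cub k, ∑ i, ∑ j, T x i j ≤ rk ξ + (δ : ℂ) • (1 : H →L[ℂ] H) := fun x hx =>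
    le_add_of_norm _ _ (IsSelfAdjoint.of_nonneg (hsumpos x)) (rk_sa ξ) δ (hnorm x hx)
  have hTile : ∀ x ∈ Cub k, ∀ i, ∑ j, T x i j ≤ rk ξ + (δ : ℂ) • (1 : H →L[ℂ] H) := by
    intro x hx i
    refine le_trans ?_ (hTle x hx)
    exact Finset.single_le_sum (f := fun i => ∑ j, T x i j)
      (fun i _ => Finset.sum_nonneg fun j _ => hT0 x i j) (Finset.mem_univ i)
  have hTJ : ∀ x i (J J' : Finset (Fin (κ i))), Disjoint J J' →
      (∑ j ∈ J, T x i j) * (∑ j ∈ J', T x i j) = 0 := by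
    intro x i J J' hJ
    rw [Finset.sum_mul_sum]
    refine Finset.sum_eq_zero fun j hj => Finset.sum_eq_zero fun j' hj' => ?_
    exact blk_mul_ne _ _ (hoz i) j j' (fun h => Finset.disjoint_left.1 hJ hj (h ▸ hj')) _ _
      (Finset.sum_nonneg fun l _ => hc i j l) (Finset.sum_nonneg fun l _ => hc i j' l)
  let g : (Fin k → ℝ) → ∀ i, Fin (κ i) → ℝ := fun x i j => (inner ℂ ξ (T x i j ξ)).re
  have hg0 : ∀ x i j, 0 ≤ g x i j := fun x i j => re_inner_nonneg ξ _ (hT0 x i j)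
  have hJ : ∀ x ∈ Cub k, ∀ i (J J' : Finset (Fin (κ i))), Disjoint J J' →
      (∑ j ∈ J, g x i j) * (∑ j ∈ J', g x i j) ≤ 12 * r := by
    intro x hx i J J' hJJ
    have h1 : ∑ j ∈ J, T x i j + ∑ j ∈ J', T x i j ≤ rk ξ + (δ : ℂ) • (1 : H →L[ℂ] H) := by
      rw [← Finset.sum_union hJJ]
      refine le_trans ?_ (hTile x hx i)
      exact Finset.sum_le_sum_of_subset_of_nonneg (Finset.subset_univ _)
        fun j _ _ => hT0 x i j
    have h2 := N02 ξ hξ _ _ (Finset.sum_nonneg fun j _ => hT0 x i j)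
      (Finset.sum_nonneg fun j _ => hT0 x i j) (hTJ x i J J' hJJ) δ hδ0.le hδ1 h1
    rwa [inner_sum_re, inner_sum_re, hsq] at h2
  refine N07 k n hn κ (fun i j => {x | x ∈ Cub k ∧ 1 / (4 * N) ≤ g x i j}) (fun i j x hx => hx.1)
    ?_ ?_ ?_ ?_
  · -- closed
    intro i j
    have hcub : IsClosed (Cub k) := by
      have : Cub k = Set.pi Set.univ fun _ : Fin k => Set.Icc (0 : ℝ) 1 := by
        ext x
        exact ⟨fun h i _ => h i, fun h i => h i (Set.mem_univ i)⟩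
      rw [this]
      exact isClosed_set_pi fun _ _ => isClosed_Icc
    have h1 : ContinuousOn (fun x => g x i j) (Cub k) :=
      Complex.continuous_re.comp_continuousOn (hcont (φ i (Pi.single j (∑ l, c i j l))))
    have h2 := h1.preimage_isClosed_of_isClosed hcub (isClosed_Ici (a := 1 / (4 * N)))
    exact h2
  · -- disjoint
    intro i j j' hjj
    rw [Set.disjoint_left]
    rintro x ⟨hx, h1⟩ ⟨-, h2⟩
    have h3 := hJ x hx i {j} {j'} (by simpa using hjj)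
    rw [Finset.sum_singleton, Finset.sum_singleton] at h3
    have h4 : (1 / (4 * N)) * (1 / (4 * N)) ≤ 12 * r :=
      (mul_le_mul h1 h2 (by positivity) ((by positivity : (0 : ℝ) ≤ 1 / (4 * N)).trans h1)).trans h3
    have h5 : (1 / (4 * N)) * (1 / (4 * N)) * N ^ 2 = 1 / 16 := by field_simp; norm_num
    nlinarith [mul_le_mul_of_nonneg_right h4 (by positivity : (0 : ℝ) ≤ N ^ 2)]
  · -- cover
    intro x hx
    have h1 : 1 - δ ≤ ∑ i, ∑ j, g x i j := by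
      have h2 : ∑ i, ∑ j, g x i j = (inner ℂ ξ ((∑ i, ∑ j, T x i j) ξ)).re := by
        rw [inner_sum_re]
        exact Finset.sum_congr rfl fun i _ => (inner_sum_re ξ _ _).symm
      have h3 := (re_inner_le ξ hξ ((∑ i, ∑ j, T x i j) - rk ξ)).trans (hnorm x hx)
      rw [ContinuousLinearMap.sub_apply, inner_sub_right, Complex.sub_re, inner_rk ξ hξ, ← h2] at h3
      linarith [(abs_le.1 h3).1]
    obtain ⟨i, hi⟩ : ∃ i, 1 / (2 * N) ≤ ∑ j, g x i j := by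
      by_contra hcon
      push Not at hcon
      have h4 : ∑ i, ∑ j, g x i j < ∑ _i : Fin (n + 1), 1 / (2 * N) :=
        Finset.sum_lt_sum_of_nonempty Finset.univ_nonempty fun i _ => hcon i
      rw [Finset.sum_const, Finset.card_univ, Fintype.card_fin, nsmul_eq_mul] at h4
      push_cast at h4
      rw [← hNdef] at h4
      have h5 : N * (1 / (2 * N)) = 1 / 2 := by field_simp
      rw [h5] at h4
      linarith
    have hGpos : 0 < ∑ j, g x i j := lt_of_lt_of_le (by positivity) hi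
    obtain ⟨j, hj⟩ := N03 (fun j => g x i j) (fun j => hg0 x i j) _ (12 * r) rfl hGpos
      (fun J => hJ x hx i J Jᶜ disjoint_compl_right) (by
        have h6 : (1 / (2 * N)) ^ 2 ≤ (∑ j, g x i j) ^ 2 :=
          pow_le_pow_left₀ (by positivity) hi 2
        have h7 : (1 / (2 * N)) ^ 2 * N ^ 2 = 1 / 4 := by field_simp; norm_num
        have h8 : 0 < N ^ 2 := by positivity
        nlinarith [mul_le_mul_of_nonneg_right h6 h8.le])
    refine ⟨i, j, hx, ?_⟩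
    have h9 : 1 / (4 * N) = 1 / (2 * N) / 2 := by field_simp; norm_num
    rw [h9]
    linarith
  · -- small
    intro i j x hx y hy
    have hf' : ∀ (l : Fin m) (x : {x // x ∈ Cub k}), f l x.1 = 0 →
        ‖blk (π x.1) (φ i) j (c i j l)‖ ≤ 2 * ε := by
      intro l x h0
      have h1 : blk (π x.1) (φ i) j (c i j l) ≤ π x.1 (∑ i, φ i (ψ i (F l))) := by
        rw [← hTl]
        refine (Finset.single_le_sum (f := fun j => blk (π x.1) (φ i) j (c i j l))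
          (fun j _ => blk_nonneg _ _ _ _ (hc i j l)) (Finset.mem_univ j)).trans ?_
        exact Finset.single_le_sum (f := fun i => ∑ j, blk (π x.1) (φ i) j (c i j l))
          (fun i _ => Finset.sum_nonneg fun j _ => blk_nonneg _ _ _ _ (hc i j l))
          (Finset.mem_univ i)
      refine (CStarAlgebra.norm_le_norm_of_nonneg_of_le (blk_nonneg _ _ _ _ (hc i j l)) h1).trans ?_
      have h2 : π x.1 (∑ i, φ i (ψ i (F l))) =
          π x.1 (∑ i, φ i (ψ i (F l)) - F l) + (π x.1 (F l) - (f l x.1 : ℂ) • rk ξ) := by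
        rw [map_sub, h0]; simp
      rw [h2]
      refine (norm_add_le _ _).trans ?_
      have h4 := (NonUnitalStarAlgHom.norm_apply_le (π x.1) (∑ i, φ i (ψ i (F l)) - F l)).trans
        (happ' l).le
      linarith [hFe l x.1 x.2]
    have hNinv : δ < 1 / (4 * N) := by
      rw [lt_div_iff₀ (by positivity)]
      nlinarith [mul_le_mul_of_nonneg_right hδr hN0.le, mul_le_mul_of_nonneg_left hN1 (mul_nonneg hr0.le hN0.le)]
    have key := N06 (X := {x // x ∈ Cub k}) (fun x => blk (π x.1) (φ i) j)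
      (fun x y hy => blk_nonneg _ _ _ _ hy)
      (fun x a b ha hb hab => blk_mul_eq _ _ (hoz i) j a b ha hb hab) (c i j) (hc i j)
      (fun l x => f l x.1) (1 / (4 * N)) (2 * ε) (by positivity) (by positivity)
      (lt_of_le_of_lt hmε hNinv) hf'
    have hge : ∀ x (hx : x ∈ Cub k ∧ 1 / (4 * N) ≤ g x i j), 1 / (4 * N) ≤ ‖T x i j‖ :=
      fun x hx => hx.2.trans ((le_abs_self _).trans (re_inner_le ξ hξ _))
    rcases key with h | ⟨l, hl⟩
    · exact absurd (h ⟨x, hx.1⟩) (not_lt.2 (hge x hx))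
    · exact hfs l x hx.1 y hy.1 (hl ⟨x, hx.1⟩ (hge x hx)) (hl ⟨y, hy.1⟩ (hge y hy))

end Pool.Agent.LibND
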