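import Mathlib
import Pool.Agent.LibND.Defs

set_option autoImplicit false

/-! [ND N10] ONLY MATHLIB. The representation induced from a character of a subgroup `S`.

PLAN. `X := G₀ ⧸ S`, `σ : X → G₀`, `σ x := x.out` (`QuotientGroup.mk (σ x) = x`). The cocycle
`κ g x := ζ ⟨(σ (g • x))⁻¹ * g * σ x, _⟩` satisfies `κ (g * h) x = κ g (h • x) * κ h x`, `κ 1 x = 1`.
`(ρ g f) x := κ g (g⁻¹ • x) * f (g⁻¹ • x)` for `f : lp (fun _ : X => ℂ) 2` is a linear isometry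
(membership in `lp` and the norm: `Memℓp`/`lp.norm_eq_tsum_rpow` and the bijection `x ↦ g⁻¹ • x`),
`ρ 1 = 1`, `ρ (g h) = ρ g ρ h`, so `ρ g` is a linear isometry equivalence, hence unitary
(e.g. `Unitary.linearIsometryEquiv`, or: `⟪ρ g f, ρ g f'⟫ = ⟪f, f'⟫` and surjectivity; `star (ρ g) =
ρ g⁻¹` by `ContinuousLinearMap.ext_inner`). `ρ g (bas (↑h)) = κ g (↑h) • bas (↑(g * h))`.
If `h⁻¹ g h ∈ S` then `g • ↑h = ↑h`, `σ (↑h) = h * s` with `s ∈ S`, and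
`κ g (↑h) = ζ (s⁻¹ (h⁻¹ g h) s) = ζ (h⁻¹ g h)` as `Circle` is commutative. -/

namespace Pool.Agent.LibND

universe u

private theorem n10_mem {G₀ : Type u} [Group G₀] (S : Subgroup G₀) (g : G₀) (x : G₀ ⧸ S) :
    ((g • x).out)⁻¹ * (g * x.out) ∈ S := by
  rw [← QuotientGroup.eq, QuotientGroup.out_eq']
  have h : ((x.out : G₀) : G₀ ⧸ S) = x := QuotientGroup.out_eq' x
  calc g • x = g • ((x.out : G₀) : G₀ ⧸ S) := by rw [h]
    _ = ((g * x.out : G₀) : G₀ ⧸ S) := rfl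

private noncomputable def n10_kap {G₀ : Type u} [Group G₀] (S : Subgroup G₀) (ζ : S →* Circle)
    (g : G₀) (x : G₀ ⧸ S) : Circle :=
  ζ ⟨((g • x).out)⁻¹ * (g * x.out), n10_mem S g x⟩

private theorem n10_kap_mul {G₀ : Type u} [Group G₀] (S : Subgroup G₀) (ζ : S →* Circle)
    (g h : G₀) (x : G₀ ⧸ S) :
    n10_kap S ζ (g * h) x = n10_kap S ζ g (h • x) * n10_kap S ζ h x := by
  unfold n10_kap
  rw [← ζ.map_mul]
  congr 1
  apply Subtype.ext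
  simp only [Subgroup.coe_mul, mul_smul]
  group

private theorem n10_kap_one {G₀ : Type u} [Group G₀] (S : Subgroup G₀) (ζ : S →* Circle)
    (x : G₀ ⧸ S) : n10_kap S ζ 1 x = 1 := by
  have h := n10_kap_mul S ζ 1 1 x
  rw [one_smul, mul_one] at h
  exact (mul_eq_left.mp h.symm)

private theorem n10_kap_fix {G₀ : Type u} [Group G₀] (S : Subgroup G₀) (ζ : S →* Circle)
    (g h : G₀) (hg : h⁻¹ * g * h ∈ S) :
    n10_kap S ζ g (h : G₀ ⧸ S) = ζ ⟨h⁻¹ * g * h, hg⟩ := by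
  have hfix : g • (h : G₀ ⧸ S) = (h : G₀ ⧸ S) := by
    change ((g * h : G₀) : G₀ ⧸ S) = (h : G₀ ⧸ S)
    rw [eq_comm, QuotientGroup.eq, ← mul_assoc]
    exact hg
  have hs : h⁻¹ * ((h : G₀ ⧸ S)).out ∈ S := by
    rw [← QuotientGroup.eq, QuotientGroup.out_eq']
  have key : (⟨((g • (h : G₀ ⧸ S)).out)⁻¹ * (g * ((h : G₀ ⧸ S)).out), n10_mem S g h⟩ : S) =
      (⟨h⁻¹ * ((h : G₀ ⧸ S)).out, hs⟩ : S)⁻¹ * ⟨h⁻¹ * g * h, hg⟩ *
        ⟨h⁻¹ * ((h : G₀ ⧸ S)).out, hs⟩ := by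
    apply Subtype.ext
    simp only [Subgroup.coe_mul, Subgroup.coe_inv, hfix]
    group
  unfold n10_kap
  rw [key, map_mul, map_mul, map_inv, mul_comm, ← mul_assoc, mul_inv_cancel, one_mul]

private theorem n10_memlp {G₀ : Type u} [Group G₀] (S : Subgroup G₀) (ζ : S →* Circle)
    (g : G₀) (f : L2 (G₀ ⧸ S)) :
    Memℓp (E := fun _ : G₀ ⧸ S => ℂ) (fun x : G₀ ⧸ S => (n10_kap S ζ g (g⁻¹ • x) : ℂ) * f (g⁻¹ • x)) 2 := by
  have h2 : 0 < (2 : ENNReal).toReal := by norm_num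
  rw [memℓp_gen_iff h2]
  have hf := (memℓp_gen_iff h2).mp (lp.memℓp f)
  have := (MulAction.toPerm g⁻¹ : Equiv.Perm (G₀ ⧸ S)).summable_iff.mpr hf
  refine this.congr fun x => ?_
  simp

private noncomputable def n10_op {G₀ : Type u} [Group G₀] (S : Subgroup G₀) (ζ : S →* Circle)
    (g : G₀) (f : L2 (G₀ ⧸ S)) : L2 (G₀ ⧸ S) :=
  ⟨fun x : G₀ ⧸ S => (n10_kap S ζ g (g⁻¹ • x) : ℂ) * f (g⁻¹ • x), n10_memlp S ζ g f⟩

private theorem n10_op_apply {G₀ : Type u} [Group G₀] (S : Subgroup G₀) (ζ : S →* Circle)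
    (g : G₀) (f : L2 (G₀ ⧸ S)) (x : G₀ ⧸ S) :
    n10_op S ζ g f x = (n10_kap S ζ g (g⁻¹ • x) : ℂ) * f (g⁻¹ • x) := rfl

private theorem n10_op_one {G₀ : Type u} [Group G₀] (S : Subgroup G₀) (ζ : S →* Circle)
    (f : L2 (G₀ ⧸ S)) : n10_op S ζ 1 f = f := by
  apply lp.ext
  funext x
  rw [n10_op_apply, inv_one, one_smul, n10_kap_one]
  simp

private theorem n10_op_mul {G₀ : Type u} [Group G₀] (S : Subgroup G₀) (ζ : S →* Circle)
    (g h : G₀) (f : L2 (G₀ ⧸ S)) : n10_op S ζ (g * h) f = n10_op S ζ g (n10_op S ζ h f) := by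
  apply lp.ext
  funext x
  rw [n10_op_apply, n10_op_apply, n10_op_apply, n10_kap_mul, mul_inv_rev, mul_smul,
    smul_inv_smul, Circle.coe_mul, mul_assoc]

private theorem n10_op_norm {G₀ : Type u} [Group G₀] (S : Subgroup G₀) (ζ : S →* Circle)
    (g : G₀) (f : L2 (G₀ ⧸ S)) : ‖n10_op S ζ g f‖ = ‖f‖ := by
  have h2 : 0 < (2 : ENNReal).toReal := by norm_num
  rw [lp.norm_eq_tsum_rpow h2, lp.norm_eq_tsum_rpow h2]
  congr 1
  rw [← (MulAction.toPerm g⁻¹ : Equiv.Perm (G₀ ⧸ S)).tsum_eq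
    (fun x => ‖f x‖ ^ (2 : ENNReal).toReal)]
  refine tsum_congr fun x => ?_
  rw [n10_op_apply]
  simp

private noncomputable def n10_lie {G₀ : Type u} [Group G₀] (S : Subgroup G₀) (ζ : S →* Circle)
    (g : G₀) : L2 (G₀ ⧸ S) ≃ₗᵢ[ℂ] L2 (G₀ ⧸ S) where
  toFun := n10_op S ζ g
  invFun := n10_op S ζ g⁻¹
  map_add' f f' := by
    apply lp.ext
    funext x
    rw [lp.coeFn_add, Pi.add_apply, n10_op_apply, n10_op_apply, n10_op_apply, lp.coeFn_add,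
      Pi.add_apply, mul_add]
  map_smul' c f := by
    apply lp.ext
    funext x
    rw [RingHom.id_apply, lp.coeFn_smul, Pi.smul_apply, n10_op_apply, n10_op_apply,
      lp.coeFn_smul, Pi.smul_apply, smul_eq_mul, smul_eq_mul]
    ring
  left_inv f := by rw [← n10_op_mul, inv_mul_cancel, n10_op_one]
  right_inv f := by rw [← n10_op_mul, mul_inv_cancel, n10_op_one]
  norm_map' f := n10_op_norm S ζ g f

private noncomputable def n10_hom {G₀ : Type u} [Group G₀] (S : Subgroup G₀) (ζ : S →* Circle) :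
    G₀ →* (L2 (G₀ ⧸ S) ≃ₗᵢ[ℂ] L2 (G₀ ⧸ S)) where
  toFun := n10_lie S ζ
  map_one' := by
    apply LinearIsometryEquiv.ext
    intro f
    exact n10_op_one S ζ f
  map_mul' g h := by
    apply LinearIsometryEquiv.ext
    intro f
    exact n10_op_mul S ζ g h f

private theorem n10_bas_self {X : Type u} (y : X) : (bas y : L2 X) y = 1 := by
  classical
  unfold bas
  exact lp.single_apply_self (E := fun _ : X => ℂ) 2 y (1 : ℂ)

private theorem n10_bas_ne {X : Type u} {x y : X} (h : x ≠ y) : (bas y : L2 X) x = 0 := by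
  classical
  unfold bas
  exact lp.single_apply_ne (E := fun _ : X => ℂ) 2 y (1 : ℂ) h

private theorem n10_op_bas {G₀ : Type u} [Group G₀] (S : Subgroup G₀) (ζ : S →* Circle)
    (g h : G₀) : n10_op S ζ g (bas (h : G₀ ⧸ S)) =
      (n10_kap S ζ g (h : G₀ ⧸ S) : ℂ) • bas ((g * h : G₀) : G₀ ⧸ S) := by
  apply lp.ext
  funext x
  rw [lp.coeFn_smul, Pi.smul_apply, n10_op_apply, smul_eq_mul]
  have hiff : g⁻¹ • x = (h : G₀ ⧸ S) ↔ x = ((g * h : G₀) : G₀ ⧸ S) := by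
    rw [inv_smul_eq_iff]
    rfl
  by_cases hc : g⁻¹ • x = (h : G₀ ⧸ S)
  · rw [hc, n10_bas_self, hiff.mp hc, n10_bas_self]
  · rw [n10_bas_ne hc, n10_bas_ne (fun h' => hc (hiff.mpr h')), mul_zero, mul_zero]

theorem N10 {G₀ : Type u} [Group G₀] (S : Subgroup G₀) (ζ : S →* Circle) :
    ∃ ρ : G₀ →* unitary (L2 (G₀ ⧸ S) →L[ℂ] L2 (G₀ ⧸ S)),
      (∀ g h : G₀, ∃ c : Circle,
        (ρ g : L2 (G₀ ⧸ S) →L[ℂ] L2 (G₀ ⧸ S)) (bas (h : G₀ ⧸ S)) =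
          (c : ℂ) • bas ((g * h : G₀) : G₀ ⧸ S)) ∧
      ∀ (g h : G₀) (hg : h⁻¹ * g * h ∈ S),
        (ρ g : L2 (G₀ ⧸ S) →L[ℂ] L2 (G₀ ⧸ S)) (bas (h : G₀ ⧸ S)) =
          (ζ ⟨h⁻¹ * g * h, hg⟩ : ℂ) • bas (h : G₀ ⧸ S) := by
  refine ⟨(Unitary.linearIsometryEquiv (𝕜 := ℂ) (H := L2 (G₀ ⧸ S))).symm.toMonoidHom.comp
    (n10_hom S ζ), ?_, ?_⟩
  · intro g h
    exact ⟨n10_kap S ζ g (h : G₀ ⧸ S), n10_op_bas S ζ g h⟩
  · intro g h hg
    have h1 : ((g * h : G₀) : G₀ ⧸ S) = (h : G₀ ⧸ S) := by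
      rw [eq_comm, QuotientGroup.eq, ← mul_assoc]
      exact hg
    have h2 := n10_op_bas S ζ g h
    rw [n10_kap_fix S ζ g h hg, h1] at h2
    exact h2

end Pool.Agent.LibND
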