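import Mathlib
import Pool.Agent.LibND.Defs

set_option autoImplicit false

/-! [ND N11] ONLY MATHLIB. Basic facts on `bas x` in `ℓ²(X)`.

PLAN. (a), (b): `lp.norm_single`, `lp.inner_single_left` / `lp.single_apply`.
(c) `⟪bas x, T f⟫ = c x * ⟪bas x, f⟫` for all `f`: both sides are continuous and linear in `f` and
agree on every `bas y`, and the span of these is dense (`lp.hasSum_single`, `f = ∑ f y • bas y`).
So `(T f) x = c x * f x`, `‖(T f) x‖ ≤ C * ‖f x‖` and `‖T f‖ ≤ C * ‖f‖`
(`lp.norm_le_of_forall...` or `lp.norm_rpow_eq_tsum` with `tsum_le_tsum`), then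
`ContinuousLinearMap.opNorm_le_bound`. -/

namespace Pool.Agent.LibND

universe u

private theorem n11_inner_left {X : Type u} (x : X) (f : L2 X) :
    inner ℂ (bas x) f = f x := by
  classical
  unfold bas
  have h := lp.inner_single_left (𝕜 := ℂ) (G := fun _ : X => ℂ) x (1 : ℂ) f
  simp only [RCLike.inner_apply, map_one, mul_one] at h
  convert h

private theorem n11_self {X : Type u} (x : X) : (bas x : L2 X) x = 1 := by
  classical
  unfold bas
  rw [lp.single_apply, Pi.single_eq_same]

private theorem n11_ne {X : Type u} (x y : X) (h : y ≠ x) : (bas x : L2 X) y = 0 := by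
  classical
  unfold bas
  rw [lp.single_apply, Pi.single_eq_of_ne h]

theorem norm_bas {X : Type u} (x : X) : ‖bas x‖ = 1 := by
  classical
  unfold bas
  rw [lp.norm_single (by norm_num)]
  exact norm_one

theorem inner_bas {X : Type u} (x y : X) (h : x ≠ y) : inner ℂ (bas x) (bas y) = 0 := by
  rw [n11_inner_left, n11_ne y x h]

private theorem n11_coord {X : Type u} (T : L2 X →L[ℂ] L2 X) (c : X → ℂ)
    (h : ∀ x, T (bas x) = c x • bas x) (f : L2 X) (x : X) : (T f) x = c x * f x := by
  classical
  have h1 : HasSum (fun i => f i • bas i) f := by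
    have h2 := lp.hasSum_single (E := fun _ : X => ℂ) (p := 2) (by norm_num) f
    convert h2 using 1
    funext i
    unfold bas
    rw [← lp.single_smul, smul_eq_mul, mul_one]
  have h3 : HasSum (fun i => T (f i • bas i)) (T f) := h1.mapL T
  have h4 : HasSum (fun i => inner ℂ (bas x) (T (f i • bas i))) (inner ℂ (bas x) (T f)) :=
    h3.mapL (innerSL ℂ (bas x))
  have h5 : (fun i => inner ℂ (bas x) (T (f i • bas i)))
      = fun i => if i = x then c x * f x else 0 := by
    funext i
    rw [map_smul, h i, inner_smul_right, inner_smul_right, n11_inner_left]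
    by_cases hi : i = x
    · subst hi
      rw [n11_self, if_pos rfl]
      ring
    · rw [n11_ne i x (fun hh => hi hh.symm), if_neg hi]
      simp
  rw [h5] at h4
  have h6 := hasSum_ite_eq x (c x * f x)
  have h7 := h4.unique h6
  rw [n11_inner_left] at h7
  exact h7

theorem N11 {X : Type u} (T : L2 X →L[ℂ] L2 X) (c : X → ℂ) (C : ℝ) (hC : 0 ≤ C)
    (h : ∀ x, T (bas x) = c x • bas x) (hc : ∀ x, ‖c x‖ ≤ C) : ‖T‖ ≤ C := by
  refine ContinuousLinearMap.opNorm_le_bound _ hC fun f => ?_
  have h2 : (0 : ℝ) < (2 : ENNReal).toReal := by norm_num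
  have hTf := lp.norm_rpow_eq_tsum h2 (T f)
  have hf := lp.norm_rpow_eq_tsum h2 f
  have hs := (lp.hasSum_norm h2 f).summable
  have hs' := (lp.hasSum_norm h2 (T f)).summable
  have hle : ‖T f‖ ^ (2 : ENNReal).toReal ≤ (C * ‖f‖) ^ (2 : ENNReal).toReal := by
    rw [hTf, Real.mul_rpow hC (norm_nonneg _), hf, ← tsum_mul_left]
    refine hs'.tsum_le_tsum (fun i => ?_) (hs.mul_left _)
    rw [n11_coord T c h f i, norm_mul, ← Real.mul_rpow hC (norm_nonneg _)]
    exact Real.rpow_le_rpow (by positivity)
      (mul_le_mul_of_nonneg_right (hc i) (norm_nonneg _)) h2.le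
  exact (Real.rpow_le_rpow_iff (norm_nonneg _) (by positivity) h2).1 hle

end Pool.Agent.LibND
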