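import Mathlib
import Pool.Agent.LibND.Defs

set_option autoImplicit false

/-! [ND N12] ONLY MATHLIB. Functions of finitely many unitaries which are simultaneously diagonal
in a family of representations (Stone-Weierstrass).

PLAN. Let `Y := ι → Circle` (compact Hausdorff). Let `P : StarSubalgebra ℂ C(Y, ℂ)` be the set of
all `p` such that `∃ y : A, ∀ ω b, π ω y (e b) = p (θ ω b) • e b ∧
π ω (star y) (e b) = conj (p (θ ω b)) • e b` (closed under `+`, `*`, scalars, `star`: exchange `y`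
and `star y`; `π ω` is a star algebra homomorphism). It contains the coordinate functions
`z ↦ (z i : ℂ)`: `y := a i`; since `star (π ω (a i)) * π ω (a i) = 1`, applying this to `e b` gives
`star (π ω (a i)) (e b) = (θ ω b i)⁻¹ • e b = conj (θ ω b i) • e b`. The coordinate functions
separate the points of `Y`, so `P.topologicalClosure = ⊤`
(`ContinuousMap.starSubalgebra_topologicalClosure_eq_top_of_separatesPoints`). Take `p ∈ P` with
`‖p - F‖ ≤ ε` and `c := p (θ ω b)`. -/

namespace Pool.Agent.LibND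

open ComplexConjugate

private def n12Rel {A : Type*} [CStarAlgebra A] {H : Type*} [NormedAddCommGroup H]
    [InnerProductSpace ℂ H] [CompleteSpace H] {Ω β ι : Type*}
    (π : Ω → (A →⋆ₐ[ℂ] (H →L[ℂ] H))) (e : β → H) (θ : Ω → β → ι → Circle)
    (p : C(ι → Circle, ℂ)) (y : A) : Prop :=
  ∀ ω b, π ω y (e b) = p (θ ω b) • e b ∧ π ω (star y) (e b) = conj (p (θ ω b)) • e b

private def n12Alg {A : Type*} [CStarAlgebra A] {H : Type*} [NormedAddCommGroup H]
    [InnerProductSpace ℂ H] [CompleteSpace H] {Ω β ι : Type*}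
    (π : Ω → (A →⋆ₐ[ℂ] (H →L[ℂ] H))) (e : β → H) (θ : Ω → β → ι → Circle) :
    StarSubalgebra ℂ C(ι → Circle, ℂ) where
  carrier := {p | ∃ y : A, n12Rel π e θ p y}
  mul_mem' := by
    rintro p q ⟨y, hy⟩ ⟨z, hz⟩
    refine ⟨y * z, fun ω b => ⟨?_, ?_⟩⟩
    · rw [map_mul, ContinuousLinearMap.mul_apply, (hz ω b).1, map_smul, (hy ω b).1, smul_smul,
        ContinuousMap.mul_apply, mul_comm]
    · rw [star_mul, map_mul, ContinuousLinearMap.mul_apply, (hy ω b).2, map_smul, (hz ω b).2,
        smul_smul, ContinuousMap.mul_apply, map_mul]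
  add_mem' := by
    rintro p q ⟨y, hy⟩ ⟨z, hz⟩
    refine ⟨y + z, fun ω b => ⟨?_, ?_⟩⟩
    · rw [map_add, ContinuousLinearMap.add_apply, (hz ω b).1, (hy ω b).1,
        ContinuousMap.add_apply, add_smul]
    · rw [star_add, map_add, ContinuousLinearMap.add_apply, (hz ω b).2, (hy ω b).2,
        ContinuousMap.add_apply, map_add, add_smul]
  algebraMap_mem' := by
    intro r
    refine ⟨algebraMap ℂ A r, fun ω b => ⟨?_, ?_⟩⟩
    · rw [AlgHomClass.commutes, Algebra.algebraMap_eq_smul_one, ContinuousLinearMap.smul_apply,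
        ContinuousLinearMap.one_apply]
      simp
    · rw [← algebraMap_star_comm, AlgHomClass.commutes, Algebra.algebraMap_eq_smul_one,
        ContinuousLinearMap.smul_apply, ContinuousLinearMap.one_apply]
      simp
  star_mem' := by
    rintro p ⟨y, hy⟩
    refine ⟨star y, fun ω b => ⟨?_, ?_⟩⟩
    · rw [(hy ω b).2]; rfl
    · rw [star_star, (hy ω b).1, ContinuousMap.star_apply]
      simp

theorem N12 {A : Type*} [CStarAlgebra A] {H : Type*} [NormedAddCommGroup H]
    [InnerProductSpace ℂ H] [CompleteSpace H] {Ω β ι : Type*} [Finite ι]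
    (π : Ω → (A →⋆ₐ[ℂ] (H →L[ℂ] H))) (e : β → H) (a : ι → unitary A) (θ : Ω → β → ι → Circle)
    (h : ∀ ω b i, π ω (a i : A) (e b) = (θ ω b i : ℂ) • e b)
    (F : C(ι → Circle, ℂ)) (ε : ℝ) (hε : 0 < ε) :
    ∃ y : A, ∀ ω b, ∃ c : ℂ, π ω y (e b) = c • e b ∧ π ω (star y) (e b) = conj c • e b ∧
      ‖c - F (θ ω b)‖ ≤ ε := by
  have hcoord : ∀ i : ι, (⟨fun z : ι → Circle => (z i : ℂ), by fun_prop⟩ : C(ι → Circle, ℂ)) ∈
      n12Alg π e θ := by
    intro i
    refine ⟨(a i : A), fun ω b => ⟨h ω b i, ?_⟩⟩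
    have h1 : star ((a i : A)) * (a i : A) = 1 := Unitary.coe_star_mul_self (a i)
    have h2 : π ω (star (a i : A)) (π ω (a i : A) (e b)) = e b := by
      rw [← ContinuousLinearMap.mul_apply, ← map_mul, h1, map_one]
      rfl
    rw [h ω b i, map_smul] at h2
    have hc : conj ((θ ω b i : Circle) : ℂ) * ((θ ω b i : Circle) : ℂ) = 1 := by
      rw [mul_comm, Complex.mul_conj]
      simp
    calc π ω (star (a i : A)) (e b)
        = (conj ((θ ω b i : Circle) : ℂ) * ((θ ω b i : Circle) : ℂ)) •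
            π ω (star (a i : A)) (e b) := by rw [hc, one_smul]
      _ = conj ((θ ω b i : Circle) : ℂ) • e b := by rw [mul_smul, h2]
  have hsep : (n12Alg π e θ).toSubalgebra.SeparatesPoints := by
    intro z w hzw
    obtain ⟨i, hi⟩ := Function.ne_iff.mp hzw
    refine ⟨fun z : ι → Circle => (z i : ℂ), ⟨_, hcoord i, rfl⟩, ?_⟩
    intro heq
    exact hi (Circle.coe_injective heq)
  have htop := ContinuousMap.starSubalgebra_topologicalClosure_eq_top_of_separatesPoints
    (n12Alg π e θ) hsep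
  have hF : F ∈ closure ((n12Alg π e θ : StarSubalgebra ℂ C(ι → Circle, ℂ)) :
      Set C(ι → Circle, ℂ)) := by
    have : F ∈ (n12Alg π e θ).topologicalClosure := by rw [htop]; trivial
    exact this
  obtain ⟨p, ⟨y, hy⟩, hp⟩ := Metric.mem_closure_iff.mp hF ε hε
  refine ⟨y, fun ω b => ⟨p (θ ω b), (hy ω b).1, (hy ω b).2, ?_⟩⟩
  have h3 : dist (F (θ ω b)) (p (θ ω b)) ≤ dist F p := ContinuousMap.dist_apply_le_dist _
  rw [← dist_eq_norm, dist_comm]
  exact (h3.trans hp.le)

end Pool.Agent.LibND
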