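import Mathlib
import Pool.Agent.LibND.Defs

set_option autoImplicit false

/-! [ND N13] ONLY MATHLIB. A fine partition of unity on the cube, whose square roots are the
restrictions of functions on `ι → Circle` supported near the image of the cube.

PLAN. `Cub k` is compact: choose a finite set `p 1, ..., p m ∈ Cub k` with every `x ∈ Cub k` at
distance `< δ / 2` of some `p l` (`IsCompact.finite_cover_balls`). `h l x := max 0 (δ/2 - dist x
(p l))`, `f l x := h l x / ∑ l', h l' x` (the sum is positive on `Cub k`). Then `f l ≥ 0`,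
`∑ f l = 1`, and `f l x ≠ 0`, `f l y ≠ 0` give `dist x y < δ`. `f l` is continuous on `Cub k`.
`Θ` restricted to the compact `Cub k` is a closed embedding into `ι → Circle` (continuous injective
from compact to Hausdorff, `Continuous.isClosedEmbedding`). Tietze
(`ContinuousMap.exists_extension_forall_mem_of_isClosedEmbedding`, values in `Set.Icc 0 1`) extends
`√(f l)` to `R' l : C(ι → Circle, ℝ)` with `R' l (Θ x) = √(f l x)`. Let
`R l z := R' l z * max 0 (1 - infDist z (Θ '' Cub k) / ε)` (`Cub k` is nonempty and compact, so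
`infDist` is attained and `≥ ε` under the hypothesis of the last clause). -/

namespace Pool.Agent.LibND


/-- The cube is compact. -/
private theorem n13_compact (k : ℕ) : IsCompact (Cub k) := by
  have h : Cub k = Set.pi Set.univ (fun _ : Fin k => Set.Icc (0 : ℝ) 1) := by
    ext x
    simp only [Cub, Set.mem_ofPred_eq, Set.mem_pi, Set.mem_univ, true_implies]
  rw [h]
  exact isCompact_univ_pi fun _ => isCompact_Icc

private theorem n13_nonempty (k : ℕ) : (Cub k).Nonempty :=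
  ⟨fun _ => 0, fun _ => ⟨le_refl _, zero_le_one⟩⟩

/-- A fine partition of unity on the cube. -/
private theorem n13_part (k : ℕ) (δ : ℝ) (hδ : 0 < δ) :
    ∃ (m : ℕ) (f : Fin m → (Fin k → ℝ) → ℝ),
      (∀ l, ContinuousOn (f l) (Cub k)) ∧
      (∀ l, ∀ x ∈ Cub k, 0 ≤ f l x) ∧ (∀ x ∈ Cub k, ∑ l, f l x = 1) ∧
      (∀ l, ∀ x ∈ Cub k, ∀ y ∈ Cub k, f l x ≠ 0 → f l y ≠ 0 → dist x y < δ) := by
  obtain ⟨t, -, htf, htc⟩ := (n13_compact k).finite_cover_balls (half_pos hδ)
  let T : Finset (Fin k → ℝ) := htf.toFinset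
  let E : T ≃ Fin T.card := T.equivFin
  let p : Fin T.card → (Fin k → ℝ) := fun l => (E.symm l).1
  let h : Fin T.card → (Fin k → ℝ) → ℝ := fun l x => max 0 (δ / 2 - dist x (p l))
  have hcont : ∀ l, Continuous (h l) := fun l => by
    dsimp only [h]
    fun_prop
  have h0 : ∀ l x, 0 ≤ h l x := fun l x => le_max_left _ _
  have hpos : ∀ x ∈ Cub k, 0 < ∑ l, h l x := by
    intro x hx
    have hx' := htc hx
    simp only [Set.mem_iUnion, exists_prop] at hx'
    obtain ⟨q, hq, hxq⟩ := hx'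
    have hqT : q ∈ T := htf.mem_toFinset.2 hq
    refine Finset.sum_pos' (fun l _ => h0 l x) ⟨E ⟨q, hqT⟩, Finset.mem_univ _, ?_⟩
    have hpq : p (E ⟨q, hqT⟩) = q := by simp [p]
    dsimp only [h]
    rw [hpq]
    refine lt_max_of_lt_right ?_
    have := Metric.mem_ball.1 hxq
    linarith
  refine ⟨T.card, fun l x => h l x / ∑ l', h l' x, ?_, ?_, ?_, ?_⟩
  · intro l
    refine (hcont l).continuousOn.div ?_ fun x hx => (hpos x hx).ne'
    exact (continuous_finsetSum _ fun l _ => hcont l).continuousOn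
  · intro l x hx
    exact div_nonneg (h0 l x) (hpos x hx).le
  · intro x hx
    rw [← Finset.sum_div]
    exact div_self (hpos x hx).ne'
  · intro l x hx y hy h1 h2
    have key : ∀ z : Fin k → ℝ, h l z / ∑ l', h l' z ≠ 0 → dist z (p l) < δ / 2 := by
      intro z hz
      by_contra hc
      apply hz
      have : h l z = 0 := by
        dsimp only [h]
        exact max_eq_left (by linarith [not_lt.1 hc])
      rw [this, zero_div]
    have h3 := key x h1
    have h4 := key y h2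
    have h5 := dist_triangle_right x y (p l)
    linarith

theorem N13 {k : ℕ} {ι : Type*} [Fintype ι] (Θ : (Fin k → ℝ) → ι → Circle)
    (hΘ : ContinuousOn Θ (Cub k)) (hinj : Set.InjOn Θ (Cub k)) (ε δ : ℝ) (hε : 0 < ε)
    (hδ : 0 < δ) :
    ∃ (m : ℕ) (f : Fin m → (Fin k → ℝ) → ℝ) (R : Fin m → C(ι → Circle, ℝ)),
      (∀ l, ∀ x ∈ Cub k, 0 ≤ f l x) ∧ (∀ x ∈ Cub k, ∑ l, f l x = 1) ∧
      (∀ l, ∀ x ∈ Cub k, ∀ y ∈ Cub k, f l x ≠ 0 → f l y ≠ 0 → dist x y < δ) ∧
      (∀ l, ∀ x ∈ Cub k, R l (Θ x) ^ 2 = f l x) ∧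
      (∀ l z, (∀ x ∈ Cub k, ε ≤ dist z (Θ x)) → R l z = 0) ∧
      ∀ l z, 0 ≤ R l z ∧ R l z ≤ 1 := by
  obtain ⟨m, f, hfc, hf0, hf1, hfd⟩ := n13_part k δ hδ
  have : CompactSpace (Cub k) := isCompact_iff_compactSpace.1 (n13_compact k)
  have hec : Continuous (fun x : Cub k => Θ x.1) := hΘ.domRestrict
  have hei : Function.Injective (fun x : Cub k => Θ x.1) := hinj.injective
  have hemb : Topology.IsClosedEmbedding (fun x : Cub k => Θ x.1) := hec.isClosedEmbedding hei
  have hf1' : ∀ l, ∀ x ∈ Cub k, f l x ≤ 1 := by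
    intro l x hx
    rw [← hf1 x hx]
    exact Finset.single_le_sum (fun l _ => hf0 l x hx) (Finset.mem_univ l)
  have hT : ∀ l : Fin m, ∃ g : C(ι → Circle, ℝ), (∀ y, g y ∈ Set.Icc (0 : ℝ) 1) ∧
      ∀ x ∈ Cub k, g (Θ x) = √(f l x) := by
    intro l
    let F : C(Cub k, ℝ) := ⟨fun x => √(f l x.1), (hfc l).domRestrict.sqrt⟩
    have hF : ∀ x, F x ∈ Set.Icc (0 : ℝ) 1 := fun x =>
      ⟨Real.sqrt_nonneg _, Real.sqrt_le_one.2 (hf1' l x.1 x.2)⟩
    obtain ⟨g, hg, hgF⟩ := F.exists_extension_forall_mem_of_isClosedEmbedding hF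
      ⟨0, le_refl _, zero_le_one⟩ hemb
    exact ⟨g, hg, fun x hx => congrFun hgF ⟨x, hx⟩⟩
  choose g hg hgf using hT
  let D : C(ι → Circle, ℝ) :=
    ⟨fun z => max 0 (1 - Metric.infDist z (Θ '' Cub k) / ε), by
      have := Metric.continuous_infDist_pt (Θ '' Cub k)
      fun_prop⟩
  have hD : ∀ z, D z = max 0 (1 - Metric.infDist z (Θ '' Cub k) / ε) := fun _ => rfl
  have hD0 : ∀ z, 0 ≤ D z := fun z => le_max_left _ _
  have hD1 : ∀ z, D z ≤ 1 := by
    intro z
    rw [hD]
    refine max_le zero_le_one ?_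
    have : 0 ≤ Metric.infDist z (Θ '' Cub k) / ε := div_nonneg Metric.infDist_nonneg hε.le
    linarith
  refine ⟨m, f, fun l => g l * D, hf0, hf1, hfd, ?_, ?_, ?_⟩
  · intro l x hx
    have h1 : D (Θ x) = 1 := by
      rw [hD, Metric.infDist_zero_of_mem (Set.mem_image_of_mem Θ hx)]
      norm_num
    rw [ContinuousMap.mul_apply, h1, hgf l x hx, mul_one, Real.sq_sqrt (hf0 l x hx)]
  · intro l z hz
    have h1 : ε ≤ Metric.infDist z (Θ '' Cub k) := by
      rw [Metric.le_infDist ((n13_nonempty k).image Θ)]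
      rintro _ ⟨x, hx, rfl⟩
      exact hz x hx
    have h2 : D z = 0 := by
      rw [hD]
      refine max_eq_left ?_
      have : 1 ≤ Metric.infDist z (Θ '' Cub k) / ε := (one_le_div hε).2 h1
      linarith
    rw [ContinuousMap.mul_apply, h2, mul_zero]
  · intro l z
    rw [ContinuousMap.mul_apply]
    exact ⟨mul_nonneg (hg l z).1 (hD0 z), mul_le_one₀ (hg l z).2 (hD0 z) (hD1 z)⟩

end Pool.Agent.LibND
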