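import Mathlib
import Pool.Agent.LibND.Defs

set_option autoImplicit false

/-! [ND N14] ONLY MATHLIB. Continuity of the vector states follows from continuity on the group
elements.

PLAN. `|⟪ξ, π ω a ξ⟫ - ⟪ξ, π ω b ξ⟫| ≤ ‖ξ‖ ^ 2 * ‖a - b‖` (star homomorphisms are contractive:
`StarAlgHom.norm_apply_le` / `NonUnitalStarAlgHom.norm_apply_le`). For `a` in the span of `U g` the
function is continuous on `s` (finite linear combination, `Submodule.span_induction`); for general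
`a` it is a locally uniform limit (`continuousOn_of_uniform_approx_of_continuousOn`) by density. -/

namespace Pool.Agent.LibND

private lemma N14_bd {A : Type*} [CStarAlgebra A] {H : Type*} [NormedAddCommGroup H]
    [InnerProductSpace ℂ H] [CompleteSpace H] (π : A →⋆ₐ[ℂ] (H →L[ℂ] H)) (ξ : H) (a b : A) :
    dist (inner ℂ ξ (π a ξ)) (inner ℂ ξ (π b ξ)) ≤ ‖ξ‖ ^ 2 * ‖a - b‖ := by
  rw [dist_eq_norm, ← inner_sub_right]
  have h1 : π a ξ - π b ξ = π (a - b) ξ := by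
    rw [map_sub]; rfl
  rw [h1]
  calc ‖inner ℂ ξ (π (a - b) ξ)‖ ≤ ‖ξ‖ * ‖π (a - b) ξ‖ := norm_inner_le_norm _ _
    _ ≤ ‖ξ‖ * (‖π (a - b)‖ * ‖ξ‖) := by gcongr; exact (π (a - b)).le_opNorm ξ
    _ ≤ ‖ξ‖ * (‖a - b‖ * ‖ξ‖) := by
        gcongr
        exact NonUnitalStarAlgHom.norm_apply_le π (a - b)
    _ = ‖ξ‖ ^ 2 * ‖a - b‖ := by ring

private lemma N14_span {A : Type*} [CStarAlgebra A] {H : Type*} [NormedAddCommGroup H]
    [InnerProductSpace ℂ H] [CompleteSpace H] {G : Type*} [Group G] (U : G →* unitary A)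
    {Ω : Type*} [TopologicalSpace Ω] (s : Set Ω) (π : Ω → (A →⋆ₐ[ℂ] (H →L[ℂ] H))) (ξ : H)
    (h : ∀ g, ContinuousOn (fun ω => inner ℂ ξ (π ω (U g : A) ξ)) s) (a : A)
    (ha : a ∈ Submodule.span ℂ (Set.range fun g => (U g : A))) :
    ContinuousOn (fun ω => inner ℂ ξ (π ω a ξ)) s := by
  induction ha using Submodule.span_induction with
  | mem x hx =>
    obtain ⟨g, rfl⟩ := hx
    exact h g
  | zero =>
    have : (fun ω => inner ℂ ξ (π ω 0 ξ)) = fun _ => (0 : ℂ) := by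
      funext ω
      rw [map_zero]
      simp
    rw [this]
    exact continuousOn_const
  | add x y hx hy h1 h2 =>
    have : (fun ω => inner ℂ ξ (π ω (x + y) ξ))
        = fun ω => inner ℂ ξ (π ω x ξ) + inner ℂ ξ (π ω y ξ) := by
      funext ω
      rw [map_add, ← inner_add_right]
      rfl
    rw [this]
    exact h1.add h2
  | smul c x hx h1 =>
    have : (fun ω => inner ℂ ξ (π ω (c • x) ξ)) = fun ω => c * inner ℂ ξ (π ω x ξ) := by
      funext ω
      rw [map_smul, ← inner_smul_right]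
      rfl
    rw [this]
    exact continuousOn_const.mul h1

theorem N14 {A : Type*} [CStarAlgebra A] {H : Type*} [NormedAddCommGroup H]
    [InnerProductSpace ℂ H] [CompleteSpace H] {G : Type*} [Group G] (U : G →* unitary A)
    (hd : Dense (Submodule.span ℂ (Set.range fun g => (U g : A)) : Set A))
    {Ω : Type*} [TopologicalSpace Ω] (s : Set Ω) (π : Ω → (A →⋆ₐ[ℂ] (H →L[ℂ] H))) (ξ : H)
    (h : ∀ g, ContinuousOn (fun ω => inner ℂ ξ (π ω (U g : A) ξ)) s) (a : A) :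
    ContinuousOn (fun ω => inner ℂ ξ (π ω a ξ)) s := by
  apply continuousOn_of_uniform_approx_of_continuousOn
  intro u hu
  obtain ⟨ε, hε, hεu⟩ := Metric.mem_uniformity_dist.mp hu
  have hp : (0 : ℝ) < ‖ξ‖ ^ 2 + 1 := by positivity
  have hδ : 0 < ε / (‖ξ‖ ^ 2 + 1) := by positivity
  obtain ⟨b, hb, hab⟩ := Metric.dense_iff.mp hd a (ε / (‖ξ‖ ^ 2 + 1)) hδ
  refine ⟨fun ω => inner ℂ ξ (π ω b ξ), N14_span U s π ξ h b hab, fun ω _ => hεu ?_⟩
  refine lt_of_le_of_lt (N14_bd (π ω) ξ a b) ?_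
  have h1 : ‖a - b‖ < ε / (‖ξ‖ ^ 2 + 1) := by
    rw [← dist_eq_norm, dist_comm]; exact Metric.mem_ball.mp hb
  have h2 : ‖a - b‖ * (‖ξ‖ ^ 2 + 1) < ε := (lt_div_iff₀ hp).mp h1
  nlinarith [norm_nonneg (a - b), sq_nonneg ‖ξ‖]

end Pool.Agent.LibND
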