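import Mathlib
import Pool.Agent.LibND.N08
import Pool.Agent.LibND.N10
import Pool.Agent.LibND.N11
import Pool.Agent.LibND.N12
import Pool.Agent.LibND.N13
import Pool.Agent.LibND.N14

set_option autoImplicit false

/-! The criterion for lower bounds of the nuclear dimension of a group C*-algebra. -/

namespace Pool.Agent.LibND

universe u w

open ComplexConjugate

private theorem rk_bas {X : Type u} (x y : X) :
    rk (bas x) (bas y) = (open Classical in if y = x then (1 : ℂ) else 0) • bas y := by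
  classical
  have h : rk (bas x) (bas y) = (inner ℂ (bas x) (bas y)) • bas x := rfl
  rw [h]
  by_cases hxy : y = x
  · subst hxy
    rw [if_pos rfl]
    congr 1
    rw [inner_self_eq_norm_sq_to_K, norm_bas]
    simp
  · rw [if_neg hxy, inner_bas x y (Ne.symm hxy)]
    simp

theorem criterion {G G₀ : Type u} [Group G] [Group G₀] (p : G →* G₀)
    (hp : Function.Surjective p) {A : Type w} [CStarAlgebra A] [PartialOrder A]
    [StarOrderedRing A] (U : G →* unitary A) (hA : IsGroupCStar G A U)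
    (M S : Subgroup G₀) [M.Normal] (hMS : M ≤ S) (k : ℕ) (ζ : (Fin k → ℝ) → (S →* Circle))
    (hζ : ∀ g : S, ContinuousOn (fun s => ζ s g) (Cub k)) (E : Finset M)
    (hinj : ∀ s ∈ Cub k, ∀ t ∈ Cub k,
      (∀ m ∈ E, ζ s (Subgroup.inclusion hMS m) = ζ t (Subgroup.inclusion hMS m)) → s = t)
    (ε : ℝ) (hε : 0 < ε)
    (hsep : ∀ s ∈ Cub k, ∀ t ∈ Cub k, ∀ g, g ∉ S → ∃ m ∈ E,
      ε ≤ dist (ζ s (Subgroup.inclusion hMS (MulAut.conjNormal g⁻¹ m)))
        (ζ t (Subgroup.inclusion hMS m)))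
    (n : ℕ) (hn : n < k) : ¬ NucDimLE A n := by
  classical
  choose ρ hρ1 hρ2 using fun s => N10 S (ζ s)
  choose π hπ using fun s => hA.rep (L2 (G₀ ⧸ S)) ((ρ s).comp p)
  choose lift hlift using hp
  have hπρ : ∀ s g, π s (U g : A) = (ρ s (p g) : L2 (G₀ ⧸ S) →L[ℂ] L2 (G₀ ⧸ S)) := fun s g => hπ s g
  have hmem : ∀ (h : G₀) (m : M), h⁻¹ * (m : G₀) * h ∈ S := fun h m => by
    have := hMS (‹M.Normal›.conj_mem m m.2 h⁻¹)
    rwa [inv_inv] at this
  have hconj : ∀ (h : G₀) (m : M), Subgroup.inclusion hMS (MulAut.conjNormal h⁻¹ m) =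
      ⟨h⁻¹ * (m : G₀) * h, hmem h m⟩ := by
    intro h m
    apply Subtype.ext
    simp
  have hζS : ∀ s (h : G₀) (hh : h ∈ S) (m : M),
      ζ s ⟨h⁻¹ * (m : G₀) * h, hmem h m⟩ = ζ s (Subgroup.inclusion hMS m) := by
    intro s h hh m
    have : (⟨h⁻¹ * (m : G₀) * h, hmem h m⟩ : S) =
        (⟨h, hh⟩ : S)⁻¹ * Subgroup.inclusion hMS m * ⟨h, hh⟩ := Subtype.ext rfl
    rw [this, map_mul, map_mul, map_inv, mul_comm, mul_inv_cancel_left]
  refine core k n hn π (bas ((1 : G₀) : G₀ ⧸ S)) (norm_bas _) ?_ ?_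
  · refine N14 U hA.dense' (Cub k) π _ fun g => ?_
    by_cases hg : p g ∈ S
    · have hg' : (1 : G₀)⁻¹ * p g * 1 ∈ S := by simpa using hg
      have h1 : ∀ s, inner ℂ (bas ((1 : G₀) : G₀ ⧸ S)) (π s (U g : A) (bas ((1 : G₀) : G₀ ⧸ S))) =
          (ζ s ⟨(1 : G₀)⁻¹ * p g * 1, hg'⟩ : ℂ) := by
        intro s
        rw [hπρ, hρ2 s (p g) 1 hg', inner_smul_right, inner_self_eq_norm_sq_to_K, norm_bas]
        simp
      simp only [h1]
      exact continuous_subtype_val.comp_continuousOn (hζ ⟨(1 : G₀)⁻¹ * p g * 1, hg'⟩)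
    · have h1 : ∀ s, inner ℂ (bas ((1 : G₀) : G₀ ⧸ S)) (π s (U g : A) (bas ((1 : G₀) : G₀ ⧸ S))) =
          (0 : ℂ) := by
        intro s
        obtain ⟨c, hc⟩ := hρ1 s (p g) 1
        rw [hπρ, hc, inner_smul_right, inner_bas, mul_zero]
        intro h
        rw [QuotientGroup.eq] at h
        apply hg
        simpa using h
      simp only [h1]
      exact continuousOn_const
  · intro δ hδ
    obtain ⟨m, f, R, h1, h2, h3, h4, h5, h6⟩ := N13 (ι := E)
      (fun s (x : E) => ζ s (Subgroup.inclusion hMS x.1))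
      (continuousOn_pi.2 fun x => hζ _)
      (fun s hs t ht hst => hinj s hs t ht fun x hx => congrFun hst ⟨x, hx⟩) ε δ hε hδ
    refine ⟨m, f, h1, h2, h3, fun ε' hε' => ?_⟩
    obtain ⟨ε₂, hε₂0, hε₂1, hε₂⟩ : ∃ ε₂ : ℝ, 0 < ε₂ ∧ ε₂ ≤ 1 ∧ 3 * ε₂ ≤ ε' :=
      ⟨min 1 (ε' / 3), by positivity, min_le_left _ _, by
        linarith [min_le_right 1 (ε' / 3)]⟩
    have hy := fun l => N12 (ι := E) π (fun h : G₀ => bas (h : G₀ ⧸ S))
      (fun x => U (lift (x.1 : G₀)))
      (fun s h x => ζ s (Subgroup.inclusion hMS (MulAut.conjNormal h⁻¹ x.1)))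
      (fun s h x => by
        rw [hπρ, hlift, hconj]
        exact hρ2 s x.1 h (hmem h x.1))
      ⟨fun z => (R l z : ℂ), Complex.continuous_ofReal.comp (R l).continuous⟩ ε₂ hε₂0
    choose y hy using hy
    refine ⟨fun l => star (y l) * y l, fun l => star_mul_self_nonneg _, fun l s hs => ?_⟩
    have hx : ∀ x : G₀ ⧸ S, ∃ c : ℂ,
        (π s (star (y l) * y l) - (f l s : ℂ) • rk (bas ((1 : G₀) : G₀ ⧸ S))) (bas x) =
          c • bas x ∧ ‖c‖ ≤ ε' := by
      intro x
      obtain ⟨h, rfl⟩ := QuotientGroup.mk_surjective x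
      obtain ⟨c, hc1, hc2, hc3⟩ := hy l s h
      refine ⟨c * conj c - (f l s : ℂ) * (if ((h : G₀) : G₀ ⧸ S) = ((1 : G₀) : G₀ ⧸ S) then 1 else 0),
        ?_, ?_⟩
      · rw [ContinuousLinearMap.sub_apply, ContinuousLinearMap.smul_apply, rk_bas, map_mul,
          ContinuousLinearMap.mul_apply, hc1, map_smul, hc2, smul_smul, smul_smul, ← sub_smul]
        congr!
      · rw [Complex.mul_conj, Complex.normSq_eq_norm_sq]
        set z : E → Circle := fun x => ζ s (Subgroup.inclusion hMS (MulAut.conjNormal h⁻¹ x.1))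
          with hz
        have hc3' : ‖c - (R l z : ℂ)‖ ≤ ε₂ := hc3
        have hR := h6 l z
        have hnR : |‖c‖ - R l z| ≤ ε₂ := by
          have := abs_norm_sub_norm_le c (R l z : ℂ)
          rw [Complex.norm_real, Real.norm_of_nonneg hR.1] at this
          exact this.trans hc3'
        obtain ⟨hn1, hn2⟩ := abs_le.1 hnR
        by_cases hh : h ∈ S
        · have hz1 : z = fun x : E => ζ s (Subgroup.inclusion hMS x.1) := by
            funext x
            rw [hz]
            simp only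
            rw [hconj, hζS s h hh]
          have hf := h4 l s hs
          rw [← hz1] at hf
          rw [if_pos (by rw [QuotientGroup.eq]; simpa using hh), mul_one, ← hf, ← Complex.ofReal_sub,
            Complex.norm_real, Real.norm_eq_abs, abs_le]
          have hc0 := norm_nonneg c
          constructor <;> nlinarith
        · have hR0 : R l z = 0 := by
            apply h5
            intro t ht
            obtain ⟨x, hx, hxd⟩ := hsep s hs t ht h hh
            exact hxd.trans (dist_le_pi_dist z (fun x : E => ζ t (Subgroup.inclusion hMS x.1)) ⟨x, hx⟩)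
          rw [if_neg (by rw [QuotientGroup.eq]; simpa using hh), mul_zero, sub_zero,
            Complex.norm_real, Real.norm_eq_abs, abs_of_nonneg (by positivity)]
          have hc0 := norm_nonneg c
          rw [hR0] at hn2
          nlinarith
    choose c hc hcn using hx
    exact N11 _ c ε' hε'.le hc hcn

end Pool.Agent.LibND
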