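import Mathlib
import Pool.Agent.LibND.Defs

set_option autoImplicit false

/-! [ND N20] ONLY MATHLIB. Circle-valued characters and real-valued homomorphisms extend from
subgroups of abelian groups.

PLAN. (a) `Circle` is divisible, so it is an injective abelian group: `Module.Baer` for
`Additive Circle` over `ℤ` (`Module.Baer.injective`, `Module.Baer.extension_property_addMonoidHom`;
`Module.Baer.of_divisible` / `AddCommGrpCat.injective_of_divisible`, or via
`AddCircle (1 : ℝ) ≃+ Additive Circle`, `AddCircle.homeomorphCircle'`).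
(b) `ℝ` is divisible too. By `hv`, `B` and the `v i` generate the direct sum
`B ⊕ ⨁ ℤ v i`: the map `ψ : B × (I →₀ ℤ) → A`, `(b, c) ↦ b + c.sum fun i z => z • v i` is injective.
Extend `(b, c) ↦ c.sum fun i z => z * r i` along `ψ` (`Module.Baer.extension_property_addMonoidHom`
for an injective `ψ`). -/

namespace Pool.Agent.LibND

private theorem n20_baer : Module.Baer ℤ (Additive Circle) := by
  have hs : Function.Surjective (fun x : ℝ => Additive.ofMul (Circle.exp x)) := fun z =>
    ⟨Complex.arg ((Additive.toMul z : Circle) : ℂ), congrArg Additive.ofMul (Circle.exp_arg (Additive.toMul z))⟩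
  let f : ℝ →+ Additive Circle :=
    { toFun := fun x => Additive.ofMul (Circle.exp x)
      map_zero' := by rw [Circle.exp_zero]; rfl
      map_add' := fun x y => by rw [Circle.exp_add]; rfl }
  haveI : DivisibleBy (Additive Circle) ℤ :=
    Function.Surjective.divisibleBy (α := ℤ) (A := ℝ) f hs (fun a n => map_zsmul f n a)
  exact Module.Baer.of_divisible _

theorem ext_circle {A : Type*} [AddCommGroup A] (B : AddSubgroup A) (χ : AddChar B Circle) :
    ∃ χ' : AddChar A Circle, ∀ b : B, χ' (b : A) = χ b := by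
  obtain ⟨h, hh⟩ := n20_baer.extension_property_addMonoidHom B.subtype Subtype.val_injective
    (AddChar.toAddMonoidHomEquiv χ)
  refine ⟨AddChar.toAddMonoidHomEquiv.symm h, fun b => ?_⟩
  have h1 := DFunLike.congr_fun hh b
  rw [AddChar.toAddMonoidHomEquiv_symm_apply]
  have h2 : h (b : A) = Additive.ofMul (χ b) := h1
  rw [h2]
  rfl

theorem ext_real {A : Type*} [AddCommGroup A] (B : AddSubgroup A) {I : Type*} (v : I → A)
    (hv : ∀ c : I →₀ ℤ, (c.sum fun i z => z • v i) ∈ B → c = 0) (r : I → ℝ) :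
    ∃ η : A →+ ℝ, (∀ b ∈ B, η b = 0) ∧ ∀ i, η (v i) = r i := by
  classical
  let s : (I →₀ ℤ) →+ A := Finsupp.liftAddHom (fun i => (zmultiplesHom A (v i)))
  have hs : ∀ c : I →₀ ℤ, s c = c.sum fun i z => z • v i := by
    intro c
    show Finsupp.liftAddHom (fun i => (zmultiplesHom A (v i))) c = _
    rw [Finsupp.liftAddHom_apply]
    rfl
  let ρ : (I →₀ ℤ) →+ ℝ := Finsupp.liftAddHom (fun i => (zmultiplesHom ℝ (r i)))
  let ψ : (B × (I →₀ ℤ)) →+ A := (B.subtype.comp (AddMonoidHom.fst _ _)) + s.comp (AddMonoidHom.snd _ _)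
  have hψ : Function.Injective ψ := by
    rw [injective_iff_map_eq_zero]
    rintro ⟨b, c⟩ h
    have h1 : (b : A) + s c = 0 := h
    have h2 : s c ∈ B := by
      have : s c = -(b : A) := by
        rw [eq_neg_iff_add_eq_zero, add_comm]; exact h1
      rw [this]
      exact B.neg_mem b.2
    have h3 : c = 0 := hv c (by rw [← hs]; exact h2)
    subst h3
    rw [map_zero, add_zero] at h1
    have h4 : b = 0 := Subtype.ext h1
    rw [h4]
    rfl
  have hb : Module.Baer ℤ ℝ := Module.Baer.of_divisible _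
  obtain ⟨η, hη⟩ := hb.extension_property_addMonoidHom ψ hψ (ρ.comp (AddMonoidHom.snd _ _))
  refine ⟨η, fun b hb' => ?_, fun i => ?_⟩
  · have h1 := DFunLike.congr_fun hη ((⟨b, hb'⟩ : B), (0 : I →₀ ℤ))
    have h2 : ψ ((⟨b, hb'⟩ : B), (0 : I →₀ ℤ)) = b := by
      show b + s 0 = b
      rw [map_zero, add_zero]
    have h3 : η (ψ ((⟨b, hb'⟩ : B), (0 : I →₀ ℤ))) = ρ 0 := h1
    rw [h2, map_zero] at h3
    exact h3
  · have h1 := DFunLike.congr_fun hη ((0 : B), Finsupp.single i (1 : ℤ))
    have h2 : ψ ((0 : B), Finsupp.single i (1 : ℤ)) = v i := by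
      show ((0 : B) : A) + s (Finsupp.single i 1) = v i
      rw [hs, Finsupp.sum_single_index (by rw [zero_smul]), one_smul]
      simp
    have h3 : η (ψ ((0 : B), Finsupp.single i (1 : ℤ))) = ρ (Finsupp.single i (1 : ℤ)) := h1
    rw [h2] at h3
    rw [h3]
    show Finsupp.liftAddHom (fun i => (zmultiplesHom ℝ (r i))) (Finsupp.single i (1 : ℤ)) = r i
    rw [Finsupp.liftAddHom_apply_single]
    simp

end Pool.Agent.LibND
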