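import Mathlib
import Pool.Agent.LibND.N15
import Pool.Agent.LibND.N20

set_option autoImplicit false

/-! [ND N22] Criterion for algebraic actions.

PLAN. Apply `criterion` with `M = S = j.range` (normal: `hext.exact`, a kernel), and, for
`s : Fin k → ℝ`, `ζ s (j (ofAdd x)) := χ x * ex (∑ i, s i * η i x / 4)` where `η i : A →+ ℝ` is given
by `ext_real` (`I = Fin k`, `v = a`, `r = Pi.single i 1`): `η i = 0` on `B`, `η i (a l) = δ_{il}`
(`ha` in `Fin k →₀ ℤ` form). `ζ s` is a well defined homomorphism on `j.range` as `j` is injective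
(compose with the inverse of `MonoidHom.ofInjective hext.inj`).
Continuity in `s`: clear. `E := {j (a l) | l} ∪ {j b | b ∈ E₀}` as elements of `M`.
Injectivity: at `j (a l)`: `χ (a l) * ex (s l / 4)`, and `r ↦ ex (r / 4)` is injective on `[0, 1]`.
Separation: `g ∉ M` means `γ := π g ≠ 1`; `γ⁻¹ ≠ 1`, so some `b ∈ E₀` has
`ε ≤ dist (χ (α γ⁻¹ b)) (χ b)`; `MulAut.conjNormal g⁻¹ (j b) = j (α γ⁻¹ b)` (`hext.conj`),
`α γ⁻¹ b ∈ B` and `b ∈ B`, so `ζ s (j (α γ⁻¹ b)) = χ (α γ⁻¹ b)` and `ζ t (j b) = χ b`. -/

namespace Pool.Agent.LibND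

universe u w

theorem moduleCriterion {G G₀ Γ A : Type u} [Group G] [Group G₀] [Group Γ] [AddCommGroup A]
    (p : G →* G₀) (hp : Function.Surjective p) (α : Γ →* AddMonoid.End A)
    (j : Multiplicative A →* G₀) (π : G₀ →* Γ) (hext : IsExt α j π)
    {C : Type w} [CStarAlgebra C] [PartialOrder C] [StarOrderedRing C] (U : G →* unitary C)
    (hC : IsGroupCStar G C U) (B : AddSubgroup A) (hB : ∀ γ, ∀ b ∈ B, α γ b ∈ B)
    (χ : AddChar A Circle) (E₀ : Finset A) (hE₀ : ∀ b ∈ E₀, b ∈ B) (ε : ℝ) (hε : 0 < ε)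
    (hχ : ∀ γ, γ ≠ 1 → ∃ b ∈ E₀, ε ≤ dist (χ (α γ b)) (χ b))
    (k : ℕ) (a : Fin k → A) (ha : ∀ c : Fin k → ℤ, ∑ i, c i • a i ∈ B → c = 0)
    (n : ℕ) (hn : n < k) : ¬ NucDimLE C n := by
  classical
  have hker : j.range = π.ker := hext.exact
  have hnorm : (j.range).Normal := by rw [hker]; infer_instance
  have hη : ∀ i : Fin k, ∃ η : A →+ ℝ, (∀ b ∈ B, η b = 0) ∧
      ∀ l, η (a l) = (Pi.single i (1 : ℝ) : Fin k → ℝ) l := by
    intro i
    refine ext_real B a ?_ _
    intro c hc
    rw [Finsupp.sum_fintype _ _ (by intro i; simp)] at hc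
    exact DFunLike.coe_injective (ha (fun i => c i) hc)
  choose η hηB hηa using hη
  let e : Multiplicative A ≃* j.range := MonoidHom.ofInjective hext.inj
  have he : ∀ x, ((e x : j.range) : G₀) = j x := fun x => rfl
  let ξ : (Fin k → ℝ) → (Multiplicative A →* Circle) := fun s =>
    { toFun := fun x => χ x.toAdd * ex (∑ i, s i * η i x.toAdd / 4)
      map_one' := by simp [ex]
      map_mul' := by
        intro x y
        have h1 : ∑ i, s i * η i (x * y).toAdd / 4
            = ∑ i, s i * η i x.toAdd / 4 + ∑ i, s i * η i y.toAdd / 4 := by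
          rw [← Finset.sum_add_distrib]
          refine Finset.sum_congr rfl fun i _ => ?_
          rw [toAdd_mul, map_add]
          ring
        have h2 : ∀ r r' : ℝ, ex (r + r') = ex r * ex r' := by
          intro r r'
          unfold ex
          rw [mul_add, Circle.exp_add]
        rw [h1, h2, toAdd_mul, AddChar.map_add_eq_mul]
        exact mul_mul_mul_comm _ _ _ _ }
  have hξ : ∀ s x, ξ s (Multiplicative.ofAdd x) = χ x * ex (∑ i, s i * η i x / 4) :=
    fun s x => rfl
  have hξB : ∀ s, ∀ x ∈ B, ξ s (Multiplicative.ofAdd x) = χ x := by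
    intro s x hx
    rw [hξ]
    have : ∑ i, s i * η i x / 4 = 0 :=
      Finset.sum_eq_zero fun i _ => by rw [hηB i x hx]; simp
    rw [this]
    simp [ex]
  have hξa : ∀ s l, ξ s (Multiplicative.ofAdd (a l)) = χ (a l) * ex (s l / 4) := by
    intro s l
    rw [hξ]
    congr 2
    rw [Finset.sum_eq_single l]
    · rw [hηa, Pi.single_eq_same]
      ring
    · intro i _ hi
      rw [hηa, Pi.single_eq_of_ne (Ne.symm hi)]
      simp
    · intro h
      exact absurd (Finset.mem_univ l) h
  let ζ : (Fin k → ℝ) → (j.range →* Circle) := fun s => (ξ s).comp e.symm.toMonoidHom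
  have hζe : ∀ s x, ζ s (e x) = ξ s x := by
    intro s x
    show ξ s (e.symm (e x)) = ξ s x
    rw [MulEquiv.symm_apply_apply]
  have hincl : ∀ m : j.range, Subgroup.inclusion (le_refl j.range) m = m := fun m => rfl
  let E : Finset j.range := (Finset.univ.image fun l => e (Multiplicative.ofAdd (a l))) ∪
    (E₀.image fun b => e (Multiplicative.ofAdd b))
  refine criterion p hp U hC j.range j.range le_rfl k ζ ?_ E ?_ ε hε ?_ n hn
  · intro g
    obtain ⟨x, rfl⟩ := e.surjective g
    refine Continuous.continuousOn ?_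
    have : (fun s => ζ s (e x)) = fun s => χ x.toAdd * ex (∑ i, s i * η i x.toAdd / 4) := by
      funext s
      rw [hζe]
      rfl
    rw [this]
    refine continuous_const.mul ?_
    unfold ex
    refine Circle.exp.continuous.comp ?_
    refine continuous_const.mul ?_
    refine continuous_finsetSum _ fun i _ => ?_
    exact ((continuous_apply i).mul continuous_const).div_const _
  · intro s hs t ht hst
    funext l
    have h := hst (e (Multiplicative.ofAdd (a l)))
      (Finset.mem_union_left _ (Finset.mem_image_of_mem _ (Finset.mem_univ l)))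
    rw [hincl, hζe, hζe, hξa, hξa] at h
    have h2 := mul_left_cancel h
    unfold ex at h2
    have hpi := Real.pi_pos
    have key : ∀ r : ℝ, r ∈ Set.Icc (0 : ℝ) 1 →
        Complex.arg (Circle.exp (2 * Real.pi * (r / 4)) : ℂ) = 2 * Real.pi * (r / 4) := by
      intro r hr
      refine Circle.arg_exp ?_ ?_
      · have : 0 ≤ 2 * Real.pi * (r / 4) := by
          have := hr.1
          positivity
        linarith
      · have := mul_le_mul_of_nonneg_left hr.2 hpi.le
        nlinarith
    have h3 := congrArg (fun z : Circle => Complex.arg (z : ℂ)) h2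
    rw [key _ (hs l), key _ (ht l)] at h3
    have h4 : (2 * Real.pi) ≠ 0 := by positivity
    have h5 := mul_left_cancel₀ h4 h3
    linarith
  · intro s hs t ht g hg
    have hγ : π g ≠ 1 := by
      intro h
      exact hg (by rw [hker]; exact h)
    have hγ' : (π g)⁻¹ ≠ 1 := by
      intro h
      exact hγ (inv_eq_one.mp h)
    obtain ⟨b, hb, hd⟩ := hχ _ hγ'
    refine ⟨e (Multiplicative.ofAdd b),
      Finset.mem_union_right _ (Finset.mem_image_of_mem _ hb), ?_⟩
    have hconj : MulAut.conjNormal g⁻¹ (e (Multiplicative.ofAdd b))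
        = e (Multiplicative.ofAdd (α (π g)⁻¹ b)) := by
      apply Subtype.ext
      rw [MulAut.conjNormal_apply, he, he, hext.conj, map_inv]
    rw [hconj, hincl, hincl, hζe, hζe, hξB _ _ (hB _ _ (hE₀ b hb)), hξB _ _ (hE₀ b hb)]
    exact hd

end Pool.Agent.LibND
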