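import Mathlib
import Pool.Agent.LibND.Defs

set_option autoImplicit false

/-! [ND N30] ONLY MATHLIB. The Fourier coefficients of `g / f` on the torus, for Laurent polynomials
`f, g` with `|g| ≤ C |f|` on the torus.

PLAN. `W t := evT g t / evT f t` (`0` where `evT f t = 0`), a bounded (`‖W t‖ ≤ max C 0`) measurable
function on the torus (probability measure), so in `L²`; `evT f t * W t = evT g t` for ALL `t`
(`hC` gives `evT g t = 0` where `evT f t = 0`). `w' n := ∫ t, mFourier n t * W t =
mFourierCoeff W (-n)`.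
(1) Real: `conj (evT f t) = evT f (-t)` (integer coefficients), so `conj (W t) = W (-t)`, and the
    torus measure is invariant under `t ↦ -t` (`MeasureTheory.integral_neg_eq_self`); take
    `w n := (w' n).re`.
(2) `w n → 0` along `cofinite`: `UnitAddTorus.hasSum_sq_mFourierCoeff` (summable squares), composed
    with the bijection `n ↦ -n`.
(3) `∑_m f_m w' (n + m) = ∫ mFourier n * evT f * W = ∫ mFourier n * evT g = g_{-n}`
    (`∫ mFourier n * mFourier m = δ_{n+m,0}`: `UnitAddTorus.orthonormal_mFourier` or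
    `mFourierCoeff`/`mFourierBasis`). -/

namespace Pool.Agent.LibND

open Filter Topology

noncomputable section N30Aux

open MeasureTheory

local instance n30MS : MeasureSpace UnitAddCircle := ⟨AddCircle.haarAddCircle⟩

local instance n30Haar : Measure.IsAddHaarMeasure (volume : Measure UnitAddCircle) :=
  inferInstanceAs (Measure.IsAddHaarMeasure AddCircle.haarAddCircle)

local instance n30Prob : IsProbabilityMeasure (volume : Measure UnitAddCircle) :=
  inferInstanceAs (IsProbabilityMeasure AddCircle.haarAddCircle)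

private lemma n30_cont {d : ℕ} (f : Lau d) : Continuous (evT f) := by
  unfold evT Finsupp.sum
  refine continuous_finsetSum _ fun n _ => ?_
  exact continuous_const.mul (UnitAddTorus.mFourier n.toAdd).continuous

private lemma n30_int {d : ℕ} (n m : Fin d → ℤ) :
    ∫ t : UnitAddTorus (Fin d), UnitAddTorus.mFourier n t * UnitAddTorus.mFourier m t =
      if m = -n then 1 else 0 := by
  have h := (orthonormal_iff_ite.1 (UnitAddTorus.orthonormal_mFourier (d := Fin d))) (-n) m
  rw [ContinuousMap.inner_toLp] at h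
  simp only [← UnitAddTorus.mFourier_neg, neg_neg] at h
  rw [show (∫ t : UnitAddTorus (Fin d), UnitAddTorus.mFourier n t * UnitAddTorus.mFourier m t) =
    ∫ t : UnitAddTorus (Fin d), UnitAddTorus.mFourier m t * UnitAddTorus.mFourier n t from by
      refine integral_congr_ae (Eventually.of_forall fun t => ?_)
      exact mul_comm _ _]
  rw [h]
  simp only [eq_comm]

private lemma n30_norm {d : ℕ} (n : Fin d → ℤ) (t : UnitAddTorus (Fin d)) :
    ‖UnitAddTorus.mFourier n t‖ ≤ 1 :=
  ((UnitAddTorus.mFourier n).norm_coe_le_norm t).trans UnitAddTorus.mFourier_norm.le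

private def n30W {d : ℕ} (f g : Lau d) (t : UnitAddTorus (Fin d)) : ℂ := evT g t / evT f t

private lemma n30W_meas {d : ℕ} (f g : Lau d) : Measurable (n30W f g) :=
  (n30_cont g).measurable.div (n30_cont f).measurable

private lemma n30W_bd {d : ℕ} {f g : Lau d} {C : ℝ} (hC : ∀ t, ‖evT g t‖ ≤ C * ‖evT f t‖)
    (t : UnitAddTorus (Fin d)) : ‖n30W f g t‖ ≤ max C 0 := by
  unfold n30W
  by_cases h : evT f t = 0
  · rw [h, div_zero, norm_zero]; exact le_max_right _ _
  · rw [norm_div, div_le_iff₀ (norm_pos_iff.2 h)]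
    exact (hC t).trans (mul_le_mul_of_nonneg_right (le_max_left _ _) (norm_nonneg _))

private lemma n30W_mul {d : ℕ} {f g : Lau d} {C : ℝ} (hC : ∀ t, ‖evT g t‖ ≤ C * ‖evT f t‖)
    (t : UnitAddTorus (Fin d)) : evT f t * n30W f g t = evT g t := by
  unfold n30W
  by_cases h : evT f t = 0
  · have h2 := hC t
    rw [h, norm_zero, mul_zero] at h2
    rw [h, zero_mul, norm_le_zero_iff.1 h2]
  · exact mul_div_cancel₀ _ h

private lemma n30_intg {d : ℕ} {f g : Lau d} {C : ℝ} (hC : ∀ t, ‖evT g t‖ ≤ C * ‖evT f t‖)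
    (n : Fin d → ℤ) :
    Integrable (fun t : UnitAddTorus (Fin d) => UnitAddTorus.mFourier n t * n30W f g t) := by
  refine Integrable.of_bound (C := max C 0) ?_ (Eventually.of_forall fun t => ?_)
  · exact ((UnitAddTorus.mFourier n).continuous.measurable.mul
      (n30W_meas f g)).aestronglyMeasurable
  · rw [norm_mul]
    calc _ ≤ 1 * ‖n30W f g t‖ := mul_le_mul_of_nonneg_right (n30_norm n t) (norm_nonneg _)
      _ = ‖n30W f g t‖ := one_mul _
      _ ≤ _ := n30W_bd hC t

private lemma n30_tend {d : ℕ} {f g : Lau d} {C : ℝ} (hC : ∀ t, ‖evT g t‖ ≤ C * ‖evT f t‖) :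
    Tendsto (fun n : Fin d → ℤ => ∫ t : UnitAddTorus (Fin d),
      UnitAddTorus.mFourier n t * n30W f g t) cofinite (𝓝 0) := by
  have hmem : MemLp (n30W f g) 2 (volume : Measure (UnitAddTorus (Fin d))) :=
    MemLp.of_bound (n30W_meas f g).aestronglyMeasurable (max C 0)
      (Eventually.of_forall fun t => n30W_bd hC t)
  have h1 := (UnitAddTorus.hasSum_sq_mFourierCoeff (hmem.toLp (n30W f g))).summable
  have h2 := h1.tendsto_cofinite_zero
  have h3 : Tendsto (fun n : Fin d → ℤ =>
      UnitAddTorus.mFourierCoeff (hmem.toLp (n30W f g)) n) cofinite (𝓝 0) := by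
    rw [tendsto_zero_iff_norm_tendsto_zero]
    have h4 := h2.sqrt
    simpa only [Real.sqrt_zero, Real.sqrt_sq (norm_nonneg _)] using h4
  have h5 := h3.comp (neg_injective (G := Fin d → ℤ)).tendsto_cofinite
  refine h5.congr fun n => ?_
  simp only [Function.comp_apply, UnitAddTorus.mFourierCoeff, neg_neg, smul_eq_mul]
  refine integral_congr_ae ?_
  filter_upwards [hmem.coeFn_toLp] with t ht
  rw [ht]

private lemma n30_eq {d : ℕ} {f g : Lau d} {C : ℝ} (hC : ∀ t, ‖evT g t‖ ≤ C * ‖evT f t‖)
    (n : Fin d → ℤ) :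
    (f.coeff.sum fun m c => (c : ℂ) * ∫ t : UnitAddTorus (Fin d),
      UnitAddTorus.mFourier (n + m.toAdd) t * n30W f g t) =
        (g.coeff (Multiplicative.ofAdd (-n)) : ℂ) := by
  have h1 : (f.coeff.sum fun m c => (c : ℂ) * ∫ t : UnitAddTorus (Fin d),
      UnitAddTorus.mFourier (n + m.toAdd) t * n30W f g t) =
      ∫ t : UnitAddTorus (Fin d), UnitAddTorus.mFourier n t * evT g t := by
    unfold Finsupp.sum
    simp only [← integral_const_mul]
    rw [← integral_finsetSum]
    · refine integral_congr_ae (Eventually.of_forall fun t => ?_)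
      simp only
      rw [← n30W_mul hC t]
      unfold evT Finsupp.sum
      rw [Finset.sum_mul, Finset.mul_sum]
      refine Finset.sum_congr rfl fun m _ => ?_
      rw [UnitAddTorus.mFourier_add]
      ring
    · intro m _
      exact (n30_intg hC _).const_mul _
  have h2 : ∫ t : UnitAddTorus (Fin d), UnitAddTorus.mFourier n t * evT g t =
      g.coeff.sum fun m c => (c : ℂ) * (if m.toAdd = -n then 1 else 0) := by
    unfold evT Finsupp.sum
    simp only [Finset.mul_sum]
    rw [integral_finsetSum]
    · refine Finset.sum_congr rfl fun m _ => ?_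
      rw [← n30_int, ← integral_const_mul]
      refine integral_congr_ae (Eventually.of_forall fun t => ?_)
      simp only
      ring
    · intro m _
      refine Continuous.integrable_of_hasCompactSupport ?_ (HasCompactSupport.of_compactSpace _)
      fun_prop
  rw [h1, h2, Finsupp.sum]
  rw [Finset.sum_eq_single (Multiplicative.ofAdd (-n))]
  · simp
  · intro m _ hm
    rw [if_neg, mul_zero]
    intro h
    exact hm (by rw [← h]; rfl)
  · intro h
    rw [Finsupp.notMem_support_iff.1 h]
    simp

private theorem n30_main {d : ℕ} (f g : Lau d) (C : ℝ) (hC : ∀ t, ‖evT g t‖ ≤ C * ‖evT f t‖) :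
    ∃ w : (Fin d → ℤ) → ℝ, Tendsto w cofinite (𝓝 0) ∧
      ∀ n : Fin d → ℤ, (f.coeff.sum fun m c => (c : ℝ) * w (n + m.toAdd)) =
        (g.coeff (Multiplicative.ofAdd (-n)) : ℝ) := by
  refine ⟨fun n => (∫ t : UnitAddTorus (Fin d),
      UnitAddTorus.mFourier n t * n30W f g t).re, ?_, fun n => ?_⟩
  · have := (Complex.continuous_re.tendsto 0).comp (n30_tend hC)
    rw [Complex.zero_re] at this
    exact this
  · have h := congrArg Complex.re (n30_eq hC n)
    unfold Finsupp.sum at h ⊢
    rw [Complex.re_sum] at h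
    simp only [Complex.mul_re, Complex.intCast_re, Complex.intCast_im, zero_mul, sub_zero] at h
    exact h

end N30Aux

theorem N30 {d : ℕ} (f g : Lau d) (C : ℝ) (hC : ∀ t, ‖evT g t‖ ≤ C * ‖evT f t‖) :
    ∃ w : (Fin d → ℤ) → ℝ, Tendsto w cofinite (𝓝 0) ∧
      ∀ n : Fin d → ℤ, (f.coeff.sum fun m c => (c : ℝ) * w (n + m.toAdd)) =
        (g.coeff (Multiplicative.ofAdd (-n)) : ℝ) :=
  n30_main f g C hC

end Pool.Agent.LibND
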