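import Mathlib
import Pool.Agent.LibND.Defs

set_option autoImplicit false

/-! [ND N31] ONLY MATHLIB. If `w → 0` solves `f ∗ w = g` and takes only integer values, then
`f ∣ g`.

PLAN. Suppose every `w n` is an integer. As `w → 0` along `cofinite`, `w n = 0` for all but finitely
many `n`. Let `W : Lau d` have coefficient `w (-n)` (as an integer) at `ofAdd n`
(`Finsupp.ofSupportFinite`). Then the coefficient of `f * W` at `ofAdd (-n)` is
`∑_m f_m W_{-n-m} = ∑_m f_m w (n + m) = g_{-n}` (`MonoidAlgebra.mul_apply...`; work with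
`f = ∑ single m f_m` and `MonoidAlgebra.single_mul_apply`-type lemmas). So `f * W = g`. -/

namespace Pool.Agent.LibND

open Filter Topology

theorem N31 {d : ℕ} (f g : Lau d) (hfg : ¬ f ∣ g) (w : (Fin d → ℤ) → ℝ)
    (hw : Tendsto w cofinite (𝓝 0))
    (hfw : ∀ n : Fin d → ℤ, (f.coeff.sum fun m c => (c : ℝ) * w (n + m.toAdd)) =
        (g.coeff (Multiplicative.ofAdd (-n)) : ℝ)) :
    ∃ n₀, ∀ z : ℤ, w n₀ ≠ z := by
  by_contra hcon
  push Not at hcon
  choose c hc using hcon
  apply hfg
  -- finitely many nonzero values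
  have hfin : {n : Fin d → ℤ | c n ≠ 0}.Finite := by
    have h1 : ∀ᶠ n in cofinite, |w n| < 1 := by
      have h2 := hw.eventually (Metric.ball_mem_nhds (0 : ℝ) one_pos)
      filter_upwards [h2] with n hn
      simpa [Real.dist_eq] using hn
    refine (Filter.eventually_cofinite.1 h1).subset ?_
    intro n hn hlt
    rw [hc n] at hlt
    have h3 : |c n| < 1 := by exact_mod_cast hlt
    exact hn (Int.abs_lt_one_iff.1 h3)
  let F : (Zd d) → ℤ := fun x => c (-x.toAdd)
  have hF : (Function.support F).Finite := by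
    refine (hfin.image fun n => Multiplicative.ofAdd (-n)).subset ?_
    intro x hx
    refine ⟨-x.toAdd, hx, ?_⟩
    simp
  let W : Lau d := ⟨Finsupp.ofSupportFinite F hF⟩
  refine ⟨W, ?_⟩
  ext x
  have h4 := hfw (-x.toAdd)
  rw [MonoidAlgebra.coeff_mul_apply_left]
  have h5 : ((f.coeff.sum fun h r => r * W.coeff (h⁻¹ * x) : ℤ) : ℝ) =
      f.coeff.sum fun m c => (c : ℝ) * w (-x.toAdd + m.toAdd) := by
    simp only [Finsupp.sum, Int.cast_sum, Int.cast_mul]
    refine Finset.sum_congr rfl fun m _ => ?_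
    rw [hc]
    have h6 : W.coeff (m⁻¹ * x) = c (-x.toAdd + m.toAdd) := by
      change c (-(m⁻¹ * x).toAdd) = _
      congr 1
      simp [toAdd_mul, toAdd_inv, add_comm]
    rw [h6]
  have h7 : ((g.coeff x : ℤ) : ℝ) = ((f.coeff.sum fun h r => r * W.coeff (h⁻¹ * x) : ℤ) : ℝ) := by
    rw [h5, h4]
    simp
  exact_mod_cast h7

end Pool.Agent.LibND
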