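import Mathlib
import Pool.Agent.LibND.Defs

set_option autoImplicit false

/-! [ND N32] ONLY MATHLIB. The orbit of `e(w)` under translations is discrete when `w → 0`.

PLAN. `ex (w n₀) ≠ 1` (`w n₀ ∉ ℤ`). `ex (w (n₀ + ν)) → 1` as `ν → ∞` (cofinite), so with
`ε₁ := dist (ex (w n₀)) 1 / 2 > 0` the set `F := {ν ≠ 0 | dist (ex (w (n₀ + ν))) (ex (w n₀)) < ε₁}` is
finite. For `ν ∈ F` (`ν ≠ 0`) there is `n_ν` with `ex (w (n_ν + ν)) ≠ ex (w n_ν)`: otherwise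
`ex (w (n₀ + j • ν)) = ex (w n₀) ≠ 1` for all `j : ℕ`, while it tends to `1` (`j ↦ n₀ + j • ν` is
injective as `ν ≠ 0`). Take `E := {n₀} ∪ {n_ν | ν ∈ F}` and `ε` the minimum of `ε₁` and of the
finitely many positive numbers `dist (ex (w (n_ν + ν))) (ex (w n_ν))`. -/

namespace Pool.Agent.LibND

open Filter Topology

private theorem ex_cont : Continuous ex := by
  unfold ex
  fun_prop

private theorem ex_zero' : ex 0 = 1 := by
  unfold ex
  simp

private theorem ex_ne_one {r : ℝ} (h : ∀ z : ℤ, r ≠ z) : ex r ≠ 1 := by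
  intro h1
  unfold ex at h1
  have h2 : Circle.exp (2 * Real.pi * r) = Circle.exp 0 := by rw [h1]; simp
  rw [Circle.exp_eq_exp] at h2
  obtain ⟨m, hm⟩ := h2
  apply h m
  have hpi : (2 * Real.pi) ≠ 0 := by positivity
  have h3 : (2 * Real.pi) * r = (2 * Real.pi) * m := by
    rw [hm]; ring
  exact mul_left_cancel₀ hpi h3

private theorem ex_tendsto {d : ℕ} (w : (Fin d → ℤ) → ℝ) (hw : Tendsto w cofinite (𝓝 0)) :
    Tendsto (fun n => ex (w n)) cofinite (𝓝 1) := by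
  have h := (ex_cont.tendsto 0).comp hw
  rw [ex_zero'] at h
  exact h

/-- for `ν ≠ 0` some translate differs -/
private theorem exists_ne {d : ℕ} (w : (Fin d → ℤ) → ℝ) (hw : Tendsto w cofinite (𝓝 0))
    (n₀ : Fin d → ℤ) (hn₀ : ∀ z : ℤ, w n₀ ≠ z) (ν : Fin d → ℤ) (hν : ν ≠ 0) :
    ∃ n : Fin d → ℤ, ex (w (n + ν)) ≠ ex (w n) := by
  by_contra hcon
  push Not at hcon
  have hj : ∀ j : ℕ, ex (w (n₀ + j • ν)) = ex (w n₀) := by
    intro j
    induction j with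
    | zero => simp
    | succ j ih =>
      rw [succ_nsmul, ← add_assoc, hcon, ih]
  have hinj : Function.Injective (fun j : ℕ => n₀ + j • ν) := by
    intro i j hij
    have h1 : i • ν = j • ν := add_left_cancel hij
    obtain ⟨k, hk⟩ : ∃ k, ν k ≠ 0 := by
      by_contra hno
      push Not at hno
      exact hν (funext hno)
    have h2 := congrFun h1 k
    simp only [Pi.smul_apply, nsmul_eq_mul] at h2
    have h3 := mul_right_cancel₀ hk h2
    exact_mod_cast h3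
  have ht : Tendsto (fun j : ℕ => ex (w (n₀ + j • ν))) cofinite (𝓝 1) :=
    (ex_tendsto w hw).comp hinj.tendsto_cofinite
  have hc : Tendsto (fun j : ℕ => ex (w (n₀ + j • ν))) cofinite (𝓝 (ex (w n₀))) := by
    simp only [hj]
    exact tendsto_const_nhds
  exact ex_ne_one hn₀ (tendsto_nhds_unique hc ht)

theorem N32 {d : ℕ} (w : (Fin d → ℤ) → ℝ) (hw : Tendsto w cofinite (𝓝 0)) (n₀ : Fin d → ℤ)
    (hn₀ : ∀ z : ℤ, w n₀ ≠ z) :
    ∃ (E : Finset (Fin d → ℤ)) (ε : ℝ), 0 < ε ∧ ∀ ν : Fin d → ℤ, ν ≠ 0 →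
      ∃ n ∈ E, ε ≤ dist (ex (w (n + ν))) (ex (w n)) := by
  classical
  have hne := ex_ne_one hn₀
  have hδ : 0 < dist (ex (w n₀)) 1 := dist_pos.mpr hne
  set ε₁ : ℝ := dist (ex (w n₀)) 1 / 2 with hε₁
  have hε₁pos : 0 < ε₁ := by positivity
  have hev : ∀ᶠ ν : Fin d → ℤ in cofinite, dist (ex (w (n₀ + ν))) 1 < ε₁ := by
    have h1 : Tendsto (fun ν : Fin d → ℤ => ex (w (n₀ + ν))) cofinite (𝓝 1) :=
      (ex_tendsto w hw).comp (add_right_injective n₀).tendsto_cofinite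
    exact (Metric.tendsto_nhds.mp h1) ε₁ hε₁pos
  have hfin : {ν : Fin d → ℤ | ¬ dist (ex (w (n₀ + ν))) 1 < ε₁}.Finite := hev
  choose! nn hnn using fun (ν : Fin d → ℤ) (hν : ν ≠ 0) => exists_ne w hw n₀ hn₀ ν hν
  set F : Finset (Fin d → ℤ) := hfin.toFinset.erase 0 with hF
  have hFpos : ∀ ν ∈ F, 0 < dist (ex (w (nn ν + ν))) (ex (w (nn ν))) := by
    intro ν hν
    exact dist_pos.mpr (hnn ν (Finset.ne_of_mem_erase hν))
  obtain ⟨ε₂, hε₂, hle⟩ : ∃ ε₂ : ℝ, 0 < ε₂ ∧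
      ∀ ν ∈ F, ε₂ ≤ dist (ex (w (nn ν + ν))) (ex (w (nn ν))) := by
    rcases F.eq_empty_or_nonempty with hE | hE
    · refine ⟨1, one_pos, ?_⟩
      intro ν hν
      rw [hE] at hν
      simp at hν
    · obtain ⟨ν₀, hν₀, hmin⟩ := F.exists_min_image
        (fun ν => dist (ex (w (nn ν + ν))) (ex (w (nn ν)))) hE
      exact ⟨_, hFpos ν₀ hν₀, hmin⟩
  refine ⟨insert n₀ (F.image nn), min ε₁ ε₂, lt_min hε₁pos hε₂, ?_⟩
  intro ν hν
  by_cases h : dist (ex (w (n₀ + ν))) 1 < ε₁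
  · refine ⟨n₀, Finset.mem_insert_self _ _, ?_⟩
    refine (min_le_left _ _).trans ?_
    have h2 : dist (ex (w n₀)) 1 ≤ dist (ex (w n₀)) (ex (w (n₀ + ν))) +
        dist (ex (w (n₀ + ν))) 1 := dist_triangle _ _ _
    rw [dist_comm (ex (w n₀)) (ex (w (n₀ + ν)))] at h2
    rw [hε₁] at h ⊢
    linarith
  · have hνF : ν ∈ F := by
      rw [hF, Finset.mem_erase]
      refine ⟨hν, ?_⟩
      rw [Set.Finite.mem_toFinset]
      exact h
    exact ⟨nn ν, Finset.mem_insert_of_mem (Finset.mem_image_of_mem _ hνF),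
      (min_le_right _ _).trans (hle ν hνF)⟩

end Pool.Agent.LibND
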