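import Mathlib
import Pool.Agent.LibND.Defs

set_option autoImplicit false

/-! [ND N33] ONLY MATHLIB. A prime Laurent polynomial in `d ≥ 2` variables which divides no nonzero
integer has zeros with an integer coordinate, for infinitely many values of this coordinate.

Here a point of `(ℂ^×)^d` is given by a ring homomorphism `Lau d →+* ℂ`, and `i`-th coordinate
function is `single (ofAdd (Pi.single i 1)) 1`.

PROOF. `f` has two different exponents `m ≠ m'` in its support, `m l ≠ m' l`, and `i ≠ l`. There is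
an integer vector `w` with `w i = 1`, `w l = 0` which separates the exponents of `f` with the same
`l`-th coordinate. Look at the points `x_q = c ^ w_q` (`q ≠ l`), `x_l = y`: for all but finitely many
integers `c` the Laurent polynomial in `y` has two nonzero coefficients, hence a nonzero root. -/

namespace Pool.Agent.LibND

open Polynomial in
private theorem N33_root (P : ℂ[X]) (j k : ℕ) (hjk : j ≠ k) (hj : P.coeff j ≠ 0)
    (hk : P.coeff k ≠ 0) : ∃ y : ℂ, y ≠ 0 ∧ P.eval y = 0 := by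
  by_contra hcon
  push Not at hcon
  have hP : P ≠ 0 := by
    rintro rfl
    simp at hj
  have hroots : ∀ r ∈ P.roots, r = 0 := by
    intro r hr
    by_contra h0
    exact hcon r h0 ((mem_roots hP).1 hr)
  have h1 : P.roots = Multiset.replicate (Multiset.card P.roots) 0 :=
    Multiset.eq_replicate_card.2 hroots
  have h2 := (IsAlgClosed.splits P).eq_prod_roots
  generalize hn : Multiset.card P.roots = n at h1
  rw [h1] at h2
  simp only [Multiset.map_replicate, Multiset.prod_replicate, C_0, sub_zero] at h2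
  have h3 : ∀ t, t ≠ n → P.coeff t = 0 := by
    intro t ht
    rw [h2, coeff_C_mul, coeff_X_pow, if_neg ht, mul_zero]
  by_cases hjn : j = n
  · exact hk (h3 k (fun h => hjk (hjn.trans h.symm)))
  · exact hj (h3 j hjn)

open Polynomial in
private theorem N33_w {d : ℕ} (i l : Fin d) (hil : i ≠ l) (Δ : Finset (Fin d → ℤ))
    (hΔ : ∀ δ ∈ Δ, δ ≠ 0 ∧ δ l = 0) :
    ∃ w : Fin d → ℤ, w i = 1 ∧ w l = 0 ∧ ∀ δ ∈ Δ, ∑ q, w q * δ q ≠ 0 := by
  set E : Fin d → ℕ := fun q => if q = i then 0 else (q : ℕ) + 1 with hE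
  have hEinj : Function.Injective E := by
    intro p q h
    simp only [hE] at h
    by_cases hp : p = i
    · by_cases hq : q = i
      · rw [hp, hq]
      · rw [if_pos hp, if_neg hq] at h
        omega
    · by_cases hq : q = i
      · rw [if_neg hp, if_pos hq] at h
        omega
      · rw [if_neg hp, if_neg hq] at h
        exact Fin.ext (by omega)
  set p : (Fin d → ℤ) → ℤ[X] := fun δ => ∑ q, C (δ q) * X ^ E q with hp
  have hp0 : ∀ δ ∈ Δ, p δ ≠ 0 := by
    intro δ hδ h0
    apply (hΔ δ hδ).1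
    funext q
    have h1 : (p δ).coeff (E q) = δ q := by
      simp only [hp, finset_sum_coeff, coeff_C_mul, coeff_X_pow]
      rw [Finset.sum_eq_single q]
      · simp
      · intro r _ hr
        rw [if_neg (fun h => hr (hEinj h.symm)), mul_zero]
      · intro h
        exact absurd (Finset.mem_univ q) h
    rw [← h1, h0, coeff_zero]
    rfl
  have hprod : ∏ δ ∈ Δ, p δ ≠ 0 := Finset.prod_ne_zero_iff.2 hp0
  obtain ⟨T, hT⟩ : ∃ T : ℤ, (∏ δ ∈ Δ, p δ).eval T ≠ 0 := by
    by_contra hcon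
    push Not at hcon
    apply hprod
    apply Polynomial.funext
    intro r
    rw [hcon r, eval_zero]
  rw [eval_prod] at hT
  have hT' := Finset.prod_ne_zero_iff.1 hT
  refine ⟨fun q => if q = l then 0 else T ^ E q, ?_, by simp, ?_⟩
  · simp only [if_neg hil, hE, if_pos, pow_zero]
  · intro δ hδ h0
    apply hT' δ hδ
    rw [← h0]
    simp only [hp, eval_finset_sum, eval_mul, eval_C, eval_pow, eval_X]
    refine Finset.sum_congr rfl fun q _ => ?_
    by_cases hq : q = l
    · rw [if_pos hq, hq, (hΔ δ hδ).2]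
      ring
    · rw [if_neg hq]
      ring

open Polynomial in
private theorem N33_fin {ι : Type*} [DecidableEq ι] (S : Finset ι) (hS : S.Nonempty) (a : ι → ℤ)
    (ha : ∀ n ∈ S, a n ≠ 0) (g : ι → ℤ) (hg : ∀ n ∈ S, ∀ m ∈ S, g n = g m → n = m) :
    {c : ℤ | c ≠ 0 ∧ ∑ n ∈ S, (a n : ℂ) * (c : ℂ) ^ g n = 0}.Finite := by
  set M : ℤ := ∑ n ∈ S, |g n| with hM
  have hM0 : ∀ n ∈ S, 0 ≤ g n + M := by
    intro n hn
    have h1 : |g n| ≤ M := Finset.single_le_sum (f := fun n => |g n|) (fun m _ => abs_nonneg _) hn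
    have h2 := neg_abs_le (g n)
    linarith
  have hMnn : 0 ≤ M := Finset.sum_nonneg fun m _ => abs_nonneg _
  set R : ℤ[X] := ∑ n ∈ S, C (a n) * X ^ (g n + M).toNat with hR
  have hR0 : R ≠ 0 := by
    obtain ⟨n0, hn0⟩ := hS
    intro h0
    apply ha n0 hn0
    have h1 : R.coeff (g n0 + M).toNat = a n0 := by
      simp only [hR, finset_sum_coeff, coeff_C_mul, coeff_X_pow]
      rw [Finset.sum_eq_single n0]
      · simp
      · intro r hr hrn
        rw [if_neg, mul_zero]
        intro h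
        apply hrn
        apply hg r hr n0 hn0
        have h2 := hM0 r hr
        have h3 := hM0 n0 hn0
        omega
      · intro h
        exact absurd hn0 h
    rw [← h1, h0, coeff_zero]
  refine (Polynomial.finite_setOf_isRoot hR0).subset ?_
  rintro c ⟨hc, hsum⟩
  have hcC : (c : ℂ) ≠ 0 := by exact_mod_cast hc
  show R.IsRoot c
  rw [IsRoot.def]
  have h1 : ((R.eval c : ℤ) : ℂ) = (c : ℂ) ^ M * ∑ n ∈ S, (a n : ℂ) * (c : ℂ) ^ g n := by
    simp only [hR, eval_finset_sum, eval_mul, eval_C, eval_pow, eval_X]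
    push_cast
    rw [Finset.mul_sum]
    refine Finset.sum_congr rfl fun n hn => ?_
    have h2 : (c : ℂ) ^ (g n + M).toNat = (c : ℂ) ^ (g n + M) := by
      rw [← zpow_natCast, Int.toNat_of_nonneg (hM0 n hn)]
    rw [h2, zpow_add₀ hcC]
    ring
  rw [hsum, mul_zero] at h1
  exact_mod_cast h1

theorem N33 {d : ℕ} (hd : 2 ≤ d) (f : Lau d) (hf : Prime f)
    (hint : ∀ n : ℤ, n ≠ 0 → ¬ f ∣ (n : Lau d)) :
    ∃ i : Fin d, {c : ℤ | ∃ ev : Lau d →+* ℂ, ev f = 0 ∧
      ev (MonoidAlgebra.single (Multiplicative.ofAdd (Pi.single i 1)) 1) = (c : ℂ)}.Infinite := by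
  classical
  -- two exponents
  obtain ⟨m, hm, m', hm', hmm⟩ : ∃ m ∈ f.coeff.support, ∃ m' ∈ f.coeff.support, m ≠ m' := by
    by_contra hcon
    push Not at hcon
    have hf0 : f ≠ 0 := hf.ne_zero
    have hc0 : f.coeff ≠ 0 := by
      intro h
      apply hf0
      rw [← MonoidAlgebra.ofCoeff_coeff f, h]
      rfl
    obtain ⟨m, hm⟩ := Finsupp.support_nonempty_iff.2 hc0
    have hfs : f.coeff = Finsupp.single m (f.coeff m) := by
      apply Finsupp.ext
      intro x
      rw [Finsupp.single_apply]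
      by_cases hx : m = x
      · rw [if_pos hx, hx]
      · rw [if_neg hx]
        by_contra h
        exact hx (hcon m hm x (Finsupp.mem_support_iff.2 h))
    apply hint (f.coeff m) (Finsupp.mem_support_iff.1 hm)
    refine ⟨MonoidAlgebra.single m⁻¹ 1, ?_⟩
    have h1 : f = MonoidAlgebra.single m (f.coeff m) := by
      conv_lhs => rw [← MonoidAlgebra.ofCoeff_coeff f, hfs]
      rfl
    conv_rhs => rw [h1]
    rw [MonoidAlgebra.single_mul_single, mul_inv_cancel, mul_one]
    rfl
  obtain ⟨l, hl⟩ : ∃ l, m.toAdd l ≠ m'.toAdd l := by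
    by_contra hcon
    push Not at hcon
    exact hmm (Multiplicative.toAdd.injective (funext hcon))
  obtain ⟨i, hil⟩ : ∃ i : Fin d, i ≠ l := by
    haveI : Nontrivial (Fin d) := Fin.nontrivial_iff_two_le.2 hd
    exact exists_ne l
  refine ⟨i, ?_⟩
  -- the separating vector
  set S := f.coeff.support with hS
  set Δ : Finset (Fin d → ℤ) :=
    (((S ×ˢ S).image fun p => p.1.toAdd - p.2.toAdd).filter fun δ => δ ≠ 0 ∧ δ l = 0) with hΔ
  obtain ⟨w, hwi, hwl, hw⟩ := N33_w i l hil Δ (fun δ hδ => (Finset.mem_filter.1 hδ).2)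
  set g : Zd d → ℤ := fun n => ∑ q, w q * n.toAdd q with hg
  have hginj : ∀ n ∈ S, ∀ n' ∈ S, n.toAdd l = n'.toAdd l → g n = g n' → n = n' := by
    intro n hn n' hn' h1 h2
    by_contra hne
    apply hw (n.toAdd - n'.toAdd)
    · rw [hΔ, Finset.mem_filter]
      refine ⟨Finset.mem_image.2 ⟨(n, n'), Finset.mem_product.2 ⟨hn, hn'⟩, rfl⟩, ?_, ?_⟩
      · intro h
        exact hne (Multiplicative.toAdd.injective (sub_eq_zero.1 h))
      · rw [Pi.sub_apply, h1, sub_self]
    · simp only [Pi.sub_apply, mul_sub, Finset.sum_sub_distrib]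
      simp only [hg] at h2
      rw [h2, sub_self]
  have hbad : ∀ m0 ∈ S, {c : ℤ | c ≠ 0 ∧ ∑ n ∈ S.filter (fun n => n.toAdd l = m0.toAdd l),
      (f.coeff n : ℂ) * (c : ℂ) ^ g n = 0}.Finite := by
    intro m0 hm0
    apply N33_fin (S.filter (fun n => n.toAdd l = m0.toAdd l)) ⟨m0, by simp [hm0]⟩
      (fun n => f.coeff n)
    · intro n hn
      exact Finsupp.mem_support_iff.1 (Finset.mem_filter.1 hn).1
    · intro n hn n' hn' h
      rw [Finset.mem_filter] at hn hn'
      exact hginj n hn.1 n' hn'.1 (hn.2.trans hn'.2.symm) h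
  have hfinbad := ((hbad m hm).union (hbad m' hm')).union (Set.finite_singleton (0 : ℤ))
  refine (hfinbad.infinite_compl).mono ?_
  intro c hc
  simp only [Set.mem_compl_iff, Set.mem_union, Set.mem_setOf_eq, Set.mem_singleton_iff,
    not_or, not_and] at hc
  obtain ⟨⟨hc1, hc2⟩, hc0⟩ := hc
  have hcC : (c : ℂ) ≠ 0 := by exact_mod_cast hc0
  -- the polynomial in y
  set N : ℤ := ∑ n ∈ S, |n.toAdd l| with hN
  have hN0 : ∀ n ∈ S, 0 ≤ n.toAdd l + N := by
    intro n hn
    have h1 : |n.toAdd l| ≤ N :=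
      Finset.single_le_sum (f := fun n : Zd d => |n.toAdd l|) (fun m _ => abs_nonneg _) hn
    have h2 := neg_abs_le (n.toAdd l)
    linarith
  set P : Polynomial ℂ := ∑ n ∈ S, Polynomial.C ((f.coeff n : ℂ) * (c : ℂ) ^ g n) *
    Polynomial.X ^ (n.toAdd l + N).toNat with hP
  have hcoef : ∀ m0 ∈ S, P.coeff (m0.toAdd l + N).toNat =
      ∑ n ∈ S.filter (fun n => n.toAdd l = m0.toAdd l), (f.coeff n : ℂ) * (c : ℂ) ^ g n := by
    intro m0 hm0
    simp only [hP, Polynomial.finset_sum_coeff, Polynomial.coeff_C_mul, Polynomial.coeff_X_pow]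
    rw [Finset.sum_filter]
    refine Finset.sum_congr rfl fun n hn => ?_
    have h1 := hN0 n hn
    have h2 := hN0 m0 hm0
    by_cases h : n.toAdd l = m0.toAdd l
    · rw [if_pos h, h, if_pos rfl, mul_one]
    · rw [if_neg h, if_neg (by omega), mul_zero]
  obtain ⟨y, hy0, hy⟩ := N33_root P (m.toAdd l + N).toNat (m'.toAdd l + N).toNat
    (by
      have h1 := hN0 m hm
      have h2 := hN0 m' hm'
      omega)
    (by rw [hcoef m hm]; exact hc1 hc0) (by rw [hcoef m' hm']; exact hc2 hc0)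
  -- the character
  let χ : Zd d →* ℂ :=
    { toFun := fun n => (c : ℂ) ^ g n * y ^ (n.toAdd l)
      map_one' := by simp [hg]
      map_mul' := by
        intro a b
        have h1 : g (a * b) = g a + g b := by
          simp only [hg, toAdd_mul, Pi.add_apply, mul_add, Finset.sum_add_distrib]
        rw [h1, toAdd_mul, Pi.add_apply, zpow_add₀ hcC, zpow_add₀ hy0]
        ring }
  refine ⟨((MonoidAlgebra.lift ℤ ℂ (Zd d) χ : Lau d →ₐ[ℤ] ℂ) : Lau d →+* ℂ), ?_, ?_⟩
  · show (MonoidAlgebra.lift ℤ ℂ (Zd d) χ) f = 0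
    rw [MonoidAlgebra.lift_apply, Finsupp.sum]
    have h1 : P.eval y = y ^ N * ∑ n ∈ S, (f.coeff n) • χ n := by
      simp only [hP, Polynomial.eval_finset_sum, Polynomial.eval_mul, Polynomial.eval_C,
        Polynomial.eval_pow, Polynomial.eval_X]
      rw [Finset.mul_sum]
      refine Finset.sum_congr rfl fun n hn => ?_
      have h2 : y ^ (n.toAdd l + N).toNat = y ^ (n.toAdd l + N) := by
        rw [← zpow_natCast, Int.toNat_of_nonneg (hN0 n hn)]
      have h3 : χ n = (c : ℂ) ^ g n * y ^ (n.toAdd l) := rfl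
      rw [h2, zpow_add₀ hy0, h3, zsmul_eq_mul]
      ring
    rw [hy] at h1
    exact (mul_eq_zero.1 h1.symm).resolve_left (zpow_ne_zero _ hy0)
  · show (MonoidAlgebra.lift ℤ ℂ (Zd d) χ) (MonoidAlgebra.single _ 1) = (c : ℂ)
    rw [MonoidAlgebra.lift_single, one_smul]
    show (c : ℂ) ^ g (Multiplicative.ofAdd (Pi.single i 1)) *
      y ^ ((Multiplicative.ofAdd (Pi.single i (1 : ℤ)) : Zd d).toAdd l) = (c : ℂ)
    have h1 : g (Multiplicative.ofAdd (Pi.single i 1)) = 1 := by
      simp only [hg, toAdd_ofAdd]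
      rw [Finset.sum_eq_single i]
      · rw [hwi, Pi.single_eq_same, mul_one]
      · intro q _ hq
        rw [Pi.single_eq_of_ne hq, mul_zero]
      · intro h
        exact absurd (Finset.mem_univ i) h
    rw [h1, toAdd_ofAdd, Pi.single_eq_of_ne hil.symm, zpow_zero, zpow_one, mul_one]

end Pool.Agent.LibND
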