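import Mathlib
import Pool.Agent.LibND.N22
import Pool.Agent.LibND.N30
import Pool.Agent.LibND.N31
import Pool.Agent.LibND.N32
import Pool.Agent.LibND.N33

set_option autoImplicit false

/-! [ND N34] Extensions of `ℤ^d`, `d ≥ 2`, by a module with an associated prime `(f)` for which
`g / f` is bounded on the torus for some `g` not divisible by `f`.

PLAN. `R := Lau d`, `act := ringAct α : R →ₐ[ℤ] End A` (`R` commutative). Given `n`, put
`k := n + 1`. N33 gives `i` and infinitely many integers `c`; choose `k + 1` distinct ones `c 0..c k`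
with evaluations `ev l : R →+* ℂ`, `ev l f = 0`, `ev l X = c l`, `X := single (ofAdd (Pi.single i 1)) 1`.
`g' := ∏_{l < k} (X - c l)`, `g'_m := ∏_{l < k, l ≠ m} (X - c l)`.
(1) `¬ f ∣ g'`: apply `ev k`. So `f ∣ P * g' → f ∣ P` (`f` prime).
(2) `B := {act (P * g') a₀ | P : R}` (`AddSubgroup`, the range of the additive map
    `P ↦ act (P * g') a₀`), stable under `α γ = act (single γ 1)`.
(3) With `w` from N30 put `χ₀ P := ex (∑_n P_n w n) = ex (P.coeff.sum fun n c => c * w n.toAdd)`, an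
    additive character of `R`, trivial on `f * Q` (by N30: `∑ (fQ)_n w n = ∑_n Q_n g_{-n} ∈ ℤ`). So
    `χ_B (act (P * g') a₀) := χ₀ P` is well defined (`act ((P - P') * g') a₀ = 0` gives `f ∣ P - P'` by
    `ha₀` and (1)), an `AddChar B Circle`; extend it to `χ : AddChar A Circle` (`ext_circle`).
(4) N31 gives `n₀` with `w n₀ ∉ ℤ`, N32 gives `E, ε`. `E₀ := {act (single n 1 * g') a₀ | n ∈ E}`; for
    `γ = ofAdd ν`: `χ (α γ (act (single n 1 * g') a₀)) = χ₀ (single (n + ν) 1) = ex (w (n + ν))`.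
(5) `a m := act g'_m a₀`: if `∑ c'_m • a m ∈ B` then `f ∣ ∑ c'_m g'_m - P * g'`; apply `ev m`:
    `c'_m * ∏_{l ≠ m} (c m - c l) = 0`, so `c'_m = 0`.
(6) `moduleCriterion` (`n < k`). -/

namespace Pool.Agent.LibND

universe u w


/-- The real-valued additive map `P ↦ ∑ n, P_n w n`. -/
private noncomputable def n34L {d : ℕ} (w : (Fin d → ℤ) → ℝ) : Lau d →+ ℝ where
  toFun P := P.coeff.sum fun n c => (c : ℝ) * w n.toAdd
  map_zero' := by simp
  map_add' P Q := by
    rw [MonoidAlgebra.coeff_add]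
    refine Finsupp.sum_add_index' (fun _ => by simp) fun m b c => ?_
    push_cast
    ring

private theorem n34L_single {d : ℕ} (w : (Fin d → ℤ) → ℝ) (m : Zd d) (c : ℤ) :
    n34L w (MonoidAlgebra.single m c) = c * w m.toAdd := by
  change (MonoidAlgebra.single m c : Lau d).coeff.sum (fun n c => (c : ℝ) * w n.toAdd) = _
  rw [MonoidAlgebra.coeff_single, Finsupp.sum_single_index (by simp)]

private theorem n34L_mul_single {d : ℕ} (w : (Fin d → ℤ) → ℝ) (P : Lau d) (m : Zd d) (c : ℤ) :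
    n34L w (P * MonoidAlgebra.single m c) =
      c * P.coeff.sum fun n b => (b : ℝ) * w (m.toAdd + n.toAdd) := by
  induction P using MonoidAlgebra.induction_linear with
  | zero => simp
  | add x y hx hy =>
    rw [add_mul, map_add, hx, hy, MonoidAlgebra.coeff_add,
      Finsupp.sum_add_index' (fun _ => by simp) (fun _ _ _ => by push_cast; ring), mul_add]
  | single n b =>
    rw [MonoidAlgebra.single_mul_single, n34L_single, MonoidAlgebra.coeff_single,
      Finsupp.sum_single_index (by simp), toAdd_mul, add_comm m.toAdd n.toAdd]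
    push_cast
    ring

private theorem n34L_int {d : ℕ} (f g : Lau d) (w : (Fin d → ℤ) → ℝ)
    (hfw : ∀ n : Fin d → ℤ, (f.coeff.sum fun m c => (c : ℝ) * w (n + m.toAdd)) =
        (g.coeff (Multiplicative.ofAdd (-n)) : ℝ)) (Q : Lau d) :
    ∃ z : ℤ, n34L w (f * Q) = z := by
  induction Q using MonoidAlgebra.induction_linear with
  | zero => exact ⟨0, by simp⟩
  | add x y hx hy =>
    obtain ⟨a, ha⟩ := hx
    obtain ⟨b, hb⟩ := hy
    exact ⟨a + b, by rw [mul_add, map_add, ha, hb]; push_cast; rfl⟩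
  | single m c =>
    refine ⟨c * g.coeff (Multiplicative.ofAdd (-m.toAdd)), ?_⟩
    rw [n34L_mul_single, hfw]
    push_cast
    rfl

private theorem n34_ex_add (r s : ℝ) : ex (r + s) = ex r * ex s := by
  rw [ex, ex, ex, mul_add, Circle.exp_add]

private theorem n34_ex_int (z : ℤ) : ex (z : ℝ) = 1 := by
  rw [ex, Circle.exp_eq_one]
  exact ⟨z, by ring⟩

/-- The character of a subgroup given by a character of a group mapping onto it. -/
private theorem n34_char {R A : Type*} [AddCommGroup R] [AddCommGroup A] (φ : R →+ A) (L : R →+ ℝ)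
    (hL : ∀ P, φ P = 0 → ∃ z : ℤ, L P = z) :
    ∃ χ : AddChar φ.range Circle, ∀ P, χ ⟨φ P, P, rfl⟩ = ex (L P) := by
  have hwd : ∀ P P', φ P = φ P' → ex (L P) = ex (L P') := by
    intro P P' h
    obtain ⟨z, hz⟩ := hL (P - P') (by rw [map_sub, h, sub_self])
    have h1 : L P = L P' + z := by
      rw [← hz, map_sub]
      ring
    rw [h1, n34_ex_add, n34_ex_int, mul_one]
  have hsec : ∀ b : φ.range, ∃ P, φ P = b := fun b => b.2
  choose σ hσ using hsec
  refine ⟨⟨fun b => ex (L (σ b)), ?_, ?_⟩, fun P => hwd _ _ (hσ _)⟩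
  · obtain ⟨z, hz⟩ := hL (σ 0) (by rw [hσ]; rfl)
    rw [hz, n34_ex_int]
  · intro a b
    rw [← n34_ex_add, ← map_add]
    refine hwd _ _ ?_
    rw [hσ, map_add, hσ, hσ]
    rfl

private theorem n34_act_single {d : ℕ} {A : Type*} [AddCommGroup A]
    (α : Zd d →* AddMonoid.End A) (γ : Zd d) (x : A) :
    ringAct α (MonoidAlgebra.single γ 1) x = α γ x := by
  rw [ringAct, MonoidAlgebra.lift_single, one_smul]

private theorem n34_act_mul {d : ℕ} {A : Type*} [AddCommGroup A]
    (α : Zd d →* AddMonoid.End A) (P Q : Lau d) (x : A) :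
    ringAct α (P * Q) x = ringAct α P (ringAct α Q x) := by
  rw [map_mul]
  rfl

theorem N34 {d : ℕ} (hd : 2 ≤ d) (f g : Lau d) (hf : Prime f)
    (hint : ∀ n : ℤ, n ≠ 0 → ¬ f ∣ (n : Lau d)) (hfg : ¬ f ∣ g) (K : ℝ)
    (hK : ∀ t, ‖evT g t‖ ≤ K * ‖evT f t‖)
    {G G₀ A : Type} [Group G] [Group G₀] [AddCommGroup A]
    (p : G →* G₀) (hp : Function.Surjective p) (α : Zd d →* AddMonoid.End A)
    (j : Multiplicative A →* G₀) (π : G₀ →* Zd d) (hext : IsExt α j π)
    {C : Type w} [CStarAlgebra C] [PartialOrder C] [StarOrderedRing C] (U : G →* unitary C)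
    (hC : IsGroupCStar G C U) (a₀ : A) (ha₀ : ∀ P : Lau d, ringAct α P a₀ = 0 ↔ f ∣ P) (n : ℕ) :
    ¬ NucDimLE C n := by
  classical
  obtain ⟨i, hS⟩ := N33 hd f hf hint
  let X : Lau d := MonoidAlgebra.single (Multiplicative.ofAdd (Pi.single i 1)) 1
  let c : ℕ → ℤ := fun l => (hS.natEmbedding _ l).1
  have hc : Function.Injective c := fun a b h =>
    (hS.natEmbedding _).injective (Subtype.ext h)
  have hev : ∀ l, ∃ ev : Lau d →+* ℂ, ev f = 0 ∧ ev X = (c l : ℂ) := fun l =>
    (hS.natEmbedding _ l).2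
  choose ev hevf hevX using hev
  have hevl : ∀ m l, ev m (X - ((c l : ℤ) : Lau d)) = (c m : ℂ) - c l := by
    intro m l
    rw [map_sub, hevX, map_intCast]
  let g' : Lau d := ∏ l : Fin (n + 1), (X - ((c l : ℤ) : Lau d))
  let gm : Fin (n + 1) → Lau d := fun m =>
    ∏ l ∈ Finset.univ.erase m, (X - ((c l : ℤ) : Lau d))
  have hsub : ∀ m l : ℕ, m ≠ l → (c m : ℂ) - c l ≠ 0 := by
    intro m l hml
    rw [sub_ne_zero]
    exact fun h => hml (hc (Int.cast_injective h))
  -- (1)
  have h1 : ¬ f ∣ g' := by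
    rintro ⟨Q, hQ⟩
    have h2 : ev (n + 1) g' = 0 := by rw [hQ, map_mul, hevf, zero_mul]
    rw [map_prod] at h2
    refine Finset.prod_ne_zero_iff.2 (fun l _ => ?_) h2
    rw [hevl]
    exact hsub _ _ (by have := l.2; omega)
  have h1' : ∀ P, f ∣ P * g' → f ∣ P := fun P h => (hf.dvd_or_dvd h).resolve_right h1
  -- (2)
  let φ : Lau d →+ A :=
    { toFun := fun P => ringAct α (P * g') a₀
      map_zero' := by
        rw [zero_mul, map_zero]
        rfl
      map_add' := fun P Q => by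
        rw [add_mul, map_add]
        rfl }
  have hφ : ∀ P, φ P = ringAct α (P * g') a₀ := fun _ => rfl
  have hφ0 : ∀ P, φ P = 0 → f ∣ P := fun P h => h1' P ((ha₀ _).1 h)
  have hφα : ∀ (γ : Zd d) P, α γ (φ P) = φ (MonoidAlgebra.single γ 1 * P) := by
    intro γ P
    rw [hφ, hφ, mul_assoc, n34_act_mul α (MonoidAlgebra.single γ 1), n34_act_single]
  -- (3)
  obtain ⟨w, hw, hfw⟩ := N30 f g K hK
  obtain ⟨χB, hχB⟩ := n34_char φ (n34L w) (fun P hP => by
    obtain ⟨Q, rfl⟩ := hφ0 P hP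
    exact n34L_int f g w hfw Q)
  obtain ⟨χ, hχ⟩ := ext_circle φ.range χB
  have hχφ : ∀ P, χ (φ P) = ex (n34L w P) := fun P => by
    rw [← hχB P]
    exact hχ ⟨φ P, P, rfl⟩
  -- (4)
  obtain ⟨n₀, hn₀⟩ := N31 f g hfg w hw hfw
  obtain ⟨E, ε, hε, hE⟩ := N32 w hw n₀ hn₀
  refine moduleCriterion p hp α j π hext U hC φ.range ?_ χ
    (E.image fun m => φ (MonoidAlgebra.single (Multiplicative.ofAdd m) 1)) ?_ ε hε ?_ (n + 1)
    (fun m => ringAct α (gm m) a₀) ?_ n (Nat.lt_succ_self n)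
  · rintro γ _ ⟨P, rfl⟩
    exact ⟨_, (hφα γ P).symm⟩
  · intro b hb
    obtain ⟨m, -, rfl⟩ := Finset.mem_image.1 hb
    exact ⟨_, rfl⟩
  · intro γ hγ
    have hγ' : γ.toAdd ≠ 0 := fun h => hγ (Multiplicative.toAdd.injective h)
    obtain ⟨m, hm, hm'⟩ := hE γ.toAdd hγ'
    refine ⟨_, Finset.mem_image_of_mem _ hm, ?_⟩
    rw [hφα, hχφ, hχφ, MonoidAlgebra.single_mul_single, n34L_single, n34L_single]
    simpa [add_comm] using hm'
  · intro c' hc'
    obtain ⟨P, hP⟩ := hc'
    have hsubE : ∀ (x y : AddMonoid.End A) (a : A), (x - y) a = x a - y a := fun _ _ _ => rfl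
    have hsumE : ∀ (x : Fin (n + 1) → AddMonoid.End A) (a : A),
        (∑ m, x m) a = ∑ m, x m a := fun x a => by
      have := map_sum (AddMonoidHom.eval a : (A →+ A) →+ A) x Finset.univ
      exact this
    have h3 : ringAct α (∑ m, c' m • gm m - P * g') a₀ = 0 := by
      rw [map_sub, hsubE, ← hφ P, hP, map_sum, hsumE, sub_eq_zero]
      refine Finset.sum_congr rfl fun m _ => ?_
      rw [map_zsmul]
      rfl
    obtain ⟨Q, hQ⟩ := (ha₀ _).1 h3
    funext m
    have h4 : ev m (∑ m, c' m • gm m - P * g') = 0 := by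
      rw [hQ, map_mul, hevf, zero_mul]
    have h5 : ev m g' = 0 := by
      rw [map_prod]
      refine Finset.prod_eq_zero (Finset.mem_univ m) ?_
      rw [hevl, sub_self]
    have h6 : ∀ q, q ≠ m → ev m (gm q) = 0 := by
      intro q hq
      rw [map_prod]
      refine Finset.prod_eq_zero (Finset.mem_erase.2 ⟨hq.symm, Finset.mem_univ m⟩) ?_
      rw [hevl, sub_self]
    have h7 : ev m (gm m) ≠ 0 := by
      rw [map_prod]
      refine Finset.prod_ne_zero_iff.2 fun l hl => ?_
      rw [hevl]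
      exact hsub _ _ fun h => (Finset.mem_erase.1 hl).1 (Fin.ext h.symm)
    rw [map_sub, map_mul, h5, mul_zero, sub_zero, map_sum, Finset.sum_eq_single m
      (fun q _ hq => by rw [map_zsmul, h6 q hq, smul_zero])
      (fun h => absurd (Finset.mem_univ m) h), map_zsmul, zsmul_eq_mul] at h4
    exact Int.cast_eq_zero.1 ((mul_eq_zero.1 h4).resolve_right h7)

end Pool.Agent.LibND
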