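import Mathlib
import Pool.Agent.LibND.Defs

set_option autoImplicit false

/-! [ND N35] ONLY MATHLIB. `|f*| = |f|` on the torus, and the square of a derivative of a
nonnegative `f` is bounded by a multiple of `f`.

PLAN. (a) `evT (recip f) t = conj (evT f t)` (`mFourier (-n) = conj (mFourier n)`, integer
coefficients).
(b) `evT (x * y) = evT x * evT y` on the torus (`evT · t` is the value of a ring homomorphism:
`MonoidAlgebra.lift ℤ ℂ (Zd d) (n ↦ mFourier n t)`), so `evT (theta i f ^ 2) t = (evT (theta i f) t)²`.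
For real `s` let `F s := evT f (t + s e_i)` (`e_i` the `i`-th basis vector):
`F s = ∑_n f_n e(n·t) e(n_i s)`, real, `≥ 0`, smooth, `F' s = 2 π i evT (theta i f) (t + s e_i)`,
`|F''| ≤ M := ∑_n |f_n| (2 π n_i)²`. Taylor: `0 ≤ F s ≤ F 0 + F' 0 * s + M s² / 2` for all real `s`,
so `(F' 0)² ≤ 2 M F 0`, i.e. `4 π² ‖evT (theta i f) t‖² ≤ 2 M ‖evT f t‖`. -/

namespace Pool.Agent.LibND

open ComplexOrder

/-- the character of `ℤ^d` at a point of the torus -/
private noncomputable def N35_chr {d : ℕ} (t : UnitAddTorus (Fin d)) : Zd d →* ℂ where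
  toFun n := UnitAddTorus.mFourier n.toAdd t
  map_one' := by
    rw [toAdd_one, UnitAddTorus.mFourier_zero]
    rfl
  map_mul' m n := by
    rw [toAdd_mul, UnitAddTorus.mFourier_add]

private lemma N35_evT_eq {d : ℕ} (f : Lau d) (t : UnitAddTorus (Fin d)) :
    evT f t = MonoidAlgebra.lift ℤ ℂ (Zd d) (N35_chr t) f := by
  rw [MonoidAlgebra.lift_apply', evT]
  rfl

private lemma N35_evT_mul {d : ℕ} (f g : Lau d) (t : UnitAddTorus (Fin d)) :
    evT (f * g) t = evT f t * evT g t := by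
  simp only [N35_evT_eq, map_mul]

private lemma N35_norm_chr {d : ℕ} (n : Fin d → ℤ) (t : UnitAddTorus (Fin d)) :
    ‖UnitAddTorus.mFourier n t‖ = 1 := by
  simp [UnitAddTorus.mFourier, fourier_apply, norm_prod]

private lemma N35_theta {d : ℕ} (f : Lau d) (i : Fin d) (t : UnitAddTorus (Fin d)) :
    evT (theta i f) t =
      f.coeff.sum fun n c => ((n.toAdd i : ℤ) : ℂ) * ((c : ℂ) * UnitAddTorus.mFourier n.toAdd t) := by
  rw [evT, theta, MonoidAlgebra.coeff_ofCoeff, Finsupp.sum_sum_index]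
  · refine Finsupp.sum_congr fun n _ => ?_
    rw [Finsupp.sum_single_index]
    · push_cast
      ring
    · simp
  · intro n; simp
  · intro n b c; push_cast; ring

/-- the point `t + s e_i` -/
private noncomputable def N35_sh {d : ℕ} (t : UnitAddTorus (Fin d)) (i : Fin d) (s : ℝ) :
    UnitAddTorus (Fin d) := fun j => t j + if j = i then ((s : ℝ) : UnitAddCircle) else 0

private lemma N35_mF_sh {d : ℕ} (n : Fin d → ℤ) (t : UnitAddTorus (Fin d)) (i : Fin d) (s : ℝ) :
    UnitAddTorus.mFourier n (N35_sh t i s) =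
      UnitAddTorus.mFourier n t * Complex.exp (((2 * Real.pi * (n i : ℝ) * s : ℝ) : ℂ) * Complex.I) := by
  have h1 : ∀ j, fourier (n j) (N35_sh t i s j) =
      fourier (n j) (t j) * (if j = i then (fourier (n i) ((s : ℝ) : UnitAddCircle) : ℂ) else 1) := by
    intro j
    simp only [N35_sh]
    split_ifs with h
    · subst h
      simp only [fourier_apply, smul_add, AddCircle.toCircle_add, Circle.coe_mul]
    · simp
  change ∏ j, fourier (n j) (N35_sh t i s j) = (∏ j, fourier (n j) (t j)) * _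
  rw [Finset.prod_congr rfl (fun j _ => h1 j), Finset.prod_mul_distrib]
  congr 1
  rw [Finset.prod_ite_eq' Finset.univ i, if_pos (Finset.mem_univ i), fourier_coe_apply]
  congr 1
  push_cast
  ring

private lemma N35_exp (x : ℝ) : ‖Complex.exp ((x : ℂ) * Complex.I) - 1 - (x : ℂ) * Complex.I‖ ≤
    3 * x ^ 2 := by
  have hn : ‖(x : ℂ) * Complex.I‖ = |x| := by simp
  by_cases hx : |x| ≤ 1
  · have h1 := Complex.norm_exp_sub_one_sub_id_le (x := (x : ℂ) * Complex.I) (by rw [hn]; exact hx)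
    rw [hn, sq_abs] at h1
    nlinarith [sq_nonneg x]
  · push Not at hx
    have h1 : ‖Complex.exp ((x : ℂ) * Complex.I)‖ = 1 := Complex.norm_exp_ofReal_mul_I x
    have h2 : ‖Complex.exp ((x : ℂ) * Complex.I) - 1 - (x : ℂ) * Complex.I‖ ≤ 1 + 1 + |x| := by
      refine (norm_sub_le _ _).trans ?_
      rw [hn]
      gcongr
      refine (norm_sub_le _ _).trans ?_
      rw [h1, norm_one]
    have h3 : |x| ^ 2 = x ^ 2 := sq_abs x
    nlinarith

private noncomputable def N35_M {d : ℕ} (f : Lau d) (i : Fin d) : ℝ :=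
  ∑ n ∈ f.coeff.support, |((f.coeff n : ℤ) : ℝ)| * (3 * (2 * Real.pi * (n.toAdd i : ℝ)) ^ 2)

private lemma N35_taylor {d : ℕ} (f : Lau d) (i : Fin d) (t : UnitAddTorus (Fin d)) (s : ℝ) :
    ‖evT f (N35_sh t i s) - evT f t -
      (s : ℂ) * (((2 * Real.pi : ℝ) : ℂ) * Complex.I * evT (theta i f) t)‖ ≤
      N35_M f i * s ^ 2 := by
  have h1 : evT f (N35_sh t i s) - evT f t -
      (s : ℂ) * (((2 * Real.pi : ℝ) : ℂ) * Complex.I * evT (theta i f) t) =
      ∑ n ∈ f.coeff.support, ((f.coeff n : ℤ) : ℂ) * UnitAddTorus.mFourier n.toAdd t *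
        (Complex.exp (((2 * Real.pi * (n.toAdd i : ℝ) * s : ℝ) : ℂ) * Complex.I) - 1 -
          ((2 * Real.pi * (n.toAdd i : ℝ) * s : ℝ) : ℂ) * Complex.I) := by
    rw [N35_theta]
    simp only [evT, Finsupp.sum, Finset.mul_sum]
    rw [← Finset.sum_sub_distrib, ← Finset.sum_sub_distrib]
    refine Finset.sum_congr rfl fun n _ => ?_
    rw [N35_mF_sh]
    push_cast
    ring
  rw [h1, N35_M, Finset.sum_mul]
  refine (norm_sum_le _ _).trans (Finset.sum_le_sum fun n _ => ?_)
  rw [norm_mul, norm_mul, N35_norm_chr, mul_one, Complex.norm_intCast]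
  refine (mul_le_mul_of_nonneg_left (N35_exp (2 * Real.pi * (n.toAdd i : ℝ) * s))
    (abs_nonneg ((f.coeff n : ℤ) : ℝ))).trans (le_of_eq ?_)
  ring

theorem norm_recip {d : ℕ} (f : Lau d) (t : UnitAddTorus (Fin d)) :
    ‖evT (recip f) t‖ = ‖evT f t‖ := by
  have h : evT (recip f) t = (starRingEnd ℂ) (evT f t) := by
    rw [evT, recip, MonoidAlgebra.coeff_ofCoeff, Finsupp.sum_mapDomain_index]
    · rw [evT, Finsupp.sum, Finsupp.sum, map_sum]
      refine Finset.sum_congr rfl fun n _ => ?_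
      rw [toAdd_inv, UnitAddTorus.mFourier_neg, map_mul]
      simp
    · intro n; simp
    · intro n b c; push_cast; ring
  rw [h, RCLike.norm_conj]

theorem norm_theta_sq {d : ℕ} (f : Lau d) (hf : ∀ t, 0 ≤ evT f t) (i : Fin d) :
    ∃ K : ℝ, ∀ t, ‖evT (theta i f ^ 2) t‖ ≤ K * ‖evT f t‖ := by
  refine ⟨N35_M f i / Real.pi ^ 2, fun t => ?_⟩
  have hpi : 0 < Real.pi := Real.pi_pos
  set E := evT (theta i f) t with hE
  set D : ℂ := ((2 * Real.pi : ℝ) : ℂ) * Complex.I * E with hD
  have hre : ∀ u, evT f u = ((evT f u).re : ℂ) ∧ 0 ≤ (evT f u).re := by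
    intro u
    have h1 := Complex.nonneg_iff.1 (hf u)
    refine ⟨Complex.ext (by simp) (by simp [← h1.2]), h1.1⟩
  have hT : ∀ s : ℝ, ‖evT f (N35_sh t i s) - evT f t - (s : ℂ) * D‖ ≤ N35_M f i * s ^ 2 :=
    fun s => N35_taylor f i t s
  have hM : 0 ≤ N35_M f i :=
    Finset.sum_nonneg fun n _ => by positivity
  have him : D.im = 0 := by
    by_contra hne
    have h1 : ∀ s : ℝ, |s| * |D.im| ≤ N35_M f i * s ^ 2 := by
      intro s
      have h2 := (Complex.abs_im_le_norm _).trans (hT s)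
      rw [(hre (N35_sh t i s)).1, (hre t).1] at h2
      simp only [Complex.sub_im, Complex.ofReal_im, Complex.im_ofReal_mul, sub_self, zero_sub,
        abs_neg, abs_mul] at h2
      exact h2
    have hpos : 0 < |D.im| := abs_pos.2 hne
    have h3 := h1 (|D.im| / (2 * (N35_M f i + 1)))
    have h4 : 0 < |D.im| / (2 * (N35_M f i + 1)) := by positivity
    rw [abs_of_pos h4, sq, ← mul_assoc, mul_comm (N35_M f i), mul_assoc] at h3
    have h5 := le_of_mul_le_mul_left h3 h4
    have h6 : N35_M f i * (|D.im| / (2 * (N35_M f i + 1))) ≤ |D.im| / 2 := by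
      rw [mul_div_assoc', div_le_div_iff₀ (by positivity) (by positivity)]
      nlinarith
    linarith
  have hquad : ∀ s : ℝ, 0 ≤ N35_M f i * (s * s) + D.re * s + (evT f t).re := by
    intro s
    have h2 := (Complex.abs_re_le_norm _).trans (hT s)
    have h3 := (abs_le.1 h2).2
    rw [Complex.sub_re, Complex.sub_re, Complex.re_ofReal_mul] at h3
    have h4 := (hre (N35_sh t i s)).2
    nlinarith
  have hdisc := discrim_le_zero hquad
  rw [discrim] at hdisc
  have hDn : ‖D‖ ^ 2 = D.re ^ 2 := by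
    rw [← Complex.normSq_eq_norm_sq, Complex.normSq_apply, him]
    ring
  have hDE : ‖D‖ = 2 * Real.pi * ‖E‖ := by
    rw [hD, norm_mul, norm_mul, Complex.norm_I, Complex.norm_real, Real.norm_of_nonneg
      (by positivity)]
    ring
  have hfn : ‖evT f t‖ = (evT f t).re := by
    rw [(hre t).1, Complex.norm_real, Real.norm_of_nonneg (hre t).2]
    simp
  rw [sq, N35_evT_mul, norm_mul, hfn, div_mul_eq_mul_div, le_div_iff₀ (by positivity)]
  rw [hDE] at hDn
  nlinarith

end Pool.Agent.LibND
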