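import Mathlib
import Pool.Agent.LibND.Defs

set_option autoImplicit false

/-! [ND N36] ONLY MATHLIB. A prime Laurent polynomial which divides no nonzero integer does not
divide all its derivatives.

PLAN. As `f ∣ c` is impossible for integers `c ≠ 0` and `f ≠ 0`, `f` has two exponents `m ≠ m'` in its
support (monomials are units), say `m i ≠ m' i`. Suppose `theta i f = h * f`. For a linear order on
`Fin d → ℤ` (a group order, e.g. the lexicographic order starting with the coordinate `i`, or any
pair of maximal exponent arguments), look at exponents with maximal `i`-coordinate: for a nonzero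
Laurent polynomial `x` let `D x` (resp. `D' x`) be the maximal (resp. minimal) `i`-th coordinate of
its support; `D (x * y) = D x + D y` and the leading parts multiply (`Lau d` is a domain).
`theta i f ≠ 0` (`m i ≠ m' i`, so one of them is nonzero), `D (theta i f) ≤ D f`,
`D' (theta i f) ≥ D' f`, so `D h ≤ 0 ≤ D' h`: all exponents of `h` have `i`-coordinate `0`.
The part of `h * f` of `i`-coordinate `D f` is `h * (leading part of f)`, and it is also
`D f • (leading part of f)`, so `h = D f` (domain); in the same way `h = D' f`; so `D f = D' f`,
contradiction. ALTERNATIVE without orders: for every integer `e` let `f_e` be the part of `f` of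
`i`-coordinate `e`; the Laurent polynomial ring is a domain graded by the `i`-coordinate; or apply
the ring isomorphism `Lau d ≃ (Lau (d-1))[T;T⁻¹]` and degrees. -/

namespace Pool.Agent.LibND

private theorem n36_coeff {d : ℕ} (i : Fin d) (x : Lau d) (n : Zd d) :
    (theta i x).coeff n = n.toAdd i * x.coeff n := by
  classical
  unfold theta
  rw [MonoidAlgebra.coeff_ofCoeff, Finsupp.sum_apply, Finsupp.sum]
  rw [Finset.sum_eq_single n]
  · rw [Finsupp.single_eq_same]
  · intro b _ hb
    exact Finsupp.single_eq_of_ne' hb
  · intro hn
    rw [Finsupp.single_eq_same, Finsupp.notMem_support_iff.mp hn, mul_zero]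

private theorem n36_zero {d : ℕ} (i : Fin d) : theta i (0 : Lau d) = 0 := by
  apply MonoidAlgebra.coeff_injective
  ext n
  rw [n36_coeff]
  simp

private theorem n36_add {d : ℕ} (i : Fin d) (x y : Lau d) :
    theta i (x + y) = theta i x + theta i y := by
  apply MonoidAlgebra.coeff_injective
  ext n
  rw [MonoidAlgebra.coeff_add, Finsupp.add_apply, n36_coeff, n36_coeff, n36_coeff,
    MonoidAlgebra.coeff_add, Finsupp.add_apply, mul_add]

private theorem n36_single {d : ℕ} (i : Fin d) (m : Zd d) (c : ℤ) :
    theta i (MonoidAlgebra.single m c) = MonoidAlgebra.single m (m.toAdd i * c) := by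
  classical
  apply MonoidAlgebra.coeff_injective
  ext n
  rw [n36_coeff, MonoidAlgebra.coeff_single, MonoidAlgebra.coeff_single, Finsupp.single_apply,
    Finsupp.single_apply]
  by_cases h : m = n
  · rw [if_pos h, if_pos h, h]
  · rw [if_neg h, if_neg h, mul_zero]

private theorem n36_mul_single {d : ℕ} (i : Fin d) (m n : Zd d) (a b : ℤ) :
    theta i ((MonoidAlgebra.single m a : Lau d) * MonoidAlgebra.single n b) =
      theta i (MonoidAlgebra.single m a) * MonoidAlgebra.single n b +
        MonoidAlgebra.single m a * theta i (MonoidAlgebra.single n b) := by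
  rw [MonoidAlgebra.single_mul_single, n36_single, n36_single, n36_single,
    MonoidAlgebra.single_mul_single, MonoidAlgebra.single_mul_single, ← MonoidAlgebra.single_add]
  congr 1
  rw [toAdd_mul, Pi.add_apply]
  ring

private theorem n36_mul {d : ℕ} (i : Fin d) (x y : Lau d) :
    theta i (x * y) = theta i x * y + x * theta i y := by
  induction x using MonoidAlgebra.induction_linear with
  | zero => rw [zero_mul, n36_zero, zero_mul, zero_mul, add_zero]
  | add x₁ x₂ h₁ h₂ =>
    rw [add_mul, n36_add, h₁, h₂, n36_add]
    ring
  | single m a =>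
    induction y using MonoidAlgebra.induction_linear with
    | zero => rw [mul_zero, n36_zero, mul_zero, mul_zero, add_zero]
    | add y₁ y₂ h₁ h₂ =>
      rw [mul_add, n36_add, h₁, h₂, n36_add]
      ring
    | single n b => exact n36_mul_single i m n a b

private theorem n36_key {d : ℕ} (f : Lau d) (h : ∀ i : Fin d, f ∣ theta i f)
    (hint : ∀ n : ℤ, n ≠ 0 → ¬ f ∣ (n : Lau d)) :
    ∀ (k : ℕ) (g : Lau d), g.coeff.support.card ≤ k → g ≠ 0 → ¬ f ∣ g := by
  intro k
  induction k with
  | zero =>
    intro g hk hg
    exfalso
    apply hg
    rw [← MonoidAlgebra.coeff_eq_zero, ← Finsupp.support_eq_empty, ← Finset.card_eq_zero]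
    omega
  | succ k ih =>
    intro g hk hg hfg
    have hne : g.coeff.support.Nonempty := by
      rw [Finset.nonempty_iff_ne_empty, Ne, Finsupp.support_eq_empty]
      intro hc
      exact hg (MonoidAlgebra.coeff_eq_zero.mp hc)
    obtain ⟨m, hm⟩ := hne
    by_cases hall : ∀ m' ∈ g.coeff.support, m' = m
    · -- a monomial
      have hgm : g = MonoidAlgebra.single m (g.coeff m) := by
        apply MonoidAlgebra.coeff_injective
        rw [MonoidAlgebra.coeff_single]
        ext n
        classical
        rw [Finsupp.single_apply]
        by_cases hn : m = n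
        · rw [if_pos hn, hn]
        · rw [if_neg hn]
          by_contra hc
          exact hn (hall n (Finsupp.mem_support_iff.mpr hc)).symm
      apply hint (g.coeff m) (Finsupp.mem_support_iff.mp hm)
      have hu : ((g.coeff m : ℤ) : Lau d) = g * MonoidAlgebra.single m⁻¹ 1 := by
        conv_rhs => rw [hgm]
        rw [MonoidAlgebra.single_mul_single, mul_inv_cancel, mul_one, MonoidAlgebra.intCast_def]
        simp
      rw [hu]
      exact hfg.mul_right _
    · push Not at hall
      obtain ⟨m', hm', hmm⟩ := hall
      have hi : ∃ i, m'.toAdd i ≠ m.toAdd i := by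
        by_contra hc
        push Not at hc
        exact hmm (Multiplicative.toAdd.injective (funext hc))
      obtain ⟨i, hi⟩ := hi
      have hdiv : f ∣ theta i g - (m.toAdd i : Lau d) * g := by
        obtain ⟨q, hq⟩ := hfg
        rw [hq, n36_mul]
        apply dvd_sub
        · exact dvd_add ((h i).mul_right _) (dvd_mul_right _ _)
        · exact Dvd.dvd.mul_left (dvd_mul_right _ _) _
      have hco : ∀ n, (theta i g - (m.toAdd i : Lau d) * g).coeff n =
          (n.toAdd i - m.toAdd i) * g.coeff n := by
        intro n
        rw [MonoidAlgebra.coeff_sub, Finsupp.sub_apply, n36_coeff, MonoidAlgebra.intCast_def,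
          MonoidAlgebra.coeff_single_one_mul]
        simp only [Int.cast_id]
        ring
      refine ih (theta i g - (m.toAdd i : Lau d) * g) ?_ ?_ hdiv
      · have hsub : (theta i g - (m.toAdd i : Lau d) * g).coeff.support ⊂ g.coeff.support := by
          rw [Finset.ssubset_iff_of_subset]
          · refine ⟨m, hm, ?_⟩
            rw [Finsupp.notMem_support_iff, hco, sub_self, zero_mul]
          · intro n hn
            rw [Finsupp.mem_support_iff, hco] at hn
            exact Finsupp.mem_support_iff.mpr (right_ne_zero_of_mul hn)
        have := Finset.card_lt_card hsub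
        omega
      · intro hc
        have := hco m'
        rw [hc] at this
        simp only [MonoidAlgebra.coeff_zero, Finsupp.coe_zero, Pi.zero_apply] at this
        exact mul_ne_zero (sub_ne_zero.mpr hi) (Finsupp.mem_support_iff.mp hm') this.symm

theorem N36 {d : ℕ} (f : Lau d) (hf : Prime f)
    (hint : ∀ n : ℤ, n ≠ 0 → ¬ f ∣ (n : Lau d)) : ∃ i : Fin d, ¬ f ∣ theta i f := by
  by_contra hc
  push Not at hc
  exact n36_key f hc hint _ f le_rfl hf.ne_zero dvd_rfl

end Pool.Agent.LibND
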