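import Mathlib
import Pool.Agent.LibND.N34
import Pool.Agent.LibND.N35
import Pool.Agent.LibND.N36

set_option autoImplicit false

/-! Extensions of `ℤ^d` by a module with an atoral associated prime. -/

namespace Pool.Agent.LibND

universe w

open ComplexOrder

/-- `f` is atoral, in one of three ways: it is not self-reciprocal, or it is nonnegative on the
torus, or it bounds (up to a constant) some `g` which it does not divide. -/
def Atoral {d : ℕ} (f : Lau d) : Prop :=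
  ¬ f ∣ recip f ∨ (∀ t, 0 ≤ evT f t) ∨
    ∃ (g : Lau d) (K : ℝ), ¬ f ∣ g ∧ ∀ t, ‖evT g t‖ ≤ K * ‖evT f t‖

theorem Atoral.exists {d : ℕ} (f : Lau d) (hf : Prime f)
    (hint : ∀ n : ℤ, n ≠ 0 → ¬ f ∣ (n : Lau d)) (h : Atoral f) :
    ∃ (g : Lau d) (K : ℝ), ¬ f ∣ g ∧ ∀ t, ‖evT g t‖ ≤ K * ‖evT f t‖ := by
  rcases h with h | h | h
  · exact ⟨recip f, 1, h, fun t => by rw [norm_recip, one_mul]⟩
  · obtain ⟨i, hi⟩ := N36 f hf hint
    obtain ⟨K, hK⟩ := norm_theta_sq f h i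
    exact ⟨theta i f ^ 2, K, fun hdiv => hi (hf.dvd_of_dvd_pow hdiv), hK⟩
  · exact h

theorem atoral_main {d : ℕ} (hd : 2 ≤ d) (f : Lau d) (hf : Prime f)
    (hint : ∀ n : ℤ, n ≠ 0 → ¬ f ∣ (n : Lau d)) (hat : Atoral f)
    {G G₀ A : Type} [Group G] [Group G₀] [AddCommGroup A]
    (p : G →* G₀) (hp : Function.Surjective p) (α : Zd d →* AddMonoid.End A)
    (j : Multiplicative A →* G₀) (π : G₀ →* Zd d) (hext : IsExt α j π)
    {C : Type w} [CStarAlgebra C] [PartialOrder C] [StarOrderedRing C] (U : G →* unitary C)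
    (hC : IsGroupCStar G C U) (a₀ : A) (ha₀ : ∀ P : Lau d, ringAct α P a₀ = 0 ↔ f ∣ P) (n : ℕ) :
    ¬ NucDimLE C n := by
  obtain ⟨g, K, hfg, hK⟩ := hat.exists f hf hint
  exact N34 hd f g hf hint hfg K hK p hp α j π hext U hC a₀ ha₀ n

end Pool.Agent.LibND
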