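import Mathlib
import Pool.Agent.LibND.N33

set_option autoImplicit false

/-! Modules with an associated prime `(f)` of characteristic zero over `ℤ[ℤ^d]`, `d ≥ 2`, have
infinite rank. -/

namespace Pool.Agent.LibND

open Polynomial in
theorem rank_of_ann {d : ℕ} (hd : 2 ≤ d) (f : Lau d) (hf : Prime f)
    (hint : ∀ n : ℤ, n ≠ 0 → ¬ f ∣ (n : Lau d)) {A : Type*} [AddCommGroup A]
    (α : Zd d →* AddMonoid.End A) (a₀ : A) (ha₀ : ∀ P : Lau d, ringAct α P a₀ = 0 ↔ f ∣ P)
    (k : ℕ) : ∃ a : Fin k → A, LinearIndependent ℤ a := by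
  obtain ⟨i, hi⟩ := N33 hd f hf hint
  set X : Lau d := MonoidAlgebra.single (Multiplicative.ofAdd (Pi.single i 1)) 1 with hX
  refine ⟨fun m => ringAct α (X ^ (m : ℕ)) a₀, ?_⟩
  rw [Fintype.linearIndependent_iff]
  intro c hc
  -- the polynomial
  set q : ℤ[X] := ∑ m : Fin k, Polynomial.C (c m) * Polynomial.X ^ (m : ℕ) with hq
  have h1 : ringAct α (aeval X q) a₀ = 0 := by
    rw [← hc, hq, map_sum, map_sum]
    refine (map_sum (AddMonoidHom.eval a₀ : (A →+ A) →+ A) _ _).trans ?_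
    refine Finset.sum_congr rfl fun m _ => ?_
    show (ringAct α) ((aeval X) (C (c m) * Polynomial.X ^ (m : ℕ))) a₀ = _
    rw [map_mul, map_pow, aeval_C, aeval_X, map_mul]
    have h2 : ringAct α (algebraMap ℤ (Lau d) (c m)) = c m • (1 : AddMonoid.End A) := by
      rw [AlgHom.commutes, Algebra.algebraMap_eq_smul_one]
    rw [h2]
    simp
  have h3 := (ha₀ _).1 h1
  have h4 : ∀ z ∈ {c : ℤ | ∃ ev : Lau d →+* ℂ, ev f = 0 ∧ ev X = (c : ℂ)}, q.eval z = 0 := by
    rintro z ⟨ev, hev, hevX⟩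
    have h5 : ev (aeval X q) = 0 := by
      obtain ⟨r, hr⟩ := h3
      rw [hr, map_mul, hev, zero_mul]
    have h6 : ev (aeval X q) = ((q.eval z : ℤ) : ℂ) := by
      have h7 : ev.comp (aeval X : ℤ[X] →ₐ[ℤ] Lau d).toRingHom =
          (Int.castRingHom ℂ).comp (evalRingHom z) := by
        refine Polynomial.ringHom_ext (fun n => ?_) ?_
        · simp
        · simpa using hevX
      exact congrArg (fun φ : ℤ[X] →+* ℂ => φ q) h7
    rw [h6] at h5
    exact_mod_cast h5
  have h8 : q = 0 := Polynomial.eq_zero_of_infinite_isRoot q (hi.mono fun z hz => h4 z hz)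
  intro m
  have h9 : q.coeff (m : ℕ) = c m := by
    rw [hq, Polynomial.finset_sum_coeff]
    rw [Finset.sum_eq_single m]
    · simp
    · intro l _ hl
      rw [Polynomial.coeff_C_mul, Polynomial.coeff_X_pow, if_neg, mul_zero]
      exact fun h => hl (Fin.ext h.symm)
    · intro h
      exact absurd (Finset.mem_univ m) h
  rw [← h9, h8, Polynomial.coeff_zero]

end Pool.Agent.LibND
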