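import Mathlib
import Pool.Agent.LibND.N50
import Pool.Agent.LibND.N51

set_option autoImplicit false

/-! Let `d ≥ 2` and let `G₀` be an extension, split or not, of `ℤ^d` by an abelian group `A`, such
that the `ℤ[ℤ^d]`-module `A` has an associated prime `(f)` which is atoral and of characteristic
zero. Then `A` has infinite rank (so that the Hirsch length of `G₀` is infinite), and the full group
C*-algebra of every group with quotient `G₀` has infinite nuclear dimension. -/

namespace Pool.Agent.LibND.AtoralPrimes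

open Pool.Agent.LibND

universe w

theorem result {d : ℕ} (hd : 2 ≤ d) (f : Lau d) (hf : Prime f)
    (hint : ∀ n : ℤ, n ≠ 0 → ¬ f ∣ (n : Lau d)) (hat : Atoral f)
    {G₀ A : Type} [Group G₀] [AddCommGroup A] (α : Zd d →* AddMonoid.End A)
    (j : Multiplicative A →* G₀) (π : G₀ →* Zd d) (hext : IsExt α j π)
    (a₀ : A) (ha₀ : ∀ P : Lau d, ringAct α P a₀ = 0 ↔ f ∣ P) :
    (∀ k : ℕ, ∃ a : Fin k → A, LinearIndependent ℤ a) ∧
      ∀ {G : Type} [Group G] (p : G →* G₀), Function.Surjective p →
        ∀ {C : Type w} [CStarAlgebra C] [PartialOrder C] [StarOrderedRing C]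
          (U : G →* unitary C), IsGroupCStar G C U → ∀ n : ℕ, ¬ NucDimLE C n :=
  ⟨rank_of_ann hd f hf hint α a₀ ha₀, fun p hp _ _ _ _ U hC n =>
    atoral_main hd f hf hint hat p hp α j π hext U hC a₀ ha₀ n⟩

end Pool.Agent.LibND.AtoralPrimes
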