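import Mathlib
import Pool.Agent.LibND.N15

set_option autoImplicit false

/-! [ND N23] Permutational wreath products `ℤ ≀_X H` with `X` infinite.

PLAN. Given `n`, put `k := n + 1` and choose `x : Fin k → X` injective (`X` infinite). Apply
`criterion` (with the given `p`) with `M := {y | y.snd = 1}` (normal; elements `(f, 1)`),
`S := {y | ∀ i, y.snd • x i = x i}`, and `θ i r := (4 * i + 1 + r) / (4 * k + 4) ∈ (0, 1)` (for
`r ∈ [0, 1]`), `ζ s y := ex (∑ i, θ i (s i) * y.fst (x i))` for `y ∈ S` (multiplicative on `S`: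
`(y y').fst (x i) = y.fst (x i) + y'.fst (y.snd⁻¹ • x i)`). `E := {(single (x i) 1, 1) | i}`.
Injectivity: `ζ s (single (x i) 1, 1) = ex (θ i (s i))`, `ex` is injective on `(0, 1)`.
Separation: `g ∉ S`: some `i` has `g.snd • x i ≠ x i`, i.e. `x' := g.snd⁻¹ • x i ≠ x i`.
`g⁻¹ * (single (x i) 1, 1) * g = (single x' 1, 1)`, so the value of `ζ s` there is `1 = ex 0` if `x'`
is none of the `x l`, and `ex (θ l (s l))` with `l ≠ i` if `x' = x l`. In both cases the argument
differs from `θ i (t i)` modulo `ℤ` by at least `1 / (4 * k + 4)` (the intervals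
`[(4i+1)/(4k+4), (4i+2)/(4k+4)]`, `0 ≤ i < k`, and `0`), so the distance on the circle is at least
an explicit positive constant, e.g. `4 * (1 / (4 * k + 4))` (`‖e(x) - e(y)‖ ≥ 4 ‖x - y‖_{ℝ/ℤ}`), or
use compactness to get `ε`. -/

namespace Pool.Agent.LibND

universe u w

section aux

variable {H X : Type u} [Group H] [MulAction H X]

private theorem N23_permAct_apply (h : H) (f : X →₀ ℤ) (x : X) :
    permAct H X h f x = f (h⁻¹ • x) := by
  have h1 : permAct H X h f = Finsupp.mapDomain (h • ·) f := rfl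
  rw [h1]
  conv_lhs => rw [← smul_inv_smul h x]
  exact Finsupp.mapDomain_apply (MulAction.injective h) f (h⁻¹ • x)

private theorem N23_permAct_single (h : H) (x : X) (c : ℤ) :
    permAct H X h (Finsupp.single x c) = Finsupp.single (h • x) c := by
  have h1 : permAct H X h (Finsupp.single x c) = Finsupp.mapDomain (h • ·)
    (Finsupp.single x c) := rfl
  rw [h1, Finsupp.mapDomain_single]

private noncomputable def N23_snd : Wr H X →* H where
  toFun y := y.snd
  map_one' := rfl
  map_mul' _ _ := rfl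

private noncomputable def N23_M : Subgroup (Wr H X) := (N23_snd (H := H) (X := X)).ker

private instance : (N23_M (H := H) (X := X)).Normal := by
  unfold N23_M; infer_instance

private theorem N23_mem_M (y : Wr H X) : y ∈ N23_M (H := H) (X := X) ↔ y.snd = 1 := Iff.rfl

private def N23_S {k : ℕ} (x : Fin k → X) : Subgroup (Wr H X) where
  carrier := {y | ∀ i, y.snd • x i = x i}
  mul_mem' := by
    intro a b ha hb i
    change (a.snd * b.snd) • x i = x i
    rw [mul_smul, hb, ha]
  one_mem' := fun i => one_smul _ _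
  inv_mem' := by
    intro a ha i
    change a.snd⁻¹ • x i = x i
    rw [inv_smul_eq_iff, ha i]

private theorem N23_M_le_S {k : ℕ} (x : Fin k → X) : N23_M (H := H) ≤ N23_S x := by
  intro y hy i
  rw [(N23_mem_M y).1 hy, one_smul]

private noncomputable def N23_th (k : ℕ) (i : Fin k) (r : ℝ) : ℝ :=
  (4 * (i : ℝ) + 1 + r) / (4 * k + 4)

private theorem N23_ex_add (a b : ℝ) : ex (a + b) = ex a * ex b := by
  unfold ex
  rw [mul_add, Circle.exp_add]

private theorem N23_ex_zero : ex 0 = 1 := by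
  unfold ex
  rw [mul_zero, Circle.exp_zero]

private noncomputable def N23_ze {k : ℕ} (x : Fin k → X) (s : Fin k → ℝ) :
    N23_S (H := H) x →* Circle where
  toFun y := ex (∑ i, N23_th k i (s i) * (((y : Wr H X).fst (x i) : ℤ) : ℝ))
  map_one' := by
    have h : ∀ i, (((1 : N23_S (H := H) x) : Wr H X).fst (x i)) = 0 := fun i => rfl
    simp only [h, Int.cast_zero, mul_zero, Finset.sum_const_zero]
    exact N23_ex_zero
  map_mul' := by
    intro y z
    rw [← N23_ex_add, ← Finset.sum_add_distrib]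
    congr 1
    refine Finset.sum_congr rfl fun i _ => ?_
    have h : (((y * z : N23_S (H := H) x) : Wr H X).fst (x i)) =
        (y : Wr H X).fst (x i) + (z : Wr H X).fst (x i) := by
      have h1 : (((y * z : N23_S (H := H) x) : Wr H X).fst (x i)) =
        (y : Wr H X).fst (x i) + permAct H X (y : Wr H X).snd (z : Wr H X).fst (x i) := rfl
      rw [h1, N23_permAct_apply]
      congr 2
      rw [inv_smul_eq_iff]
      exact (y.2 i).symm
    rw [h]
    push_cast
    ring

private theorem N23_ze_apply {k : ℕ} (x : Fin k → X) (s : Fin k → ℝ) (y : N23_S (H := H) x) :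
    N23_ze x s y = ex (∑ i, N23_th k i (s i) * (((y : Wr H X).fst (x i) : ℤ) : ℝ)) := rfl

private theorem N23_th_mem {k : ℕ} (i : Fin k) (r : ℝ) (h0 : 0 ≤ r) (h1 : r ≤ 1) :
    (4 * (i : ℝ) + 1) / (4 * k + 4) ≤ N23_th k i r ∧
      N23_th k i r ≤ (4 * (i : ℝ) + 2) / (4 * k + 4) := by
  unfold N23_th
  have hk : (0 : ℝ) < 4 * k + 4 := by positivity
  constructor
  · exact div_le_div_of_nonneg_right (by linarith) hk.le
  · exact div_le_div_of_nonneg_right (by linarith) hk.le

private theorem N23_cos_le {δ v : ℝ} (hδ : 0 < δ) (h1 : δ ≤ |v|) (h2 : |v| ≤ 1 - δ) :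
    Real.cos (2 * Real.pi * v) ≤ Real.cos (2 * Real.pi * δ) := by
  have hpi := Real.pi_pos
  have habs : Real.cos (2 * Real.pi * v) = Real.cos (2 * Real.pi * |v|) := by
    rw [← Real.cos_abs, abs_mul, abs_of_pos (by positivity : (0 : ℝ) < 2 * Real.pi)]
  rw [habs]
  rcases le_or_gt (|v|) (1 / 2) with h | h
  · apply Real.cos_le_cos_of_nonneg_of_le_pi
    · positivity
    · nlinarith
    · nlinarith
  · have h3 : Real.cos (2 * Real.pi * |v|) = Real.cos (2 * Real.pi * (1 - |v|)) := by
      rw [show 2 * Real.pi * (1 - |v|) = 2 * Real.pi - 2 * Real.pi * |v| by ring,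
        Real.cos_two_pi_sub]
    rw [h3]
    apply Real.cos_le_cos_of_nonneg_of_le_pi
    · positivity
    · nlinarith
    · nlinarith

private theorem N23_dist (a b : ℝ) :
    dist (ex a) (ex b) ^ 2 = 2 - 2 * Real.cos (2 * Real.pi * (a - b)) := by
  have h1 : dist (ex a) (ex b) = ‖((ex a : Circle) : ℂ) - ((ex b : Circle) : ℂ)‖ := by
    rw [← dist_eq_norm]
    rfl
  have h2 : Real.cos (2 * Real.pi * (a - b)) =
      Real.cos (2 * Real.pi * a) * Real.cos (2 * Real.pi * b) +
        Real.sin (2 * Real.pi * a) * Real.sin (2 * Real.pi * b) := by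
    rw [mul_sub, Real.cos_sub]
  rw [h1, h2]
  unfold ex
  rw [Circle.coe_exp, Circle.coe_exp, ← Complex.normSq_eq_norm_sq, Complex.normSq_apply,
    Complex.sub_re, Complex.sub_im, Complex.exp_ofReal_mul_I_re, Complex.exp_ofReal_mul_I_re,
    Complex.exp_ofReal_mul_I_im, Complex.exp_ofReal_mul_I_im]
  nlinarith [Real.sin_sq_add_cos_sq (2 * Real.pi * a), Real.sin_sq_add_cos_sq (2 * Real.pi * b)]

private theorem N23_dist_ge {δ a b : ℝ} (hδ : 0 < δ) (h1 : δ ≤ |a - b|) (h2 : |a - b| ≤ 1 - δ) :
    Real.sqrt (2 - 2 * Real.cos (2 * Real.pi * δ)) ≤ dist (ex a) (ex b) := by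
  rw [Real.sqrt_le_left dist_nonneg, N23_dist]
  linarith [N23_cos_le hδ h1 h2]

private theorem N23_ex_inj {a b : ℝ} (h : ex a = ex b) (hab : |a - b| < 1) : a = b := by
  unfold ex at h
  rw [Circle.exp_eq_exp] at h
  obtain ⟨m, hm⟩ := h
  have hpi := Real.pi_pos
  have h1 : a - b = m := by
    have : 2 * Real.pi * (a - b) = 2 * Real.pi * m := by
      rw [mul_sub, hm]; ring
    exact mul_left_cancel₀ (by positivity) this
  rw [h1] at hab
  have h2 : |m| < 1 := by exact_mod_cast hab
  have h3 : m = 0 := Int.abs_lt_one_iff.1 h2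
  rw [h3] at h1
  simpa [sub_eq_zero] using h1

private noncomputable def N23_e (x : X) : N23_M (H := H) (X := X) :=
  ⟨⟨Finsupp.single x 1, 1⟩, rfl⟩

end aux

theorem wreath {G H X : Type u} [Group G] [Group H] [MulAction H X] [Infinite X]
    (p : G →* Wr H X) (hp : Function.Surjective p)
    {C : Type w} [CStarAlgebra C] [PartialOrder C] [StarOrderedRing C] (U : G →* unitary C)
    (hC : IsGroupCStar G C U) (n : ℕ) : ¬ NucDimLE C n := by
  classical
  obtain ⟨k, hk⟩ : ∃ k, k = n + 1 := ⟨_, rfl⟩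
  obtain ⟨x, hx⟩ : ∃ x : Fin k → X, Function.Injective x :=
    ⟨fun i => Infinite.natEmbedding X i,
      fun i j h => Fin.ext ((Infinite.natEmbedding X).injective h)⟩
  have hkpos : (0 : ℝ) < 4 * k + 4 := by positivity
  set δ : ℝ := 1 / (4 * k + 4) with hδ
  have hδpos : 0 < δ := by positivity
  have hk1 : (1 : ℝ) ≤ k := by rw [hk]; push_cast; linarith [(Nat.cast_nonneg n : (0 : ℝ) ≤ n)]
  have hδ8 : δ ≤ 1 / 8 := by
    rw [hδ]
    apply one_div_le_one_div_of_le <;> linarith
  -- the values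
  have hval : ∀ (s : Fin k → ℝ) (l : Fin k) (hm : (⟨Finsupp.single (x l) 1, 1⟩ : Wr H X) ∈
      N23_S (H := H) x), N23_ze x s ⟨⟨Finsupp.single (x l) 1, 1⟩, hm⟩ =
        ex (N23_th k l (s l)) := by
    intro s l hm
    rw [N23_ze_apply]
    congr 1
    rw [Finset.sum_eq_single l]
    · change N23_th k l (s l) * ((Finsupp.single (x l) (1 : ℤ) (x l) : ℤ) : ℝ) = _
      rw [Finsupp.single_eq_same]
      simp
    · intro j _ hj
      change N23_th k j (s j) * ((Finsupp.single (x l) (1 : ℤ) (x j) : ℤ) : ℝ) = _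
      rw [Finsupp.single_eq_of_ne (fun h => hj (hx h))]
      simp
    · intro h; exact absurd (Finset.mem_univ _) h
  have hval0 : ∀ (s : Fin k → ℝ) (x' : X) (hx' : ∀ l, x l ≠ x')
      (hm : (⟨Finsupp.single x' 1, 1⟩ : Wr H X) ∈ N23_S (H := H) x),
      N23_ze x s ⟨⟨Finsupp.single x' 1, 1⟩, hm⟩ = ex 0 := by
    intro s x' hx' hm
    rw [N23_ze_apply]
    congr 1
    refine Finset.sum_eq_zero fun j _ => ?_
    change N23_th k j (s j) * ((Finsupp.single x' (1 : ℤ) (x j) : ℤ) : ℝ) = _
    rw [Finsupp.single_eq_of_ne (hx' j)]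
    simp
  have hthb : ∀ (i : Fin k) (r : ℝ), 0 ≤ r → r ≤ 1 → δ ≤ N23_th k i r ∧
      N23_th k i r ≤ 1 - δ := by
    intro i r h0 h1
    obtain ⟨h2, h3⟩ := N23_th_mem i r h0 h1
    have hi : (i : ℝ) + 1 ≤ k := by exact_mod_cast i.2
    have hi0 : (0 : ℝ) ≤ i := Nat.cast_nonneg _
    constructor
    · refine le_trans ?_ h2
      rw [hδ]
      gcongr
      linarith
    · refine le_trans h3 ?_
      rw [hδ, div_le_iff₀ hkpos, sub_mul, one_div, inv_mul_cancel₀ hkpos.ne']
      linarith
  refine criterion p hp U hC (N23_M (H := H) (X := X)) (N23_S x) (N23_M_le_S x) k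
    (fun s => N23_ze x s) ?_ (Finset.univ.image fun i => N23_e (H := H) (x i)) ?_
    (Real.sqrt (2 - 2 * Real.cos (2 * Real.pi * δ))) ?_ ?_ n (by omega)
  · intro g
    apply Continuous.continuousOn
    simp only [N23_ze_apply]
    unfold ex N23_th
    apply Circle.exp.continuous.comp
    fun_prop
  · intro s hs t ht hst
    funext i
    have h1 := hst (N23_e (x i)) (Finset.mem_image_of_mem _ (Finset.mem_univ i))
    have h2 : ex (N23_th k i (s i)) = ex (N23_th k i (t i)) := by
      rw [← hval s i (N23_M_le_S x (N23_e (x i)).2), ← hval t i (N23_M_le_S x (N23_e (x i)).2)]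
      exact h1
    have h3 := N23_ex_inj h2 (by
      obtain ⟨h4, h5⟩ := hthb i (s i) (hs i).1 (hs i).2
      obtain ⟨h6, h7⟩ := hthb i (t i) (ht i).1 (ht i).2
      rw [abs_lt]
      constructor <;> linarith)
    unfold N23_th at h3
    rw [div_left_inj' hkpos.ne'] at h3
    linarith
  · apply Real.sqrt_pos.2
    have h1 : Real.cos (2 * Real.pi * δ) < 1 := by
      have h2 : Real.cos (2 * Real.pi * δ) < Real.cos 0 := by
        apply Real.cos_lt_cos_of_nonneg_of_le_pi le_rfl
        · nlinarith [Real.pi_pos]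
        · have := Real.pi_pos
          positivity
      rwa [Real.cos_zero] at h2
    linarith
  · intro s hs t ht g hg
    have h1 : ∃ i, g.snd • x i ≠ x i := by
      by_contra h
      push Not at h
      exact hg h
    obtain ⟨i, hi⟩ := h1
    refine ⟨N23_e (x i), Finset.mem_image_of_mem _ (Finset.mem_univ i), ?_⟩
    set x' : X := g.snd⁻¹ • x i with hx'
    have hx'i : x' ≠ x i := by
      intro h
      apply hi
      rw [hx', inv_smul_eq_iff] at h
      exact h.symm
    have hconj : ((MulAut.conjNormal g⁻¹ (N23_e (H := H) (x i)) : N23_M (H := H) (X := X)) :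
        Wr H X) = ⟨Finsupp.single x' 1, 1⟩ := by
      rw [MulAut.conjNormal_apply, inv_inv]
      have h2 : g⁻¹ * (N23_e (H := H) (x i) : Wr H X) * g =
        ⟨-permAct H X g.snd⁻¹ g.fst + permAct H X g.snd⁻¹ (Finsupp.single (x i) 1) +
          permAct H X (g.snd⁻¹ * 1) g.fst, g.snd⁻¹ * 1 * g.snd⟩ := rfl
      rw [h2]
      apply SD.ext
      · change -permAct H X g.snd⁻¹ g.fst + permAct H X g.snd⁻¹ (Finsupp.single (x i) 1) +
          permAct H X (g.snd⁻¹ * 1) g.fst = Finsupp.single x' 1
        rw [mul_one, N23_permAct_single]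
        abel
      · change g.snd⁻¹ * 1 * g.snd = 1
        simp
    have hm : (⟨Finsupp.single x' 1, 1⟩ : Wr H X) ∈ N23_S (H := H) x :=
      N23_M_le_S x (by rw [N23_mem_M])
    have h3 : N23_ze x s (Subgroup.inclusion (N23_M_le_S x)
        (MulAut.conjNormal g⁻¹ (N23_e (H := H) (x i)))) =
        N23_ze x s ⟨⟨Finsupp.single x' 1, 1⟩, hm⟩ := by
      congr 1
      exact Subtype.ext hconj
    have h4 : N23_ze x t (Subgroup.inclusion (N23_M_le_S x) (N23_e (H := H) (x i))) =
        ex (N23_th k i (t i)) := hval t i (N23_M_le_S x (N23_e (x i)).2)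
    change Real.sqrt (2 - 2 * Real.cos (2 * Real.pi * δ)) ≤
      dist (N23_ze x s (Subgroup.inclusion (N23_M_le_S x)
        (MulAut.conjNormal g⁻¹ (N23_e (H := H) (x i)))))
        (N23_ze x t (Subgroup.inclusion (N23_M_le_S x) (N23_e (H := H) (x i))))
    rw [h3, h4]
    obtain ⟨hb1, hb2⟩ := hthb i (t i) (ht i).1 (ht i).2
    by_cases hl : ∃ l, x l = x'
    · obtain ⟨l, hl⟩ := hl
      have hli : l ≠ i := by
        rintro rfl
        exact hx'i hl.symm
      have h5 : N23_ze x s ⟨⟨Finsupp.single x' 1, 1⟩, hm⟩ = ex (N23_th k l (s l)) := by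
        have := hval s l (by rw [hl]; exact hm)
        rw [← this]
        congr 1
        apply Subtype.ext
        change (⟨Finsupp.single x' 1, 1⟩ : Wr H X) = ⟨Finsupp.single (x l) 1, 1⟩
        rw [hl]
      rw [h5]
      obtain ⟨ha1, ha2⟩ := hthb l (s l) (hs l).1 (hs l).2
      obtain ⟨hc1, hc2⟩ := N23_th_mem l (s l) (hs l).1 (hs l).2
      obtain ⟨hd1, hd2⟩ := N23_th_mem i (t i) (ht i).1 (ht i).2
      apply N23_dist_ge hδpos
      · rcases lt_or_gt_of_ne (fun h => hli (Fin.ext h) : (l : ℕ) ≠ i) with h6 | h6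
        · have h7 : (l : ℝ) + 1 ≤ i := by exact_mod_cast h6
          rw [abs_sub_comm]
          refine le_trans ?_ (le_abs_self _)
          have h8 : (4 * (l : ℝ) + 2) / (4 * k + 4) + δ ≤ (4 * (i : ℝ) + 1) / (4 * k + 4) := by
            rw [hδ, ← add_div]
            gcongr
            linarith
          linarith
        · have h7 : (i : ℝ) + 1 ≤ l := by exact_mod_cast h6
          refine le_trans ?_ (le_abs_self _)
          have h8 : (4 * (i : ℝ) + 2) / (4 * k + 4) + δ ≤ (4 * (l : ℝ) + 1) / (4 * k + 4) := by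
            rw [hδ, ← add_div]
            gcongr
            linarith
          linarith
      · rw [abs_le]
        constructor <;> linarith
    · push Not at hl
      rw [hval0 s x' hl hm]
      apply N23_dist_ge hδpos
      · rw [zero_sub, abs_neg, abs_of_pos (by linarith)]
        exact hb1
      · rw [zero_sub, abs_neg, abs_of_pos (by linarith)]
        exact hb2

end Pool.Agent.LibND
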