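import Mathlib
import Pool.Agent.LibND.N15
import Pool.Agent.LibND.N20

set_option autoImplicit false

/-! [ND N24] Extensions of an infinite group by a module containing a free submodule.

PLAN. Given `n`, put `k := n + 1` and choose `γ : Fin k → Γ` injective. `v : Γ → A`,
`v g := α g a₀` is independent over `ℤ` (`hfree`: `ringAct α x a₀ = x.coeff.sum fun g c => c • α g a₀`,
`MonoidAlgebra.lift_apply`). `ext_real` with `B = ⊥`, `I = Γ`, `r = Pi.single (γ i) 1` gives
`η i : A →+ ℝ` with `η i (α (γ i) a₀) = 1`, `η i (α g a₀) = 0` for `g ≠ γ i`. Apply `criterion` with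
`M = S = j.range`, `ζ s (j x) := ex (∑ i, θ i (s i) * η i x)`,
`θ i r := (4 * i + 1 + r) / (4 * k + 4)`, `E := {j (α (γ i) a₀) | i}`.
Injectivity: `ζ s (j (α (γ i) a₀)) = ex (θ i (s i))`, `ex` is injective on `(0, 1)`.
Separation: `g ∉ S`, so `h := π g ≠ 1`; take any `i`: `g⁻¹ * j (α (γ i) a₀) * g = j (α (h⁻¹ γ i) a₀)`
with `h⁻¹ * γ i ≠ γ i`; the value of `ζ s` there is `1 = ex 0`, or `ex (θ l (s l))` with `l ≠ i`.
In both cases the argument differs from `θ i (t i)` modulo `ℤ` by at least `1 / (4 * k + 4)`, so the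
distance on the circle is at least an explicit positive constant (`‖e(x) - e(y)‖ ≥ 4 ‖x - y‖_{ℝ/ℤ}`,
or compactness). -/

namespace Pool.Agent.LibND

universe u w

private theorem n24_ex_add (x y : ℝ) : ex (x + y) = ex x * ex y := by
  unfold ex
  rw [mul_add, Circle.exp_add]

private theorem n24_ex_zero : ex 0 = 1 := by
  unfold ex
  simp

private theorem n24_ex_cont : Continuous ex := by
  unfold ex
  exact Circle.exp.continuous.comp (continuous_const.mul continuous_id)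

private theorem n24_sin_bound (δ c : ℝ) (hc : 0 < c) (h1 : c ≤ |δ|) (h2 : |δ| ≤ 1 - c) :
    2 * c ≤ |Real.sin (Real.pi * δ)| := by
  have hpi := Real.pi_pos
  have hsin : |Real.sin (Real.pi * δ)| = |Real.sin (Real.pi * |δ|)| := by
    rcases abs_cases δ with ⟨h, _⟩ | ⟨h, _⟩
    · rw [h]
    · rw [h, mul_neg, Real.sin_neg, abs_neg]
  rw [hsin]
  refine le_trans ?_ (le_abs_self _)
  rcases le_total |δ| (1 / 2) with h | h
  · have := Real.mul_le_sin (x := Real.pi * |δ|) (by positivity) (by nlinarith)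
    refine le_trans ?_ this
    have e : 2 / Real.pi * (Real.pi * |δ|) = 2 * |δ| := by field_simp
    rw [e]
    linarith
  · have e0 : Real.sin (Real.pi * |δ|) = Real.sin (Real.pi * (1 - |δ|)) := by
      rw [mul_sub, mul_one, Real.sin_pi_sub]
    rw [e0]
    have := Real.mul_le_sin (x := Real.pi * (1 - |δ|))
      (mul_nonneg hpi.le (by linarith)) (by nlinarith)
    refine le_trans ?_ this
    have e : 2 / Real.pi * (Real.pi * (1 - |δ|)) = 2 * (1 - |δ|) := by field_simp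
    rw [e]
    linarith

private theorem n24_dist (x y c : ℝ) (hc : 0 < c) (h1 : c ≤ |x - y|) (h2 : |x - y| ≤ 1 - c) :
    4 * c ≤ dist (ex x) (ex y) := by
  have e1 : dist (ex x) (ex y) = ‖Complex.exp (Complex.I * ((2 * Real.pi * (x - y) : ℝ) : ℂ)) - 1‖ := by
    have hy : (ex x : ℂ) = (ex (x - y) : ℂ) * (ex y : ℂ) := by
      rw [← Circle.coe_mul, ← n24_ex_add, sub_add_cancel]
    change dist (ex x : ℂ) (ex y : ℂ) = _
    rw [dist_eq_norm, hy]
    have : (ex (x - y) : ℂ) * (ex y : ℂ) - (ex y : ℂ) = ((ex (x - y) : ℂ) - 1) * (ex y : ℂ) := by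
      ring
    rw [this, norm_mul, Circle.norm_coe, mul_one]
    unfold ex
    rw [Circle.coe_exp, mul_comm Complex.I]
  rw [e1, Complex.norm_exp_I_mul_ofReal_sub_one, Real.norm_eq_abs, abs_mul, abs_two]
  have e2 : 2 * Real.pi * (x - y) / 2 = Real.pi * (x - y) := by ring
  rw [e2]
  have := n24_sin_bound (x - y) c hc h1 h2
  linarith

private theorem n24_theta_sep (k : ℕ) (i l : Fin k) (hne : l ≠ i) (r r' : ℝ)
    (hr : r ∈ Set.Icc (0 : ℝ) 1) (hr' : r' ∈ Set.Icc (0 : ℝ) 1) :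
    1 / (4 * (k : ℝ) + 4) ≤
        |(4 * ((l : ℕ) : ℝ) + 1 + r) / (4 * (k : ℝ) + 4) - (4 * ((i : ℕ) : ℝ) + 1 + r') / (4 * (k : ℝ) + 4)| ∧
      |(4 * ((l : ℕ) : ℝ) + 1 + r) / (4 * (k : ℝ) + 4) - (4 * ((i : ℕ) : ℝ) + 1 + r') / (4 * (k : ℝ) + 4)| ≤
        1 - 1 / (4 * (k : ℝ) + 4) := by
  have hk : (0 : ℝ) < 4 * (k : ℝ) + 4 := by positivity
  rw [← sub_div, abs_div, abs_of_pos hk]
  have hlk : ((l : ℕ) : ℝ) + 1 ≤ (k : ℝ) := by exact_mod_cast l.isLt
  have hik : ((i : ℕ) : ℝ) + 1 ≤ (k : ℝ) := by exact_mod_cast i.isLt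
  have hl0 : (0 : ℝ) ≤ ((l : ℕ) : ℝ) := by positivity
  have hi0 : (0 : ℝ) ≤ ((i : ℕ) : ℝ) := by positivity
  have e1 : 1 - 1 / (4 * (k : ℝ) + 4) = (4 * (k : ℝ) + 3) / (4 * (k : ℝ) + 4) := by
    field_simp
    ring
  rw [e1]
  obtain ⟨hr0, hr1⟩ := hr
  obtain ⟨hr0', hr1'⟩ := hr'
  rcases lt_or_gt_of_ne (fun h => hne (Fin.ext h) : (l : ℕ) ≠ (i : ℕ)) with h | h
  · have h' : ((l : ℕ) : ℝ) + 1 ≤ ((i : ℕ) : ℝ) := by exact_mod_cast h
    constructor
    · apply div_le_div_of_nonneg_right _ hk.le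
      rw [abs_sub_comm]
      refine le_trans ?_ (le_abs_self _)
      linarith
    · apply div_le_div_of_nonneg_right _ hk.le
      rw [abs_le]
      constructor <;> linarith
  · have h' : ((i : ℕ) : ℝ) + 1 ≤ ((l : ℕ) : ℝ) := by exact_mod_cast h
    constructor
    · apply div_le_div_of_nonneg_right _ hk.le
      refine le_trans ?_ (le_abs_self _)
      linarith
    · apply div_le_div_of_nonneg_right _ hk.le
      rw [abs_le]
      constructor <;> linarith

private theorem n24_theta_zero (k : ℕ) (i : Fin k) (r' : ℝ)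
    (hr' : r' ∈ Set.Icc (0 : ℝ) 1) :
    1 / (4 * (k : ℝ) + 4) ≤ |0 - (4 * ((i : ℕ) : ℝ) + 1 + r') / (4 * (k : ℝ) + 4)| ∧
      |0 - (4 * ((i : ℕ) : ℝ) + 1 + r') / (4 * (k : ℝ) + 4)| ≤ 1 - 1 / (4 * (k : ℝ) + 4) := by
  have hk : (0 : ℝ) < 4 * (k : ℝ) + 4 := by positivity
  have hik : ((i : ℕ) : ℝ) + 1 ≤ (k : ℝ) := by exact_mod_cast i.isLt
  have hi0 : (0 : ℝ) ≤ ((i : ℕ) : ℝ) := by positivity
  obtain ⟨hr0', hr1'⟩ := hr'
  have e1 : 1 - 1 / (4 * (k : ℝ) + 4) = (4 * (k : ℝ) + 3) / (4 * (k : ℝ) + 4) := by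
    field_simp
    ring
  rw [e1, zero_sub, abs_neg, abs_div, abs_of_pos hk,
    abs_of_nonneg (by positivity : (0 : ℝ) ≤ 4 * ((i : ℕ) : ℝ) + 1 + r')]
  constructor
  · apply div_le_div_of_nonneg_right _ hk.le
    linarith
  · apply div_le_div_of_nonneg_right _ hk.le
    linarith

private theorem n24_theta_inj (k : ℕ) (i : Fin k) (r r' : ℝ)
    (hr : r ∈ Set.Icc (0 : ℝ) 1) (hr' : r' ∈ Set.Icc (0 : ℝ) 1)
    (h : ex ((4 * ((i : ℕ) : ℝ) + 1 + r) / (4 * (k : ℝ) + 4)) =
      ex ((4 * ((i : ℕ) : ℝ) + 1 + r') / (4 * (k : ℝ) + 4))) : r = r' := by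
  have hk : (4 : ℝ) ≤ 4 * (k : ℝ) + 4 := by
    have : (0 : ℝ) ≤ (k : ℝ) := by positivity
    linarith
  by_contra hne
  have hpos : 0 < |r - r'| := abs_pos.mpr (sub_ne_zero.mpr hne)
  have hle : |r - r'| ≤ 1 := by
    rw [abs_le]
    constructor <;> linarith [hr.1, hr.2, hr'.1, hr'.2]
  have hsub : (4 * ((i : ℕ) : ℝ) + 1 + r) / (4 * (k : ℝ) + 4) -
      (4 * ((i : ℕ) : ℝ) + 1 + r') / (4 * (k : ℝ) + 4) = (r - r') / (4 * (k : ℝ) + 4) := by
    rw [← sub_div]
    congr 1
    ring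
  have hb : |(r - r') / (4 * (k : ℝ) + 4)| ≤ 1 / 4 := by
    rw [abs_div, abs_of_pos (by linarith : (0 : ℝ) < 4 * (k : ℝ) + 4)]
    exact div_le_div₀ (by norm_num) hle (by norm_num) hk
  have hc : 0 < |(r - r') / (4 * (k : ℝ) + 4)| := by
    rw [abs_div, abs_of_pos (by linarith : (0 : ℝ) < 4 * (k : ℝ) + 4)]
    exact div_pos hpos (by linarith)
  have := n24_dist ((4 * ((i : ℕ) : ℝ) + 1 + r) / (4 * (k : ℝ) + 4))
    ((4 * ((i : ℕ) : ℝ) + 1 + r') / (4 * (k : ℝ) + 4)) |(r - r') / (4 * (k : ℝ) + 4)| hc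
    (by rw [hsub]) (by rw [hsub]; linarith)
  rw [h, dist_self] at this
  linarith

private theorem n24_sum_apply {A : Type*} [AddCommGroup A] {I : Type*} (s : Finset I)
    (f : I → AddMonoid.End A) (a : A) : (∑ i ∈ s, f i) a = ∑ i ∈ s, f i a := by
  classical
  induction s using Finset.induction_on with
  | empty => rfl
  | insert x t hx ih =>
    rw [Finset.sum_insert hx, Finset.sum_insert hx, ← ih]
    rfl

/-- the family of characters -/
private noncomputable def n24_chi {A : Type u} [AddCommGroup A] (k : ℕ) (η : Fin k → (A →+ ℝ))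
    (s : Fin k → ℝ) : Multiplicative A →* Circle where
  toFun x := ex (∑ i : Fin k, (4 * ((i : ℕ) : ℝ) + 1 + s i) / (4 * (k : ℝ) + 4) * η i x.toAdd)
  map_one' := by
    simp [n24_ex_zero]
  map_mul' x y := by
    rw [← n24_ex_add, ← Finset.sum_add_distrib]
    congr 1
    refine Finset.sum_congr rfl fun i _ => ?_
    rw [toAdd_mul, map_add]
    ring

theorem freeModule {G G₀ Γ A : Type u} [Group G] [Group G₀] [Group Γ] [Infinite Γ]
    [AddCommGroup A] (p : G →* G₀) (hp : Function.Surjective p) (α : Γ →* AddMonoid.End A)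
    (j : Multiplicative A →* G₀) (π : G₀ →* Γ) (hext : IsExt α j π)
    {C : Type w} [CStarAlgebra C] [PartialOrder C] [StarOrderedRing C] (U : G →* unitary C)
    (hC : IsGroupCStar G C U) (a₀ : A)
    (hfree : ∀ x : MonoidAlgebra ℤ Γ, ringAct α x a₀ = 0 → x = 0) (n : ℕ) :
    ¬ NucDimLE C n := by
  classical
  have hind : ∀ c : Γ →₀ ℤ, (c.sum fun g z => z • (α g a₀)) ∈ (⊥ : AddSubgroup A) → c = 0 := by
    intro c hc
    rw [AddSubgroup.mem_bot] at hc
    have h1 : ringAct α (MonoidAlgebra.ofCoeff c) a₀ = 0 := by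
      unfold ringAct
      rw [MonoidAlgebra.lift_apply, MonoidAlgebra.coeff_ofCoeff, ← hc]
      exact n24_sum_apply _ _ _
    exact MonoidAlgebra.ofCoeff_eq_zero.mp (hfree _ h1)
  have hη : ∀ g : Γ, ∃ η : A →+ ℝ, ∀ h, η (α h a₀) = if h = g then 1 else 0 := by
    intro g
    obtain ⟨η, _, h2⟩ := ext_real (⊥ : AddSubgroup A) (fun h : Γ => α h a₀) hind
      (fun h => if h = g then 1 else 0)
    exact ⟨η, h2⟩
  choose η0 hη0 using hη
  set k := n + 1 with hk
  obtain ⟨γ, hγ⟩ : ∃ γ : Fin k → Γ, Function.Injective γ :=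
    ⟨fun i => Infinite.natEmbedding Γ i, fun a b hab => Fin.ext ((Infinite.natEmbedding Γ).injective hab)⟩
  let η : Fin k → (A →+ ℝ) := fun i => η0 (γ i)
  have hη : ∀ i h, η i (α h a₀) = if h = γ i then 1 else 0 := fun i h => hη0 (γ i) h
  -- value of the exponent
  have hval1 : ∀ (s : Fin k → ℝ) (i : Fin k),
      (∑ l : Fin k, (4 * ((l : ℕ) : ℝ) + 1 + s l) / (4 * (k : ℝ) + 4) * η l (α (γ i) a₀)) =
        (4 * ((i : ℕ) : ℝ) + 1 + s i) / (4 * (k : ℝ) + 4) := by
    intro s i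
    rw [Finset.sum_eq_single i]
    · rw [hη, if_pos rfl, mul_one]
    · intro l _ hl
      rw [hη, if_neg (fun h => hl (hγ h).symm), mul_zero]
    · intro h
      exact absurd (Finset.mem_univ i) h
  have hval0 : ∀ (s : Fin k → ℝ) (h : Γ), (∀ l, h ≠ γ l) →
      (∑ l : Fin k, (4 * ((l : ℕ) : ℝ) + 1 + s l) / (4 * (k : ℝ) + 4) * η l (α h a₀)) = 0 := by
    intro s h hh
    refine Finset.sum_eq_zero fun l _ => ?_
    rw [hη, if_neg (hh l), mul_zero]
  let e := MonoidHom.ofInjective hext.inj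
  have hnorm : j.range.Normal := by
    rw [hext.exact]
    infer_instance
  let ζ : (Fin k → ℝ) → (j.range →* Circle) := fun s => (n24_chi k η s).comp e.symm.toMonoidHom
  have hζ1 : ∀ (s : Fin k → ℝ) (x : Multiplicative A) (g : j.range), (g : G₀) = j x →
      ζ s g = ex (∑ i : Fin k, (4 * ((i : ℕ) : ℝ) + 1 + s i) / (4 * (k : ℝ) + 4) * η i x.toAdd) := by
    intro s x g hg
    have h1 : e.symm g = x := by
      rw [MulEquiv.symm_apply_eq]
      apply Subtype.ext
      rw [hg]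
      rfl
    change n24_chi k η s (e.symm g) = _
    rw [h1]
    rfl
  let m : Fin k → j.range := fun i => e (Multiplicative.ofAdd (α (γ i) a₀))
  have hm : ∀ i, ((m i : j.range) : G₀) = j (Multiplicative.ofAdd (α (γ i) a₀)) := fun i => rfl
  have hincl : ∀ x : j.range, Subgroup.inclusion (le_refl j.range) x = x := fun x => rfl
  refine criterion p hp U hC j.range j.range (le_refl _) k ζ ?_ (Finset.univ.image m) ?_
    (4 * (1 / (4 * (k : ℝ) + 4))) (by positivity) ?_ n (by omega)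
  · intro g
    have hcont : Continuous fun s => ζ s g := by
      change Continuous fun s : Fin k → ℝ => ex (∑ i : Fin k, (4 * ((i : ℕ) : ℝ) + 1 + s i) / (4 * (k : ℝ) + 4) *
        η i (e.symm g).toAdd)
      refine n24_ex_cont.comp (continuous_finsetSum _ fun i _ => ?_)
      exact (((continuous_const.add (continuous_apply i)).div_const _).mul continuous_const)
    exact hcont.continuousOn
  · intro s hs t ht hst
    funext i
    have h := hst (m i) (Finset.mem_image_of_mem m (Finset.mem_univ i))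
    rw [hincl, hζ1 s _ _ (hm i), hζ1 t _ _ (hm i), toAdd_ofAdd, hval1, hval1] at h
    exact n24_theta_inj k i _ _ (hs i) (ht i) h
  · intro s hs t ht g hg
    have hg1 : π g ≠ 1 := by
      intro h
      apply hg
      rw [hext.exact]
      exact h
    let i : Fin k := ⟨0, by omega⟩
    refine ⟨m i, Finset.mem_image_of_mem m (Finset.mem_univ i), ?_⟩
    have hconj : ((MulAut.conjNormal g⁻¹ (m i) : j.range) : G₀) =
        j (Multiplicative.ofAdd (α ((π g)⁻¹ * γ i) a₀)) := by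
      rw [MulAut.conjNormal_apply, hm, hext.conj, map_inv, map_mul]
      rfl
    rw [hincl, hincl, hζ1 s _ _ hconj, hζ1 t _ _ (hm i), toAdd_ofAdd, toAdd_ofAdd, hval1]
    have hne : (π g)⁻¹ * γ i ≠ γ i := by
      intro h
      apply hg1
      have : (π g)⁻¹ = 1 := by
        simpa using h
      simpa using this
    by_cases hex : ∃ l, (π g)⁻¹ * γ i = γ l
    · obtain ⟨l, hl⟩ := hex
      have hli : l ≠ i := by
        rintro rfl
        exact hne hl
      rw [hl, hval1]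
      have := n24_theta_sep k i l hli (s l) (t i) (hs l) (ht i)
      exact n24_dist _ _ _ (by positivity) this.1 this.2
    · push Not at hex
      rw [hval0 s _ hex]
      have := n24_theta_zero k i (t i) (ht i)
      exact n24_dist _ _ _ (by positivity) this.1 this.2

end Pool.Agent.LibND
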