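import Mathlib
import Pool.Agent.LibND.Defs

set_option autoImplicit false

/-! [ND N37] ONLY MATHLIB. The annihilator of `1 ∈ ℤ[x, x⁻¹, 1/q]` in `ℤ[ℤ²]` is generated by
`y - q(x)`; this element is prime.

PLAN. `ev := MonoidAlgebra.lift ... (coe ∘ unitQ q) : Lau 2 →ₐ[ℤ] RingQ q`, `x ↦ x`, `y ↦ q`;
`ringAct (actQ q) P r = ev P * r`, so `ringAct (actQ q) P 1 = ev P`. `ev (polQ q) = 0`. Conversely let
`ev P = 0`. Multiply `P` by a power of the unit `y`, so that `P` only has exponents `(a, b)` with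
`b ≥ 0`: `P = ∑_b p_b(x) y^b`, `∑_b p_b q^b = 0` in `RingQ q`, hence in `ℤ[x, x⁻¹]` (injects in its
localization, as `q ≠ 0` in a domain). Then `P = ∑ p_b(x) (y^b - q^b)` is divisible by `y - q(x)`.
(b) `Lau 2 / (polQ q)` embeds in the domain `RingQ q`, so `polQ q` is prime (nonzero: its coefficient
at `(0, 1)` is `1`; not a unit as `ev (polQ q) = 0`). (c) `ev n = n ≠ 0` in `RingQ q` (characteristic
zero). -/

namespace Pool.Agent.LibND

open LaurentPolynomial

private noncomputable def n37u (q : ℤ[T;T⁻¹]) : Zd 2 →* RingQ q :=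
  (Units.coeHom _).comp (unitQ q)

private noncomputable def n37ev (q : ℤ[T;T⁻¹]) : Lau 2 →ₐ[ℤ] RingQ q :=
  MonoidAlgebra.lift ℤ (RingQ q) (Zd 2) (n37u q)

private lemma n37ev_single (q : ℤ[T;T⁻¹]) (m : Zd 2) (c : ℤ) :
    n37ev q (MonoidAlgebra.single m c) = (c : RingQ q) * n37u q m := by
  rw [n37ev, MonoidAlgebra.lift_single, Algebra.smul_def, eq_intCast (algebraMap ℤ (RingQ q)) c]

private lemma n37act (q : ℤ[T;T⁻¹]) (P : Lau 2) (r : RingQ q) :
    ringAct (actQ q) P r = n37ev q P * r := by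
  induction P using MonoidAlgebra.induction_linear with
  | zero => rw [map_zero, map_zero, zero_mul]; rfl
  | add x y hx hy => rw [map_add, map_add, add_mul, ← hx, ← hy]; rfl
  | single m c =>
    rw [ringAct, MonoidAlgebra.lift_single, n37ev_single, mul_assoc, ← zsmul_eq_mul]
    rfl

private def n37h : Multiplicative ℤ →* Zd 2 where
  toFun z := Multiplicative.ofAdd ![z.toAdd, 0]
  map_one' := by
    refine congrArg Multiplicative.ofAdd (funext fun i => ?_)
    fin_cases i <;> rfl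
  map_mul' a b := by
    refine congrArg Multiplicative.ofAdd (funext fun i => ?_)
    fin_cases i <;> simp

private noncomputable def n37i : ℤ[T;T⁻¹] →ₐ[ℤ] Lau 2 :=
  AddMonoidAlgebra.lift ℤ (Lau 2) ℤ ((MonoidAlgebra.of ℤ (Zd 2)).comp n37h)

private lemma n37i_single (n c : ℤ) :
    n37i (AddMonoidAlgebra.single n c)
      = MonoidAlgebra.single (Multiplicative.ofAdd ![n, 0]) c := by
  rw [n37i, AddMonoidAlgebra.lift_single]
  show c • MonoidAlgebra.single (Multiplicative.ofAdd ![n, 0]) (1 : ℤ) = _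
  rw [MonoidAlgebra.smul_single, smul_eq_mul, mul_one]

private lemma n37i_eq (f : ℤ[T;T⁻¹]) :
    n37i f
      = MonoidAlgebra.ofCoeff (f.coeff.mapDomain fun a => Multiplicative.ofAdd ![a, 0]) := by
  induction f using AddMonoidAlgebra.induction_linear with
  | zero => simp
  | add x y hx hy => rw [map_add, hx, hy, AddMonoidAlgebra.coeff_add, Finsupp.mapDomain_add]; rfl
  | single m c =>
    rw [n37i_single, AddMonoidAlgebra.coeff_single, Finsupp.mapDomain_single]
    rfl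

private noncomputable def n37UT (q : ℤ[T;T⁻¹]) : (RingQ q)ˣ :=
  Units.map (algebraMap ℤ[T;T⁻¹] (RingQ q)).toMonoidHom
      ⟨T 1, T (-1), by rw [← T_add]; simp, by rw [← T_add]; simp⟩

private noncomputable def n37UQ (q : ℤ[T;T⁻¹]) : (RingQ q)ˣ :=
  (IsLocalization.Away.algebraMap_isUnit (S := RingQ q) q).unit

private lemma n37unit (q : ℤ[T;T⁻¹]) (z : Zd 2) :
    unitQ q z = n37UT q ^ (z.toAdd 0) * n37UQ q ^ (z.toAdd 1) := rfl

private noncomputable def n37F : Multiplicative ℤ →* (ℤ[T;T⁻¹])ˣ :=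
  (AddMonoidAlgebra.of ℤ ℤ).toHomUnits

private lemma n37T (q : ℤ[T;T⁻¹]) (n : ℤ) :
    n37u q (Multiplicative.ofAdd ![n, 0]) = algebraMap ℤ[T;T⁻¹] (RingQ q) (T n) := by
  have h1 : (⟨T 1, T (-1), by rw [← T_add]; simp, by rw [← T_add]; simp⟩ : (ℤ[T;T⁻¹])ˣ)
      = n37F (Multiplicative.ofAdd 1) := Units.ext rfl
  have h2 : n37F (Multiplicative.ofAdd 1) ^ n = n37F (Multiplicative.ofAdd n) := by
    rw [← map_zpow, ← ofAdd_zsmul, smul_eq_mul, mul_one]
  have h3 : unitQ q (Multiplicative.ofAdd ![n, 0]) = n37UT q ^ n := by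
    rw [n37unit]
    show n37UT q ^ n * n37UQ q ^ (0 : ℤ) = _
    rw [zpow_zero, mul_one]
  show ((unitQ q (Multiplicative.ofAdd ![n, 0]) : (RingQ q)ˣ) : RingQ q) = _
  rw [h3, n37UT, h1, ← map_zpow, h2]
  rfl

private lemma n37q (q : ℤ[T;T⁻¹]) :
    n37u q (Multiplicative.ofAdd ![0, 1]) = algebraMap ℤ[T;T⁻¹] (RingQ q) q := by
  have h3 : unitQ q (Multiplicative.ofAdd ![0, 1]) = n37UQ q := by
    rw [n37unit]
    show n37UT q ^ (0 : ℤ) * n37UQ q ^ (1 : ℤ) = _
    rw [zpow_zero, one_mul, zpow_one]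
  show ((unitQ q (Multiplicative.ofAdd ![0, 1]) : (RingQ q)ˣ) : RingQ q) = _
  rw [h3]
  rfl

private lemma n37evi (q f : ℤ[T;T⁻¹]) :
    n37ev q (n37i f) = algebraMap ℤ[T;T⁻¹] (RingQ q) f := by
  induction f using AddMonoidAlgebra.induction_linear with
  | zero => simp
  | add x y hx hy => rw [map_add, map_add, map_add, hx, hy]
  | single m c =>
    rw [n37i_single, n37ev_single, n37T, ← zsmul_eq_mul, ← map_zsmul]
    congr 1
    show c • AddMonoidAlgebra.single m (1 : ℤ) = _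
    rw [AddMonoidAlgebra.smul_single, smul_eq_mul, mul_one]

private lemma n37pol (q : ℤ[T;T⁻¹]) :
    polQ q = MonoidAlgebra.single (Multiplicative.ofAdd ![0, 1]) 1 - n37i q := by
  rw [n37i_eq]; rfl

private lemma n37evpol (q : ℤ[T;T⁻¹]) : n37ev q (polQ q) = 0 := by
  rw [n37pol, map_sub, n37evi, n37ev_single, n37q, Int.cast_one, one_mul, sub_self]

private lemma n37dvd_of_ev (q : ℤ[T;T⁻¹]) (P : Lau 2) (hP : n37ev q P = 0) : polQ q ∣ P := by
  set I : Ideal (Lau 2) := Ideal.span {polQ q} with hI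
  let mk : Lau 2 →+* Lau 2 ⧸ I := Ideal.Quotient.mk I
  let v : Zd 2 →* (Lau 2 ⧸ I)ˣ :=
    ((mk : Lau 2 →* Lau 2 ⧸ I).comp (MonoidAlgebra.of ℤ (Zd 2))).toHomUnits
  have hv : ∀ z, ((v z : (Lau 2 ⧸ I)ˣ) : Lau 2 ⧸ I) = mk (MonoidAlgebra.single z 1) :=
    fun z => rfl
  have hY : mk (n37i q) = mk (MonoidAlgebra.single (Multiplicative.ofAdd ![0, 1]) 1) := by
    refine (Ideal.Quotient.eq.mpr ?_).symm
    rw [← n37pol]
    exact Ideal.subset_span rfl
  have hu : IsUnit ((mk.comp n37i.toRingHom) q) := by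
    show IsUnit (mk (n37i q))
    rw [hY, ← hv]
    exact (v _).isUnit
  let g : RingQ q →+* Lau 2 ⧸ I := IsLocalization.Away.lift (S := RingQ q) q hu
  have hg : ∀ f, g (algebraMap ℤ[T;T⁻¹] (RingQ q) f) = mk (n37i f) :=
    fun f => IsLocalization.Away.lift_eq q hu f
  have hz : ∀ z : Zd 2, g (n37u q z) = mk (MonoidAlgebra.single z 1) := by
    intro z
    have hz1 : z = Multiplicative.ofAdd ![z.toAdd 0, 0]
        * (Multiplicative.ofAdd ![0, 1]) ^ (z.toAdd 1) := by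
      rw [← ofAdd_zsmul, ← ofAdd_add]
      refine (ofAdd_toAdd z).symm.trans (congrArg Multiplicative.ofAdd (funext fun i => ?_))
      fin_cases i <;> simp
    have e1 : g (n37u q (Multiplicative.ofAdd ![z.toAdd 0, 0]))
        = (v (Multiplicative.ofAdd ![z.toAdd 0, 0]) : (Lau 2 ⧸ I)ˣ) := by
      rw [n37T, hg]
      show mk (n37i (AddMonoidAlgebra.single _ 1)) = _
      rw [n37i_single]
      rfl
    have e2 : Units.map (g : RingQ q →* Lau 2 ⧸ I) (unitQ q (Multiplicative.ofAdd ![0, 1]))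
        = v (Multiplicative.ofAdd ![0, 1]) := by
      refine Units.ext ?_
      show g (n37u q (Multiplicative.ofAdd ![0, 1])) = _
      rw [n37q, hg, hY]
      rfl
    have e3 : g (n37u q ((Multiplicative.ofAdd ![0, 1]) ^ (z.toAdd 1)))
        = (v ((Multiplicative.ofAdd ![0, 1]) ^ (z.toAdd 1)) : (Lau 2 ⧸ I)ˣ) := by
      show ((Units.map (g : RingQ q →* Lau 2 ⧸ I)
        (unitQ q ((Multiplicative.ofAdd ![0, 1]) ^ (z.toAdd 1))) : (Lau 2 ⧸ I)ˣ) : Lau 2 ⧸ I) = _
      rw [map_zpow, map_zpow, e2, map_zpow]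
    rw [← hv, hz1, map_mul, map_mul, e1, e3, ← Units.val_mul, ← map_mul]
  have hall : ∀ P : Lau 2, g (n37ev q P) = mk P := by
    intro P
    induction P using MonoidAlgebra.induction_linear with
    | zero => rw [map_zero, map_zero, map_zero]
    | add x y hx hy => rw [map_add, map_add, map_add, hx, hy]
    | single m c =>
      rw [n37ev_single, ← zsmul_eq_mul, map_zsmul, hz, ← map_zsmul]
      congr 1
      rw [MonoidAlgebra.smul_single, smul_eq_mul, mul_one]
  have h0 : mk P = 0 := by rw [← hall, hP, map_zero]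
  have h1 : P ∈ I := Ideal.Quotient.eq_zero_iff_mem.mp h0
  exact Ideal.mem_span_singleton.mp h1

private lemma n37iff (q : ℤ[T;T⁻¹]) (P : Lau 2) : n37ev q P = 0 ↔ polQ q ∣ P := by
  refine ⟨n37dvd_of_ev q P, ?_⟩
  rintro ⟨R, rfl⟩
  rw [map_mul, n37evpol, zero_mul]

private lemma n37le (q : ℤ[T;T⁻¹]) (hq : q ≠ 0) :
    Submonoid.powers q ≤ nonZeroDivisors ℤ[T;T⁻¹] :=
  powers_le_nonZeroDivisors_of_noZeroDivisors hq

private lemma n37dom (q : ℤ[T;T⁻¹]) (hq : q ≠ 0) : IsDomain (RingQ q) :=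
  IsLocalization.isDomain_localization (n37le q hq)

private lemma n37inj (q : ℤ[T;T⁻¹]) (hq : q ≠ 0) :
    Function.Injective (algebraMap ℤ[T;T⁻¹] (RingQ q)) :=
  IsLocalization.injective (RingQ q) (n37le q hq)

theorem ann_polQ (q : LaurentPolynomial ℤ) (hq : q ≠ 0) (P : Lau 2) :
    ringAct (actQ q) P 1 = 0 ↔ polQ q ∣ P := by
  rw [n37act, mul_one, n37iff]

theorem prime_polQ (q : LaurentPolynomial ℤ) (hq : q ≠ 0) : Prime (polQ q) := by
  have := n37dom q hq
  refine ⟨?_, ?_, ?_⟩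
  · intro h0
    have h1 : (polQ q).coeff (Multiplicative.ofAdd ![0, 1]) = 1 := by
      rw [polQ, MonoidAlgebra.coeff_sub, Finsupp.sub_apply, MonoidAlgebra.coeff_single,
        Finsupp.single_eq_same]
      have h2 : (Finsupp.mapDomain (fun a : ℤ => (Multiplicative.ofAdd ![a, 0] : Zd 2)) q.coeff)
          (Multiplicative.ofAdd ![0, 1]) = 0 := by
        apply Finsupp.mapDomain_of_notMem_range
        rintro ⟨a, ha⟩
        have h3 := congrFun (Multiplicative.ofAdd.injective ha) 1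
        simp at h3
      show (1 : ℤ) - (Finsupp.mapDomain (fun a : ℤ => (Multiplicative.ofAdd ![a, 0] : Zd 2))
        q.coeff) (Multiplicative.ofAdd ![0, 1]) = 1
      rw [h2, sub_zero]
    rw [h0] at h1
    simp at h1
  · intro hu
    have h1 := hu.map (n37ev q)
    rw [n37evpol] at h1
    exact not_isUnit_zero h1
  · intro a b hab
    rw [← n37iff, map_mul, mul_eq_zero, n37iff, n37iff] at hab
    exact hab

theorem int_polQ (q : LaurentPolynomial ℤ) (hq : q ≠ 0) (n : ℤ) (hn : n ≠ 0) :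
    ¬ polQ q ∣ (n : Lau 2) := by
  intro h
  rw [← n37iff, map_intCast] at h
  have h1 : algebraMap ℤ[T;T⁻¹] (RingQ q) (n : ℤ[T;T⁻¹]) = algebraMap ℤ[T;T⁻¹] (RingQ q) 0 := by
    rw [map_intCast, h, map_zero]
  have h2 := n37inj q hq h1
  have h3 : (C (n : ℤ) : ℤ[T;T⁻¹]) = C 0 := by
    rw [map_zero, ← h2]
    simp
  have h4 : (AddMonoidAlgebra.single (0 : ℤ) n : AddMonoidAlgebra ℤ ℤ)
      = AddMonoidAlgebra.single 0 0 := h3
  exact hn (AddMonoidAlgebra.single_right_inj.mp h4)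

end Pool.Agent.LibND
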