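import Mathlib
import Pool.Agent.LibND.N37

set_option autoImplicit false

/-! [ND N38] `y - q(x)` does not divide its reciprocal unless `q = ± x^n`.

PLAN. Suppose `polQ q ∣ recip (polQ q)`. By `ann_polQ` (or with `ev : Lau 2 → RingQ q`, `x ↦ x`,
`y ↦ q`, see N37), `0 = ringAct (actQ q) (recip (polQ q)) 1 = q⁻¹ - q(x⁻¹)` in `RingQ q`, so
`q(x) * q(x⁻¹) = 1` in `ℤ[x, x⁻¹]` (`LaurentPolynomial.invert q * q = 1`). The coefficient of `x^0` is
`∑_a q_a² = 1`, so exactly one `q_a` is nonzero, and it is `± 1`: `q = ± T a`. -/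

namespace Pool.Agent.LibND

open LaurentPolynomial

private theorem n38_act_single (q : LaurentPolynomial ℤ) (z : Zd 2) (c : ℤ) (r : RingQ q) :
    ringAct (actQ q) (MonoidAlgebra.single z c) r
      = c • (((unitQ q z : (RingQ q)ˣ) : RingQ q) * r) := by
  rw [ringAct, MonoidAlgebra.lift_single]
  rfl

private theorem n38_add (q : LaurentPolynomial ℤ) (x y : Lau 2) (r : RingQ q) :
    ringAct (actQ q) (x + y) r = ringAct (actQ q) x r + ringAct (actQ q) y r := by
  rw [map_add]
  rfl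

private theorem n38_sub (q : LaurentPolynomial ℤ) (x y : Lau 2) (r : RingQ q) :
    ringAct (actQ q) (x - y) r = ringAct (actQ q) x r - ringAct (actQ q) y r := by
  rw [map_sub]
  rfl

private theorem n38_unitQ_apply (q : LaurentPolynomial ℤ) (z : Zd 2) :
    unitQ q z = (Units.map (algebraMap ℤ[T;T⁻¹] (RingQ q)).toMonoidHom
      ⟨T 1, T (-1), by rw [← T_add]; simp, by rw [← T_add]; simp⟩) ^ z.toAdd 0 *
    (IsLocalization.Away.algebraMap_isUnit (S := RingQ q) q).unit ^ z.toAdd 1 := rfl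

private theorem n38_zpow (U : (LaurentPolynomial ℤ)ˣ) (hU : (U : LaurentPolynomial ℤ) = T 1)
    (hV : ((U⁻¹ : (LaurentPolynomial ℤ)ˣ) : LaurentPolynomial ℤ) = T (-1)) (n : ℤ) :
    ((U ^ n : (LaurentPolynomial ℤ)ˣ) : LaurentPolynomial ℤ) = T n := by
  induction n using Int.induction_on with
  | zero => simp
  | succ i ih => rw [zpow_add_one, Units.val_mul, ih, hU, ← T_add]
  | pred i ih => rw [zpow_sub_one, Units.val_mul, ih, hV, ← T_add]; rfl

private theorem n38_unitQ (q : LaurentPolynomial ℤ) (a : ℤ) :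
    ((unitQ q (Multiplicative.ofAdd ![a, 0])⁻¹ : (RingQ q)ˣ) : RingQ q) =
      algebraMap (LaurentPolynomial ℤ) (RingQ q) (T (-a)) := by
  have h0 : (((Multiplicative.ofAdd ![a, 0] : Zd 2)⁻¹).toAdd 0 : ℤ) = -a := by
    simp
  have h1 : (((Multiplicative.ofAdd ![a, 0] : Zd 2)⁻¹).toAdd 1 : ℤ) = 0 := by
    simp
  obtain ⟨U, hU⟩ : ∃ U : (LaurentPolynomial ℤ)ˣ, U = ⟨T 1, T (-1), by rw [← T_add]; simp,
    by rw [← T_add]; simp⟩ := ⟨_, rfl⟩
  have h2 : (unitQ q (Multiplicative.ofAdd ![a, 0])⁻¹ : (RingQ q)ˣ) =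
      (Units.map (algebraMap ℤ[T;T⁻¹] (RingQ q)).toMonoidHom U) ^ (-a) := by
    rw [hU, n38_unitQ_apply, h0, h1, zpow_zero, mul_one]
  rw [h2, ← map_zpow, Units.coe_map]
  have h3 := n38_zpow U (by rw [hU]) (by rw [hU]; rfl) (-a)
  rw [h3]
  rfl

private theorem n38_act_inv (q : LaurentPolynomial ℤ) (g : ℤ →₀ ℤ) :
    ringAct (actQ q) (MonoidAlgebra.ofCoeff ((g.mapDomain fun a : ℤ =>
      (Multiplicative.ofAdd ![a, 0] : Zd 2)).mapDomain fun n => n⁻¹)) 1
      = algebraMap (LaurentPolynomial ℤ) (RingQ q) (invert (AddMonoidAlgebra.ofCoeff g)) := by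
  induction g using Finsupp.induction_linear with
  | zero => simp
  | add f g hf hg =>
    rw [Finsupp.mapDomain_add, Finsupp.mapDomain_add, MonoidAlgebra.ofCoeff_add, n38_add,
      hf, hg, AddMonoidAlgebra.ofCoeff_add, map_add, map_add]
  | single a c =>
    rw [Finsupp.mapDomain_single, Finsupp.mapDomain_single, MonoidAlgebra.ofCoeff_single,
      n38_act_single, mul_one, n38_unitQ, AddMonoidAlgebra.ofCoeff_single]
    have h1 : (AddMonoidAlgebra.single a c : LaurentPolynomial ℤ) = c • T a := by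
      rw [T]
      simp
    rw [h1, map_zsmul, invert_T, map_zsmul]

private theorem n38_coeff (q f : LaurentPolynomial ℤ) :
    (f * invert q).coeff 0 = f.coeff.sum fun a c => c * q.coeff a := by
  induction f using AddMonoidAlgebra.induction_linear with
  | zero => simp
  | add f g hf hg =>
    rw [add_mul, AddMonoidAlgebra.coeff_add, Finsupp.add_apply, hf, hg,
      AddMonoidAlgebra.coeff_add, Finsupp.sum_add_index' (by simp) (by intros; ring)]
  | single a c =>
    rw [AddMonoidAlgebra.coeff_single_mul_apply, invert_apply, AddMonoidAlgebra.coeff_single,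
      Finsupp.sum_single_index (by simp)]
    simp

theorem N38 (q : LaurentPolynomial ℤ) (hq : q ≠ 0) (h1 : ∀ n : ℤ, q ≠ T n)
    (h2 : ∀ n : ℤ, q ≠ -T n) : ¬ polQ q ∣ recip (polQ q) := by
  intro h
  have h0 := (ann_polQ q hq _).mpr h
  have hr : recip (polQ q) = MonoidAlgebra.single (Multiplicative.ofAdd ![0, 1])⁻¹ 1 -
      MonoidAlgebra.ofCoeff ((q.coeff.mapDomain fun a : ℤ =>
        (Multiplicative.ofAdd ![a, 0] : Zd 2)).mapDomain fun n => n⁻¹) := by
    rw [recip, polQ, MonoidAlgebra.coeff_sub]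
    have h3 : ∀ x y : Zd 2 →₀ ℤ, (x - y).mapDomain (fun n => n⁻¹) =
        x.mapDomain (fun n => n⁻¹) - y.mapDomain (fun n => n⁻¹) := fun x y =>
      map_sub (Finsupp.mapDomain.addMonoidHom (M := ℤ) (fun n : Zd 2 => n⁻¹)) x y
    rw [h3, MonoidAlgebra.ofCoeff_sub, MonoidAlgebra.coeff_single, Finsupp.mapDomain_single,
      MonoidAlgebra.ofCoeff_single]
  obtain ⟨u, hu⟩ : ∃ u : (RingQ q)ˣ,
    u = (IsLocalization.Away.algebraMap_isUnit (S := RingQ q) q).unit := ⟨_, rfl⟩
  have hu' : (u : RingQ q) = algebraMap (LaurentPolynomial ℤ) (RingQ q) q := by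
    rw [hu]; rfl
  have hy : (unitQ q (Multiplicative.ofAdd ![0, 1])⁻¹ : (RingQ q)ˣ) = u⁻¹ := by
    have e0 : (((Multiplicative.ofAdd ![0, 1] : Zd 2)⁻¹).toAdd 0 : ℤ) = 0 := by
      simp
    have e1 : (((Multiplicative.ofAdd ![0, 1] : Zd 2)⁻¹).toAdd 1 : ℤ) = -1 := by
      simp
    rw [n38_unitQ_apply, e0, e1, zpow_zero, one_mul, zpow_neg_one, hu]
  rw [hr, n38_sub, n38_act_single, n38_act_inv, hy, one_zsmul, mul_one,
    sub_eq_zero, AddMonoidAlgebra.ofCoeff_coeff] at h0
  have h4 : algebraMap (LaurentPolynomial ℤ) (RingQ q) (q * invert q) =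
      algebraMap (LaurentPolynomial ℤ) (RingQ q) 1 := by
    rw [map_mul, ← h0, ← hu', map_one, Units.mul_inv]
  have hinj : Function.Injective (algebraMap (LaurentPolynomial ℤ) (RingQ q)) :=
    IsLocalization.injective (RingQ q) (powers_le_nonZeroDivisors_of_noZeroDivisors hq)
  have h5 : q * invert q = 1 := hinj h4
  have h6 : (q.coeff.sum fun a c => c * q.coeff a) = 1 := by
    rw [← n38_coeff, h5]
    simp [← T_zero]
  have h7 : ∑ a ∈ q.coeff.support, q.coeff a * q.coeff a = 1 := h6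
  have hne : q.coeff.support.Nonempty := by
    rw [Finsupp.support_nonempty_iff]
    intro h8
    apply hq
    ext a
    rw [h8]
    rfl
  obtain ⟨a, ha⟩ := hne
  have hpos : ∀ b ∈ q.coeff.support, 1 ≤ q.coeff b * q.coeff b := by
    intro b hb
    have := Finsupp.mem_support_iff.mp hb
    have h9 : 0 < q.coeff b * q.coeff b := mul_self_pos.mpr this
    omega
  have hall : ∀ b, b ≠ a → q.coeff b = 0 := by
    intro b hb
    by_contra hc
    have hbs : b ∈ q.coeff.support := Finsupp.mem_support_iff.mpr hc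
    have hsub : ({a, b} : Finset ℤ) ⊆ q.coeff.support := by
      intro x hx
      rcases Finset.mem_insert.mp hx with rfl | hx
      · exact ha
      · rw [Finset.mem_singleton.mp hx]; exact hbs
    have h10 : ∑ x ∈ ({a, b} : Finset ℤ), q.coeff x * q.coeff x ≤
        ∑ a ∈ q.coeff.support, q.coeff a * q.coeff a :=
      Finset.sum_le_sum_of_subset_of_nonneg hsub (fun i _ _ => mul_self_nonneg _)
    rw [Finset.sum_pair (Ne.symm hb), h7] at h10
    have h11 := hpos a ha
    have h12 := hpos b hbs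
    omega
  have hsupp : q.coeff.support = {a} := by
    apply Finset.eq_singleton_iff_unique_mem.mpr
    refine ⟨ha, fun x hx => ?_⟩
    by_contra hxa
    exact (Finsupp.mem_support_iff.mp hx) (hall x hxa)
  rw [hsupp, Finset.sum_singleton] at h7
  rcases mul_self_eq_one_iff.mp h7 with h8 | h8
  · apply h1 a
    ext b
    rw [T_apply]
    by_cases hb : a = b
    · rw [if_pos hb, ← hb, h8]
    · rw [if_neg hb, hall b (fun h => hb h.symm)]
  · apply h2 a
    ext b
    rw [AddMonoidAlgebra.coeff_neg, Finsupp.neg_apply, T_apply]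
    by_cases hb : a = b
    · rw [if_pos hb, ← hb, h8]
    · rw [if_neg hb, hall b (fun h => hb h.symm), neg_zero]

end Pool.Agent.LibND
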