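import Mathlib
import Pool.Agent.LibND.Defs

set_option autoImplicit false

/-! [ND N40] ONLY MATHLIB. The semidirect product is an extension; the groups `G_q` are finitely
generated, metabelian, and `ℤ[x, x⁻¹, 1/q]` has infinite rank.

PLAN. (a) direct. (b) `G_q` is generated by `(1, 1)`, `(0, x)`, `(0, q)`: the elements
`(0, u)(±1, 1)(0, u)⁻¹ = (± unitQ q u, 1)` generate all `(r, 1)`, since `RingQ q` is additively
spanned over `ℤ` by the `x^a q^b` (`IsLocalization.mk'_surjective`, Laurent monomials).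
(c) the second coordinates commute, so `snd` of a commutator is `1` (`⁅⊤, ⊤⁆ ≤ ker snd`), and the
elements `(r, 1)` commute. (d) the powers `x^0, ..., x^{k-1}` are independent over `ℤ`
(`q ≠ 0`: `ℤ[x, x⁻¹]` embeds in `RingQ q`). -/

namespace Pool.Agent.LibND

universe u v

theorem SD_isExt {A : Type u} [AddCommGroup A] {Γ : Type v} [Group Γ]
    (α : Γ →* AddMonoid.End A) :
    ∃ (j : Multiplicative A →* SD α) (π : SD α →* Γ),
      (∀ a : A, j (Multiplicative.ofAdd a) = ⟨a, 1⟩) ∧ (∀ x, π x = x.snd) ∧ IsExt α j π := by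
  let j : Multiplicative A →* SD α :=
    { toFun := fun a => ⟨a.toAdd, 1⟩
      map_one' := rfl
      map_mul' := fun a b => by
        ext
        · simp
        · simp }
  let π : SD α →* Γ :=
    { toFun := fun x => x.snd
      map_one' := rfl
      map_mul' := fun x y => rfl }
  refine ⟨j, π, fun a => rfl, fun x => rfl, ?_, ?_, ?_, ?_⟩
  · intro a b h
    have h1 : (j a).fst = (j b).fst := by rw [h]
    exact Multiplicative.toAdd.injective h1
  · intro g
    exact ⟨⟨0, g⟩, rfl⟩
  · ext x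
    constructor
    · rintro ⟨a, rfl⟩
      exact MonoidHom.mem_ker.mpr rfl
    · intro hx
      have hx' : x.snd = 1 := MonoidHom.mem_ker.mp hx
      refine ⟨Multiplicative.ofAdd x.fst, ?_⟩
      ext
      · rfl
      · exact hx'.symm
  · intro g a
    have hinv : α g.snd (α g.snd⁻¹ g.fst) = g.fst := by
      have h := congrArg (fun e : AddMonoid.End A => e g.fst) (map_mul α g.snd g.snd⁻¹)
      simpa using h.symm
    ext
    · show g.fst + α g.snd a + α (g.snd * 1) (-α g.snd⁻¹ g.fst) = α g.snd a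
      rw [mul_one, map_neg, hinv]
      abel
    · show g.snd * 1 * g.snd⁻¹ = 1
      simp

private theorem ofZ_mul (q : LaurentPolynomial ℤ) (z w : Zd 2) :
    (⟨0, z * w⟩ : GrpQ q) = ⟨0, z⟩ * ⟨0, w⟩ := by
  ext
  · simp
  · simp

private theorem conj_eq (q : LaurentPolynomial ℤ) (z : Zd 2) (r : RingQ q) :
    (⟨0, z⟩ : GrpQ q) * ⟨r, 1⟩ * (⟨0, z⟩ : GrpQ q)⁻¹ =
      ⟨((unitQ q z : (RingQ q)ˣ) : RingQ q) * r, 1⟩ := by
  refine SD.ext ?_ ?_
  · show (0 : RingQ q) + actQ q z r + actQ q (z * 1) (-actQ q z⁻¹ 0) = _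
    rw [map_zero, neg_zero, map_zero, add_zero, zero_add]
    rfl
  · show z * 1 * z⁻¹ = 1
    simp

private theorem unitQ_val (q : LaurentPolynomial ℤ) (a b : ℤ) :
    ((unitQ q (Multiplicative.ofAdd ![a, b]) : (RingQ q)ˣ) : RingQ q) =
      algebraMap (LaurentPolynomial ℤ) (RingQ q) (LaurentPolynomial.T a) *
        (((IsLocalization.Away.algebraMap_isUnit (S := RingQ q) q).unit ^ b : (RingQ q)ˣ) :
          RingQ q) := by
  have h : ∀ (a : ℤ), (((Units.map (algebraMap (LaurentPolynomial ℤ) (RingQ q)).toMonoidHom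
      (⟨LaurentPolynomial.T 1, LaurentPolynomial.T (-1),
        by rw [← LaurentPolynomial.T_add]; simp, by rw [← LaurentPolynomial.T_add]; simp⟩ :
        (LaurentPolynomial ℤ)ˣ)) ^ a : (RingQ q)ˣ) : RingQ q) =
      algebraMap (LaurentPolynomial ℤ) (RingQ q) (LaurentPolynomial.T a) := by
    intro a
    have h2 : ∀ a : ℤ, (((⟨LaurentPolynomial.T 1, LaurentPolynomial.T (-1),
        by rw [← LaurentPolynomial.T_add]; simp, by rw [← LaurentPolynomial.T_add]; simp⟩ :
        (LaurentPolynomial ℤ)ˣ) ^ a : (LaurentPolynomial ℤ)ˣ) : LaurentPolynomial ℤ) =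
        LaurentPolynomial.T a := by
      intro a
      obtain ⟨n, rfl | rfl⟩ := a.eq_nat_or_neg
      · rw [zpow_natCast, Units.val_pow_eq_pow_val, LaurentPolynomial.T_pow, mul_one]
      · rw [zpow_neg, zpow_natCast, ← inv_pow, Units.val_pow_eq_pow_val]
        show (LaurentPolynomial.T (-1) : LaurentPolynomial ℤ) ^ n = _
        rw [LaurentPolynomial.T_pow]
        congr 1
        ring
    rw [← map_zpow, ← h2 a]
    rfl
  show (((Units.map (algebraMap (LaurentPolynomial ℤ) (RingQ q)).toMonoidHom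
      (⟨LaurentPolynomial.T 1, LaurentPolynomial.T (-1),
        by rw [← LaurentPolynomial.T_add]; simp, by rw [← LaurentPolynomial.T_add]; simp⟩ :
        (LaurentPolynomial ℤ)ˣ)) ^ a *
      (IsLocalization.Away.algebraMap_isUnit (S := RingQ q) q).unit ^ b : (RingQ q)ˣ) :
      RingQ q) = _
  rw [Units.val_mul, h a]

theorem fg_GrpQ (q : LaurentPolynomial ℤ) : Group.FG (GrpQ q) := by
  classical
  rw [Group.fg_iff]
  set X : Zd 2 := Multiplicative.ofAdd ![1, 0] with hX
  set Y : Zd 2 := Multiplicative.ofAdd ![0, 1] with hY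
  let S : Set (GrpQ q) := {⟨1, 1⟩, ⟨0, X⟩, ⟨0, Y⟩}
  refine ⟨S, ?_, by simp [S]⟩
  set H := Subgroup.closure S with hH
  have hX1 : (⟨0, X⟩ : GrpQ q) ∈ H := Subgroup.subset_closure (by simp [S])
  have hY1 : (⟨0, Y⟩ : GrpQ q) ∈ H := Subgroup.subset_closure (by simp [S])
  have h11 : (⟨1, 1⟩ : GrpQ q) ∈ H := Subgroup.subset_closure (by simp [S])
  let ι : Zd 2 →* GrpQ q :=
    { toFun := fun z => ⟨0, z⟩
      map_one' := rfl
      map_mul' := ofZ_mul q }
  have hz : ∀ z : Zd 2, (⟨0, z⟩ : GrpQ q) ∈ H := by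
    intro z
    have hzz : z = X ^ (z.toAdd 0) * Y ^ (z.toAdd 1) := by
      apply Multiplicative.toAdd.injective
      ext i
      fin_cases i <;> simp [hX, hY]
    have h1 : ι z = ι X ^ (z.toAdd 0) * ι Y ^ (z.toAdd 1) := by
      conv_lhs => rw [hzz]
      rw [map_mul, map_zpow, map_zpow]
    have h2 : ι z ∈ H := by
      rw [h1]
      exact H.mul_mem (H.zpow_mem hX1 _) (H.zpow_mem hY1 _)
    exact h2
  let K : AddSubgroup (RingQ q) :=
    { carrier := {r | (⟨r, 1⟩ : GrpQ q) ∈ H}
      zero_mem' := H.one_mem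
      add_mem' := by
        intro a b ha hb
        have h : (⟨a + b, 1⟩ : GrpQ q) = ⟨a, 1⟩ * ⟨b, 1⟩ := by
          ext
          · simp
          · simp
        show (⟨a + b, 1⟩ : GrpQ q) ∈ H
        rw [h]
        exact H.mul_mem ha hb
      neg_mem' := by
        intro a ha
        have h : (⟨-a, 1⟩ : GrpQ q) = (⟨a, 1⟩ : GrpQ q)⁻¹ := by
          ext
          · simp
          · simp
        show (⟨-a, 1⟩ : GrpQ q) ∈ H
        rw [h]
        exact H.inv_mem ha }
  have hK1 : (1 : RingQ q) ∈ K := h11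
  have hKu : ∀ (z : Zd 2) (r : RingQ q), r ∈ K →
      ((unitQ q z : (RingQ q)ˣ) : RingQ q) * r ∈ K := by
    intro z r hr
    show (⟨((unitQ q z : (RingQ q)ˣ) : RingQ q) * r, 1⟩ : GrpQ q) ∈ H
    rw [← conj_eq]
    exact H.mul_mem (H.mul_mem (hz z) hr) (H.inv_mem (hz z))
  have hT : ∀ a : ℤ, algebraMap (LaurentPolynomial ℤ) (RingQ q) (LaurentPolynomial.T a) ∈ K := by
    intro a
    have h := hKu (Multiplicative.ofAdd ![a, 0]) 1 hK1
    rw [unitQ_val] at h
    simpa using h
  have hf : ∀ f : LaurentPolynomial ℤ, algebraMap (LaurentPolynomial ℤ) (RingQ q) f ∈ K := by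
    intro f
    induction f using LaurentPolynomial.induction_on' with
    | add p r hp hr =>
      rw [map_add]
      exact K.add_mem hp hr
    | C_mul_T n a =>
      have h1 : (LaurentPolynomial.C a * LaurentPolynomial.T n : LaurentPolynomial ℤ) =
          a • LaurentPolynomial.T n := by
        rw [LaurentPolynomial.smul_eq_C_mul]
      rw [h1, map_zsmul]
      exact K.zsmul_mem (hT n) a
  have hall : ∀ r : RingQ q, r ∈ K := by
    intro r
    obtain ⟨f, s, rfl⟩ := IsLocalization.exists_mk'_eq (Submonoid.powers q) r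
    obtain ⟨n, hn⟩ := s.2
    have h := hKu (Multiplicative.ofAdd ![0, -(n : ℤ)]) _ (hf f)
    rw [unitQ_val] at h
    convert h using 1
    rw [IsLocalization.mk'_eq_iff_eq_mul, LaurentPolynomial.T_zero, map_one, one_mul]
    have h3 : algebraMap (LaurentPolynomial ℤ) (RingQ q) (s : LaurentPolynomial ℤ) =
        (((IsLocalization.Away.algebraMap_isUnit (S := RingQ q) q).unit ^ (n : ℤ) :
          (RingQ q)ˣ) : RingQ q) := by
      rw [← hn, map_pow, zpow_natCast, Units.val_pow_eq_pow_val]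
      rfl
    rw [h3, mul_right_comm, ← Units.val_mul, ← zpow_add, neg_add_cancel, zpow_zero, Units.val_one,
      one_mul]
  rw [eq_top_iff]
  intro x _
  have hx : x = ⟨x.fst, 1⟩ * ⟨0, x.snd⟩ := by
    ext
    · simp
    · simp
  rw [hx]
  exact H.mul_mem (hall x.fst) (hz x.snd)

theorem metabelian_GrpQ (q : LaurentPolynomial ℤ) :
    ∀ x ∈ commutator (GrpQ q), ∀ y ∈ commutator (GrpQ q), x * y = y * x := by
  let π : GrpQ q →* Zd 2 :=
    { toFun := fun x => x.snd
      map_one' := rfl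
      map_mul' := fun x y => rfl }
  intro x hx y hy
  have hx1 : x.snd = 1 := MonoidHom.mem_ker.mp (Abelianization.commutator_subset_ker π hx)
  have hy1 : y.snd = 1 := MonoidHom.mem_ker.mp (Abelianization.commutator_subset_ker π hy)
  ext
  · simp [hx1, hy1, add_comm]
  · simp [hx1, hy1]

theorem rank_RingQ (q : LaurentPolynomial ℤ) (hq : q ≠ 0) (k : ℕ) :
    ∃ a : Fin k → RingQ q, LinearIndependent ℤ a := by
  classical
  refine ⟨fun i => algebraMap (LaurentPolynomial ℤ) (RingQ q) (LaurentPolynomial.T (i : ℤ)), ?_⟩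
  have hinj : Function.Injective (algebraMap (LaurentPolynomial ℤ) (RingQ q)) :=
    IsLocalization.injective (RingQ q)
      (powers_le_nonZeroDivisors_of_noZeroDivisors hq)
  rw [linearIndependent_iff']
  intro s g hg i hi
  have h1 : algebraMap (LaurentPolynomial ℤ) (RingQ q)
      (∑ j ∈ s, g j • (LaurentPolynomial.T ((j : ℕ) : ℤ) : LaurentPolynomial ℤ)) = 0 := by
    rw [map_sum, ← hg]
    refine Finset.sum_congr rfl fun j _ => ?_
    rw [map_zsmul]
  have h2 : (∑ j ∈ s, g j • (LaurentPolynomial.T ((j : ℕ) : ℤ) : LaurentPolynomial ℤ)) = 0 :=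
    hinj (by rw [h1, map_zero])
  have h3 : (∑ j ∈ s, g j • (LaurentPolynomial.T ((j : ℕ) : ℤ) : LaurentPolynomial ℤ)).coeff
      ((i : ℕ) : ℤ) = 0 := by
    rw [h2]; rfl
  rw [AddMonoidAlgebra.coeff_sum, Finsupp.finsetSum_apply, Finset.sum_eq_single i] at h3
  · rw [AddMonoidAlgebra.coeff_smul_apply, LaurentPolynomial.T_apply, if_pos rfl] at h3
    simpa using h3
  · intro j _ hji
    have hne : ((j : ℕ) : ℤ) ≠ ((i : ℕ) : ℤ) := by
      intro h
      exact hji (Fin.ext (by exact_mod_cast h))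
    rw [AddMonoidAlgebra.coeff_smul_apply, LaurentPolynomial.T_apply, if_neg hne, smul_zero]
  · intro h
    exact absurd hi h

end Pool.Agent.LibND
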