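import Mathlib
import Pool.Agent.LibND.Defs

set_option autoImplicit false

/-! [ND N41] ONLY MATHLIB. The full group C*-algebra exists.

PLAN. Index type `I : Type (u+1)`: all pairs (a complex Hilbert space `H : Type u` with its
structures, `ρ : G →* unitary (H →L[ℂ] H)`) (a structure). The bounded families
`P := lp (fun i : I => (H_i →L[ℂ] H_i)) ∞` form a C*-algebra: `lp.inftyNormedRing`,
`lp.inftyNormedAlgebra`/`inftyAlgebra`, `lp.inftyStarRing`, `lp.inftyCStarRing`, complete
(`CStarAlgebra` extends these; the trivial Hilbert space may have `‖1‖ = 0`, take `NormedRing`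
instances which do not need `NormOneClass`: `lp.inftyNonUnitalNormedRing` and a unit given by
`1 i = 1`; if `lp ∞` needs `NormOneClass`, use only nontrivial Hilbert spaces in the index, and treat
a trivial `H` separately: every star homomorphism into `H →L[ℂ] H = 0` is `0`).
`u g := (ρ_i g)_i`, a unitary. `A := (StarAlgebra.adjoin ℂ (range u)).topologicalClosure` (a
C*-algebra: `StarSubalgebra.cstarAlgebra`); `U g := u g` in `A`. The span of `range u` is already a
star subalgebra, so it is dense in `A`. `exists_rep`: restrict the evaluation `P → (H_i →L[ℂ] H_i)`. -/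

namespace Pool.Agent.LibND

universe u

open scoped ENNReal

/-- The index type: the unitary representations of `G` on nontrivial Hilbert spaces. -/
private structure N41Rep (G : Type u) [Group G] : Type (u + 1) where
  H : Type u
  [i1 : NormedAddCommGroup H]
  [i2 : InnerProductSpace ℂ H]
  [i3 : CompleteSpace H]
  [i4 : Nontrivial H]
  ρ : G →* unitary (H →L[ℂ] H)

attribute [instance] N41Rep.i1 N41Rep.i2 N41Rep.i3 N41Rep.i4

/-- The C*-algebra of the bounded families. -/
private abbrev N41P (G : Type u) [Group G] : Type (u + 1) :=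
  lp (fun i : N41Rep G => (i.H →L[ℂ] i.H)) ∞

private noncomputable instance n41P_cstar (G : Type u) [Group G] : CStarAlgebra (N41P G) where

private theorem n41_norm_le {G : Type u} [Group G] (i : N41Rep G) (g : G) :
    ‖(i.ρ g : i.H →L[ℂ] i.H)‖ ≤ 1 :=
  CStarRing.norm_coe_unitary (i.ρ g) |>.le

private noncomputable def n41u {G : Type u} [Group G] (g : G) : N41P G :=
  ⟨fun i => (i.ρ g : i.H →L[ℂ] i.H), memℓp_infty ⟨1, by
    rintro _ ⟨i, rfl⟩
    exact n41_norm_le i g⟩⟩

private theorem n41u_apply {G : Type u} [Group G] (g : G) (i : N41Rep G) :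
    (n41u g : N41P G) i = (i.ρ g : i.H →L[ℂ] i.H) := rfl

private theorem n41u_one {G : Type u} [Group G] : (n41u (1 : G) : N41P G) = 1 := by
  ext i : 2
  rw [n41u_apply, map_one]
  rfl

private theorem n41u_mul {G : Type u} [Group G] (g h : G) :
    (n41u (g * h) : N41P G) = n41u g * n41u h := by
  ext i : 2
  rw [n41u_apply, map_mul]
  rfl

private theorem n41u_star {G : Type u} [Group G] (g : G) :
    star (n41u g : N41P G) = n41u g⁻¹ := by
  ext i : 2
  rw [n41u_apply, map_inv]
  rfl

/-- The star subalgebra generated by the unitaries `u g`. -/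
private noncomputable def n41S (G : Type u) [Group G] : StarSubalgebra ℂ (N41P G) :=
  StarAlgebra.adjoin ℂ (Set.range fun g : G => (n41u g : N41P G))

private theorem n41_star_span {G : Type u} [Group G] (x : N41P G)
    (h1 : x ∈ Submodule.span ℂ (Set.range fun g : G => (n41u g : N41P G))) :
    star x ∈ Submodule.span ℂ (Set.range fun g : G => (n41u g : N41P G)) := by
  induction h1 using Submodule.span_induction with
  | mem x hx =>
    obtain ⟨g, rfl⟩ := hx
    exact Submodule.subset_span ⟨g⁻¹, (n41u_star g).symm⟩
  | zero => rw [star_zero]; exact Submodule.zero_mem _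
  | add x y _ _ h1 h2 => rw [star_add]; exact Submodule.add_mem _ h1 h2
  | smul a x _ h => rw [star_smul]; exact Submodule.smul_mem _ _ h

private theorem n41_mem_span {G : Type u} [Group G] (x : N41P G) (hx : x ∈ n41S G) :
    x ∈ Submodule.span ℂ (Set.range fun g : G => (n41u g : N41P G)) := by
  refine StarAlgebra.adjoin_induction (p := fun x _ =>
    x ∈ Submodule.span ℂ (Set.range fun g : G => (n41u g : N41P G))) ?_ ?_ ?_ ?_ ?_ hx
  · intro x hx
    exact Submodule.subset_span hx
  · intro r
    rw [Algebra.algebraMap_eq_smul_one, ← n41u_one]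
    exact Submodule.smul_mem _ _ (Submodule.subset_span ⟨1, rfl⟩)
  · intro x y _ _ h1 h2
    exact Submodule.add_mem _ h1 h2
  · intro x y _ _ h1 h2
    have h3 := Submodule.mul_mem_mul h1 h2
    rw [Submodule.span_mul_span] at h3
    refine Submodule.span_mono ?_ h3
    rintro _ ⟨_, ⟨g, rfl⟩, _, ⟨h, rfl⟩, rfl⟩
    exact ⟨g * h, n41u_mul g h⟩
  · intro x _ h1
    exact n41_star_span x h1

/-- The full group C*-algebra. -/
private noncomputable abbrev n41A (G : Type u) [Group G] : StarSubalgebra ℂ (N41P G) :=
  (n41S G).topologicalClosure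

private noncomputable instance n41A_cstar (G : Type u) [Group G] : CStarAlgebra (n41A G) :=
  StarSubalgebra.cstarAlgebra (n41A G) (h_closed := StarSubalgebra.isClosed_topologicalClosure _)

private theorem n41u_mem {G : Type u} [Group G] (g : G) : (n41u g : N41P G) ∈ n41A G :=
  StarSubalgebra.le_topologicalClosure _ (StarAlgebra.subset_adjoin ℂ _ ⟨g, rfl⟩)

private noncomputable def n41U (G : Type u) [Group G] : G →* unitary (n41A G) where
  toFun g := ⟨⟨n41u g, n41u_mem g⟩, by
    rw [Unitary.mem_iff]
    constructor
    · apply Subtype.ext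
      show star (n41u g) * n41u g = 1
      rw [n41u_star, ← n41u_mul, inv_mul_cancel, n41u_one]
    · apply Subtype.ext
      show n41u g * star (n41u g) = 1
      rw [n41u_star, ← n41u_mul, mul_inv_cancel, n41u_one]⟩
  map_one' := Subtype.ext (Subtype.ext n41u_one)
  map_mul' g h := Subtype.ext (Subtype.ext (n41u_mul g h))

/-- The evaluation at a representation. -/
private noncomputable def n41ev {G : Type u} [Group G] (i : N41Rep G) :
    N41P G →⋆ₐ[ℂ] (i.H →L[ℂ] i.H) where
  toFun f := f i
  map_one' := rfl
  map_mul' _ _ := rfl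
  map_zero' := rfl
  map_add' _ _ := rfl
  commutes' _ := rfl
  map_star' _ := rfl

private theorem n41_span_image {G : Type u} [Group G] (x : N41P G)
    (h1 : x ∈ Submodule.span ℂ (Set.range fun g : G => (n41u g : N41P G))) :
    x ∈ ((↑) : n41A G → N41P G) ''
      (Submodule.span ℂ (Set.range fun g => (n41U G g : n41A G)) : Set (n41A G)) := by
  induction h1 using Submodule.span_induction with
  | mem x hx =>
    obtain ⟨g, rfl⟩ := hx
    exact ⟨(n41U G g : n41A G), Submodule.subset_span ⟨g, rfl⟩, rfl⟩
  | zero => exact ⟨0, Submodule.zero_mem _, rfl⟩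
  | add x y _ _ h1 h2 =>
    obtain ⟨a, ha, rfl⟩ := h1
    obtain ⟨b, hb, rfl⟩ := h2
    exact ⟨a + b, Submodule.add_mem _ ha hb, rfl⟩
  | smul c x _ h =>
    obtain ⟨a, ha, rfl⟩ := h
    exact ⟨c • a, Submodule.smul_mem _ _ ha, rfl⟩

private theorem n41_dense (G : Type u) [Group G] :
    Dense (Submodule.span ℂ (Set.range fun g => (n41U G g : n41A G)) : Set (n41A G)) := by
  intro a
  rw [closure_subtype]
  have h1 : (a : N41P G) ∈ closure (n41S G : Set (N41P G)) := a.2
  exact closure_mono (fun x hx => n41_span_image x (n41_mem_span x hx)) h1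

theorem exists_groupCStar (G : Type u) [Group G] :
    ∃ (A : Type (u + 1)) (_ : CStarAlgebra A) (U : G →* unitary A), IsGroupCStar G A U := by
  refine ⟨n41A G, n41A_cstar G, n41U G, n41_dense G, ?_⟩
  intro H _ _ _ ρ
  rcases subsingleton_or_nontrivial H with hH | hH
  · haveI : Subsingleton (H →L[ℂ] H) := ⟨fun a b => by
      ext x
      exact Subsingleton.elim _ _⟩
    exact ⟨{ toFun := fun _ => 0
             map_one' := Subsingleton.elim _ _
             map_mul' := fun _ _ => Subsingleton.elim _ _
             map_zero' := Subsingleton.elim _ _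
             map_add' := fun _ _ => Subsingleton.elim _ _
             commutes' := fun _ => Subsingleton.elim _ _
             map_star' := fun _ => Subsingleton.elim _ _ }, fun g => Subsingleton.elim _ _⟩
  · exact ⟨(n41ev (⟨H, ρ⟩ : N41Rep G)).comp (n41A G).subtype, fun g => rfl⟩

end Pool.Agent.LibND
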